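import Pool.Agent.J6H44.PL.TwoB

/-! The Poisson-Dirichlet law for all sets of points, and the mass of the long cycles. -/

set_option autoImplicit false
set_option linter.unusedSectionVars false
set_option linter.unusedVariables false
set_option maxHeartbeats 1600000

namespace Pool.Agent.J6H44.PL

open Finset Equiv Q292.LC
open Pool.Agent.Y998.ST (stirExp nnRate stirLaw nn_nonneg cycleLen exp_const exp_mono)
open Pool.Agent.R134.PB (con Near bf)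
open Pool.Agent.R134.PB.Pds (cmp_top exp_sub' exp_abs bf_nonneg)
open Pool.Agent.Y661.PD (tdist dl)
open Pool.Agent.TH268.PD (Cyc cyOf frac top pdm pdl pdm_close lip_approx)

theorem NN_eq_dl {V : Type} [Fintype V] [DecidableEq V] (J : V → V → ℝ) (t : ℝ) (x y : V) :
    Pool.Agent.Y998.LP.NN J t (swap x y) = dl J t (swap x y) := by
  unfold Pool.Agent.Y998.LP.NN dl
  rw [swap_inv]

theorem pd_sets (d : ℕ) (hd : 3 ≤ d) : ∃ a : ℕ, 1 ≤ a ∧ (∀ η : ℝ, 0 < η → ∃ L₀ : ℕ,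
    ∀ (L : ℕ) [NeZero L], L₀ ≤ L → ∀ t : ℝ, (Real.log L) ^ a ≤ t →
    ∀ x y : Fin d → ZMod L, x ≠ y → |con (nnRate d L) t x y - 1 / 2| ≤ η) ∧
    ∀ (m : ℕ) (f : (Fin m → ℝ) → ℝ),
    Continuous f → ∀ C : ℝ, (∀ u, |f u| ≤ C) → ∀ η : ℝ, 0 < η → ∃ L₀ N₀ : ℕ,
    ∀ (L : ℕ) [NeZero L], L₀ ≤ L → ∀ t : ℝ, (Real.log L) ^ a ≤ t →
    ∀ B : Finset (Fin d → ZMod L), N₀ ≤ B.card →
    |stirExp (nnRate d L) t (fun g => f (fun i : Fin m => top (bf B g) i)) - pdm f| ≤ η := by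
  obtain ⟨a, ha, htwo⟩ := two_all d hd
  refine ⟨a, ha, htwo, ?_⟩
  intro m f hf C hC η hη
  obtain ⟨Λ, F, hΛ, hFc, hFC, hFl, hFf⟩ := lip_approx m f hf C hC (η / 8) (by positivity)
  obtain ⟨δ, hδ, N₁, hN₁, hpd⟩ := Pool.Agent.Y998.LQ.pd_gen m F hFc C hFC (η / 8) (by positivity)
  obtain ⟨κ, hκ⟩ : ∃ κ : ℝ, κ = η / (8 * (Λ + 1)) := ⟨_, rfl⟩
  have hκ0 : 0 < κ := by rw [hκ]; positivity
  obtain ⟨N₂, hN₂⟩ := exists_nat_gt (4 / κ ^ 2)
  obtain ⟨ρ, hρ⟩ : ∃ ρ : ℕ, ρ = max N₁ (max N₂ 1) := ⟨_, rfl⟩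
  have hρ1 : 1 ≤ ρ := by rw [hρ]; exact (le_max_right _ _).trans (le_max_right _ _)
  have hρN1 : N₁ ≤ ρ := by rw [hρ]; exact le_max_left _ _
  have hρN2 : N₂ ≤ ρ := by rw [hρ]; exact (le_max_left _ _).trans (le_max_right _ _)
  have hρR : (1 : ℝ) ≤ ρ := by exact_mod_cast hρ1
  obtain ⟨L₁, hL₁⟩ := htwo (κ ^ 2 / 8) (by positivity)
  obtain ⟨C1, hC1, hdist⟩ := Pool.Agent.Y998.LQ.t_dist d (by omega)
  refine ⟨max (max L₁ ρ) (max 3 ⌈Real.exp (1 + (C1 * (2 * (d * ρ)) / δ) ^ 2)⌉₊), ρ ^ d, ?_⟩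
  intro L _ hL t ht B hBc
  have hL1 : L₁ ≤ L := ((le_max_left _ _).trans (le_max_left _ _)).trans hL
  have hρL : ρ ≤ L := ((le_max_right _ _).trans (le_max_left _ _)).trans hL
  have hL3 : 3 ≤ L := ((le_max_left _ _).trans (le_max_right _ _)).trans hL
  have hLx : Real.exp (1 + (C1 * (2 * (d * ρ)) / δ) ^ 2) ≤ L := by
    refine (Nat.le_ceil _).trans ?_
    exact_mod_cast ((le_max_right _ _).trans (le_max_right _ _)).trans hL
  have hL0 : (0 : ℝ) < L := lt_of_lt_of_le (Real.exp_pos _) hLx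
  have hlog : 1 + (C1 * (2 * (d * ρ)) / δ) ^ 2 ≤ Real.log L := by
    rw [Real.le_log_iff_exp_le hL0]
    exact hLx
  have hsqn : 0 ≤ (C1 * (2 * ((d : ℝ) * ρ)) / δ) ^ 2 := sq_nonneg _
  have hlt : Real.log L ≤ t := (le_self_pow₀ (by linarith) (by omega)).trans ht
  have ht0 : 0 < t := by linarith
  have hst : 0 < Real.sqrt t := Real.sqrt_pos.2 ht0
  have hJ0 : ∀ x y, 0 ≤ nnRate d L x y := nn_nonneg
  have hBpos : 0 < B.card := lt_of_lt_of_le (pow_pos hρ1 d) hBc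
  obtain ⟨z, hz⟩ := Finset.card_pos.1 hBpos
  obtain ⟨B0, hB0⟩ : ∃ B0 : Finset (Fin d → ZMod L), B0 = box z ρ := ⟨_, rfl⟩
  have hB0c : B0.card = ρ ^ d := by
    rw [hB0, Pool.Agent.Q187.LC.Nas.card_box z ρ hρL]
  have hB0pos : 0 < B0.card := by rw [hB0c]; exact pow_pos hρ1 d
  obtain ⟨w, hw⟩ := Finset.card_pos.1 hB0pos
  have hn : ∀ B B' : Finset (Fin d → ZMod L), Near (nnRate d L) t (κ ^ 2 / 8) B B' :=
    fun B B' x _ y _ hxy => hL₁ L hL1 t ht x y hxy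
  have hpd0 : |stirExp (nnRate d L) t (fun g => F (fun i => top (bf B0 g) i)) - pdm F| ≤
      η / 8 := by
    refine hpd (Fin d → ZMod L) (nnRate d L) hJ0 t ht0.le B0 ?_ fun x hx y hy => ?_
    · rw [hB0c]
      exact hρN1.trans (Nat.le_self_pow (by omega) ρ)
    · rw [hB0] at hx hy
      refine (hdist L hL3 t ht0 x y).trans ?_
      rw [div_le_iff₀ hst]
      have h3 : (tdist x y : ℝ) ≤ 2 * (d * ρ) := by exact_mod_cast box_dist z ρ hx hy
      have h4 : C1 * (2 * (d * ρ)) / δ ≤ Real.sqrt t :=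
        Real.le_sqrt_of_sq_le (by linarith)
      rw [div_le_iff₀ hδ] at h4
      have h5 := mul_le_mul_of_nonneg_left h3 hC1.le
      have h6 : (Pool.Agent.Y998.LP.tdist x y : ℝ) = (tdist x y : ℝ) := rfl
      rw [h6]
      linarith
  have hcmp := cmp_top Pool.Agent.R134.PB.All.cmp hJ0 ht0.le (by positivity) ⟨z, hz⟩ ⟨w, hw⟩
    (hn B B) (hn B0 B0) (hn B B0) F Λ hΛ hFl
  have hcard1 : 1 / (B.card : ℝ) ≤ κ ^ 2 / 4 := by
    have h1 : (N₂ : ℝ) ≤ B.card := by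
      have : N₂ ≤ B.card := hρN2.trans ((Nat.le_self_pow (by omega) ρ).trans hBc)
      exact_mod_cast this
    have h2 : 4 / κ ^ 2 < B.card := lt_of_lt_of_le hN₂ h1
    rw [div_lt_iff₀ (by positivity)] at h2
    rw [div_le_div_iff₀ (by exact_mod_cast hBpos) (by norm_num)]
    linarith
  have hcard2 : 1 / (B0.card : ℝ) ≤ κ ^ 2 / 4 := by
    have h1 : (N₂ : ℝ) ≤ B0.card := by
      have : N₂ ≤ B0.card := by
        rw [hB0c]
        exact hρN2.trans (Nat.le_self_pow (by omega) ρ)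
      exact_mod_cast this
    have h2 : 4 / κ ^ 2 < B0.card := lt_of_lt_of_le hN₂ h1
    rw [div_lt_iff₀ (by positivity)] at h2
    rw [div_le_div_iff₀ (by exact_mod_cast hB0pos) (by norm_num)]
    linarith
  have hcmp2 : |stirExp (nnRate d L) t (fun g => F (fun i => top (bf B g) i)) -
      stirExp (nnRate d L) t (fun g => F (fun i => top (bf B0 g) i))| ≤ η / 8 := by
    refine hcmp.trans ?_
    have h1 : Real.sqrt (4 * (κ ^ 2 / 8) + 1 / B.card + 1 / B0.card) ≤ κ := by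
      rw [Real.sqrt_le_left hκ0.le]
      linarith
    calc Λ * Real.sqrt (4 * (κ ^ 2 / 8) + 1 / B.card + 1 / B0.card) ≤ (Λ + 1) * κ :=
          mul_le_mul (by linarith) h1 (Real.sqrt_nonneg _) (by linarith)
      _ = η / 8 := by rw [hκ]; field_simp
  have k1 : |stirExp (nnRate d L) t (fun g => f (fun i => top (bf B g) i)) -
      stirExp (nnRate d L) t (fun g => F (fun i => top (bf B g) i))| ≤ η / 8 := by
    rw [exp_sub']
    refine (exp_abs hJ0 ht0.le _).trans ?_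
    have h2 : ∀ g : Perm (Fin d → ZMod L),
        |f (fun i => top (bf B g) i) - F (fun i => top (bf B g) i)| ≤ η / 8 := by
      intro g
      have hfin : Finite (Cyc g) := Quotient.finite _
      exact hFf _ fun i => ⟨Pool.Agent.TH268.PD.top_nonneg _ (bf_nonneg B g) i,
          Pool.Agent.TH268.PD.top_le_one _ (bf_nonneg B g)
            (Pool.Agent.Y998.LQ.bfrac_le_one B g) i⟩
    have h3 := exp_mono hJ0 ht0.le h2
    rwa [exp_const] at h3
  have k2 : |pdm f - pdm F| ≤ η / 8 := by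
    have := pdm_close pdl m f F hf hFc C hC hFC (η / 8) hFf 1 zero_le_one le_rfl
    simpa only [one_mul] using this
  rw [abs_le] at hpd0 hcmp2 k1 k2 ⊢
  constructor
  · linarith [hpd0.1, hcmp2.1, k1.1, k2.1, hpd0.2, hcmp2.2, k1.2, k2.2]
  · linarith [hpd0.1, hcmp2.1, k1.1, k2.1, hpd0.2, hcmp2.2, k1.2, k2.2]

end Pool.Agent.J6H44.PL
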