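import Pool.Agent.J6H44.PL.Lam

/-! Project LC: boxes and the torus see the same cycle fractions (a form of DVA). -/

set_option autoImplicit false
set_option linter.unusedSectionVars false
set_option linter.unusedVariables false

namespace Pool.Agent.J6H44.PL

open Finset Equiv Matrix Q292.LC
open Pool.Agent.Q153.LC (mem_cyc self_mem_cyc inv_same cyc_disj cyc_eq)

section gen

variable {V : Type} [Fintype V] [DecidableEq V]

theorem cyc_card_pos (g : Perm V) (x : V) : (0 : ℝ) < (cyc g x).card := by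
  exact_mod_cast Finset.card_pos.2 ⟨x, self_mem_cyc g x⟩

/-- sums of cycle averages -/
theorem cyc_exch (g : Perm V) (S : Finset V) (hS : ∀ x ∈ S, cyc g x ⊆ S) (b : V → ℝ) :
    ∑ x ∈ S, (∑ y ∈ cyc g x, b y) / ((cyc g x).card : ℝ) = ∑ y ∈ S, b y := by
  have h1 : ∀ x ∈ S, (∑ y ∈ cyc g x, b y) / ((cyc g x).card : ℝ) =
      ∑ y ∈ S, if y ∈ cyc g x then b y / ((cyc g y).card : ℝ) else 0 := by
    intro x hx
    rw [Finset.sum_div, ← Finset.sum_filter, Finset.filter_mem_eq_inter,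
      Finset.inter_eq_right.2 (hS x hx)]
    refine Finset.sum_congr rfl fun y hy => ?_
    rw [cyc_eq g x y hy]
  rw [Finset.sum_congr rfl h1, Finset.sum_comm]
  refine Finset.sum_congr rfl fun y hy => ?_
  rw [← Finset.sum_filter, Finset.sum_const, nsmul_eq_mul]
  have h2 : S.filter (fun x => y ∈ cyc g x) = cyc g y := by
    ext x
    rw [Finset.mem_filter, mem_cyc, mem_cyc]
    constructor
    · rintro ⟨_, h⟩
      exact h.symm
    · intro h
      exact ⟨hS y hy ((mem_cyc g y x).2 h), h.symm⟩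
  rw [h2]
  have := cyc_card_pos g y
  field_simp

theorem cyc_l1 (g : Perm V) (b : V → ℝ) :
    ∑ x, (∑ y ∈ cyc g x, b y) ^ 2 / ((cyc g x).card : ℝ) ≤ (∑ y, |b y|) ^ 2 := by
  have h1 : ∀ x, (∑ y ∈ cyc g x, b y) ^ 2 / ((cyc g x).card : ℝ) ≤
      (∑ y, |b y|) * ((∑ y ∈ cyc g x, |b y|) / ((cyc g x).card : ℝ)) := by
    intro x
    have hc := cyc_card_pos g x
    rw [← mul_div_assoc, div_le_div_iff_of_pos_right hc]
    have h2 : |∑ y ∈ cyc g x, b y| ≤ ∑ y ∈ cyc g x, |b y| := Finset.abs_sum_le_sum_abs _ _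
    have h3 : ∑ y ∈ cyc g x, |b y| ≤ ∑ y, |b y| :=
      Finset.sum_le_sum_of_subset_of_nonneg (Finset.subset_univ _) fun y _ _ => abs_nonneg _
    have h4 : 0 ≤ ∑ y ∈ cyc g x, |b y| := Finset.sum_nonneg fun y _ => abs_nonneg _
    calc (∑ y ∈ cyc g x, b y) ^ 2 = |∑ y ∈ cyc g x, b y| ^ 2 := (sq_abs _).symm
      _ = |∑ y ∈ cyc g x, b y| * |∑ y ∈ cyc g x, b y| := sq _
      _ ≤ (∑ y, |b y|) * ∑ y ∈ cyc g x, |b y| :=
        mul_le_mul (h2.trans h3) h2 (abs_nonneg _) (h4.trans h3)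
  refine (Finset.sum_le_sum fun x _ => h1 x).trans ?_
  rw [← Finset.mul_sum, cyc_exch g univ (fun x _ => Finset.subset_univ _) fun y => |b y|, sq]

end gen

section torus

variable {d L : ℕ} [NeZero L]

/-- squared deviation of the cycle fractions of a box -/
noncomputable def Dvz (r : ℕ) (g : Perm (Fin d → ZMod L)) (z : Fin d → ZMod L) : ℝ :=
  ∑ x, ((((cyc g x) ∩ box z r).card : ℝ) / (r : ℝ) ^ d - ((cyc g x).card : ℝ) / (L : ℝ) ^ d) ^ 2 /
    ((cyc g x).card : ℝ)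

/-- its mean over the boxes of side `r` -/
noncomputable def Dv (r : ℕ) (g : Perm (Fin d → ZMod L)) : ℝ := (∑ z, Dvz r g z) / (L : ℝ) ^ d

/-- uniform weight of a box -/
noncomputable def ew (r : ℕ) (z y : Fin d → ZMod L) : ℝ :=
  if y ∈ box z r then 1 / (r : ℝ) ^ d else 0

theorem ew_nonneg (r : ℕ) (z y : Fin d → ZMod L) : 0 ≤ ew r z y := by
  unfold ew
  split_ifs <;> positivity

theorem ew_sum (r : ℕ) (z : Fin d → ZMod L) (S : Finset (Fin d → ZMod L)) :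
    ∑ y ∈ S, ew r z y = ((S ∩ box z r).card : ℝ) / (r : ℝ) ^ d := by
  unfold ew
  rw [← Finset.sum_filter, Finset.filter_mem_eq_inter, Finset.sum_const, nsmul_eq_mul,
    mul_one_div]

theorem ew_tot (r : ℕ) (hr : 1 ≤ r) (hrL : r ≤ L) (z : Fin d → ZMod L) : ∑ y, ew r z y = 1 := by
  have hr0 : (0 : ℝ) < r := by exact_mod_cast hr
  rw [ew_sum, Finset.univ_inter, Pool.Agent.Q187.LC.Nas.card_box z r hrL, Nat.cast_pow,
    div_self (by positivity)]

theorem ew_col (r : ℕ) (hr : 1 ≤ r) (hrL : r ≤ L) (y : Fin d → ZMod L) :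
    ∑ z : Fin d → ZMod L, ew r z y = 1 := by
  have hr0 : (0 : ℝ) < r := by exact_mod_cast hr
  unfold ew
  rw [← Finset.sum_filter, Finset.sum_const, nsmul_eq_mul,
    Pool.Agent.Q187.LC.Nas.card_cover y r hrL, Nat.cast_pow, mul_one_div, div_self (by positivity)]

theorem cardV : ((Finset.univ : Finset (Fin d → ZMod L)).card : ℝ) = (L : ℝ) ^ d := by
  rw [Finset.card_univ, Fintype.card_fun, ZMod.card, Fintype.card_fin, Nat.cast_pow]

theorem diff_eq (r : ℕ) (g : Perm (Fin d → ZMod L)) (z x : Fin d → ZMod L) :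
    (((cyc g x) ∩ box z r).card : ℝ) / (r : ℝ) ^ d - ((cyc g x).card : ℝ) / (L : ℝ) ^ d =
      ∑ y ∈ cyc g x, (ew r z y - 1 / (L : ℝ) ^ d) := by
  rw [Finset.sum_sub_distrib, ew_sum, Finset.sum_const, nsmul_eq_mul, mul_one_div]

/-- the cycles of an invariant set -/
theorem dv_inv (r : ℕ) (hr : 1 ≤ r) (hrL : r ≤ L) (g : Perm (Fin d → ZMod L))
    (A : Finset (Fin d → ZMod L)) (hA : ∀ x ∈ A, cyc g x ⊆ A) (z : Fin d → ZMod L) :
    ∑ x ∈ A, ((((cyc g x) ∩ box z r).card : ℝ) / (r : ℝ) ^ d -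
      ((cyc g x).card : ℝ) / (L : ℝ) ^ d) ^ 2 / ((cyc g x).card : ℝ) ≤
      ∑ y ∈ A, (ew r z y + 1 / (L : ℝ) ^ d) := by
  have hL0 : (0 : ℝ) < (L : ℝ) ^ d := by
    have : (0 : ℝ) < L := by exact_mod_cast Nat.pos_of_ne_zero (NeZero.ne L)
    positivity
  rw [← cyc_exch g A hA fun y => ew r z y + 1 / (L : ℝ) ^ d]
  refine Finset.sum_le_sum fun x _ => ?_
  have hc := cyc_card_pos g x
  rw [div_le_div_iff_of_pos_right hc, Finset.sum_add_distrib, ew_sum, Finset.sum_const,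
    nsmul_eq_mul, mul_one_div]
  obtain ⟨a, ha⟩ : ∃ a : ℝ, a = (((cyc g x) ∩ box z r).card : ℝ) / (r : ℝ) ^ d := ⟨_, rfl⟩
  obtain ⟨c, hcd⟩ : ∃ c : ℝ, c = ((cyc g x).card : ℝ) / (L : ℝ) ^ d := ⟨_, rfl⟩
  rw [← ha, ← hcd]
  have ha0 : 0 ≤ a := by rw [ha]; positivity
  have hc0 : 0 ≤ c := by rw [hcd]; positivity
  have ha1 : a ≤ 1 := by
    rw [ha, ← ew_sum, ← ew_tot r hr hrL z]
    exact Finset.sum_le_sum_of_subset_of_nonneg (Finset.subset_univ _) fun y _ _ => ew_nonneg r z y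
  have hc1 : c ≤ 1 := by
    rw [hcd, div_le_one hL0, ← cardV]
    exact_mod_cast Finset.card_le_univ _
  nlinarith

theorem Dvz_nonneg (r : ℕ) (g : Perm (Fin d → ZMod L)) (z : Fin d → ZMod L) : 0 ≤ Dvz r g z :=
  Finset.sum_nonneg fun x _ => div_nonneg (sq_nonneg _) (Nat.cast_nonneg _)

theorem Dv_nonneg (r : ℕ) (g : Perm (Fin d → ZMod L)) : 0 ≤ Dv r g :=
  div_nonneg (Finset.sum_nonneg fun z _ => Dvz_nonneg r g z) (by positivity)

theorem Dv_le (r : ℕ) (hr : 1 ≤ r) (hrL : r ≤ L) (g : Perm (Fin d → ZMod L)) : Dv r g ≤ 2 := by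
  have hL0 : (0 : ℝ) < (L : ℝ) ^ d := by
    have : (0 : ℝ) < L := by exact_mod_cast Nat.pos_of_ne_zero (NeZero.ne L)
    positivity
  unfold Dv
  rw [div_le_iff₀ hL0]
  calc ∑ z, Dvz r g z ≤ ∑ _z : Fin d → ZMod L, (2 : ℝ) := by
        refine Finset.sum_le_sum fun z _ => ?_
        refine (dv_inv r hr hrL g univ (fun x _ => Finset.subset_univ _) z).trans ?_
        rw [Finset.sum_add_distrib, ew_tot r hr hrL, Finset.sum_const, nsmul_eq_mul, cardV,
          mul_one_div, div_self hL0.ne']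
        norm_num
    _ = 2 * (L : ℝ) ^ d := by rw [Finset.sum_const, nsmul_eq_mul, cardV, mul_comm]

/-- the correction -/
noncomputable def bw (r : ℕ) (Dm : Finset (Fin d → ZMod L)) (z y : Fin d → ZMod L) : ℝ :=
  ew r z y - chi r Dm z y

theorem bw_abs (r : ℕ) (hr : 1 ≤ r) (hrL : r ≤ L) (Dm : Finset (Fin d → ZMod L)) (η : ℝ)
    (hD : ∀ v, ((Dm ∩ box v r).card : ℝ) ≤ η * (r : ℝ) ^ d) (z : Fin d → ZMod L) :
    ∑ y, |bw r Dm z y| ≤ 2 * η := by
  have hr0 : (0 : ℝ) < r := by exact_mod_cast hr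
  have hrd : (0 : ℝ) < (r : ℝ) ^ d := by positivity
  have h1 : ∀ y, |bw r Dm z y| ≤ chi r Dm z y - ew r z y + 2 * (if y ∈ Dm then ew r z y else 0) := by
    intro y
    unfold bw
    by_cases hy : y ∈ Dm
    · have h2 : chi r Dm z y = 0 := by
        unfold chi
        rw [if_neg (by simp [hy])]
      rw [h2, if_pos hy, sub_zero, abs_of_nonneg (ew_nonneg r z y)]
      linarith
    · rw [if_neg hy, mul_zero, add_zero]
      have h3 : ew r z y ≤ chi r Dm z y := by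
        unfold ew chi
        by_cases hb : y ∈ box z r
        · have h4 : y ∈ box z r \ Dm := Finset.mem_sdiff.2 ⟨hb, hy⟩
          rw [if_pos hb, if_pos h4]
          have h5 : (0 : ℝ) < ((box z r \ Dm).card : ℝ) := by
            exact_mod_cast Finset.card_pos.2 ⟨y, h4⟩
          refine one_div_le_one_div_of_le h5 ?_
          have h6 : (box z r \ Dm).card ≤ (box z r).card := Finset.card_le_card Finset.sdiff_subset
          rw [Pool.Agent.Q187.LC.Nas.card_box z r hrL] at h6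
          exact_mod_cast h6
        · rw [if_neg hb, if_neg (fun h => hb (Finset.mem_sdiff.1 h).1)]
      rw [abs_of_nonpos (by linarith)]
      linarith
  have h2 : ∑ y, chi r Dm z y ≤ 1 := by
    unfold chi
    rw [← Finset.sum_filter, Finset.sum_const, nsmul_eq_mul, Finset.filter_mem_eq_inter,
      Finset.univ_inter, mul_one_div]
    exact div_self_le_one _
  have h3 : ∑ y, (if y ∈ Dm then ew r z y else 0) ≤ η := by
    rw [← Finset.sum_filter, Finset.filter_mem_eq_inter, Finset.univ_inter, ew_sum,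
      div_le_iff₀ hrd]
    exact hD z
  calc ∑ y, |bw r Dm z y| ≤ ∑ y, (chi r Dm z y - ew r z y +
        2 * (if y ∈ Dm then ew r z y else 0)) := Finset.sum_le_sum fun y _ => h1 y
    _ = ∑ y, chi r Dm z y - ∑ y, ew r z y + 2 * ∑ y, (if y ∈ Dm then ew r z y else 0) := by
        rw [Finset.sum_add_distrib, Finset.sum_sub_distrib, Finset.mul_sum]
    _ ≤ 2 * η := by
        rw [ew_tot r hr hrL]
        linarith

theorem dva (g : Perm (Fin d → ZMod L))
    (A Dm : Finset (Fin d → ZMod L)) (r : ℕ) (η : ℝ) (hr : 1 ≤ r) (hrL : r ≤ L) (hA : Inv g A)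
    (hη : 0 ≤ η) (hD : ∀ v, ((Dm ∩ box v r).card : ℝ) ≤ η * (r : ℝ) ^ d) :
    Dv r g ≤ 3 * ∑ z, ∑ x ∈ univ \ A,
      ((∑ y ∈ cyc g x, phz r Dm z y) / ((cyc g x).card : ℝ)) ^ 2 + 24 * η ^ 2 +
      2 * A.card / (L : ℝ) ^ d := by
  have hL0 : (0 : ℝ) < (L : ℝ) ^ d := by
    have : (0 : ℝ) < L := by exact_mod_cast Nat.pos_of_ne_zero (NeZero.ne L)
    positivity
  have hcyc : ∀ x ∈ A, cyc g x ⊆ A := by
    intro x hx y hy
    exact inv_same g A hA x y hx ((mem_cyc g x y).1 hy)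
  obtain ⟨B, hB⟩ : ∃ B : (Fin d → ZMod L) → ℝ, B = fun y =>
    (∑ z : Fin d → ZMod L, bw r Dm z y) / (L : ℝ) ^ d := ⟨_, rfl⟩
  have hB1 : ∑ y, |B y| ≤ 2 * η := by
    have h1 : ∀ y, |B y| ≤ (∑ z : Fin d → ZMod L, |bw r Dm z y|) / (L : ℝ) ^ d := by
      intro y
      rw [hB]
      beta_reduce
      rw [abs_div, abs_of_pos hL0]
      exact div_le_div_of_nonneg_right (Finset.abs_sum_le_sum_abs _ _) hL0.le
    calc ∑ y, |B y| ≤ ∑ y, (∑ z : Fin d → ZMod L, |bw r Dm z y|) / (L : ℝ) ^ d :=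
          Finset.sum_le_sum fun y _ => h1 y
      _ = (∑ z : Fin d → ZMod L, ∑ y, |bw r Dm z y|) / (L : ℝ) ^ d := by
          rw [← Finset.sum_div, Finset.sum_comm]
      _ ≤ (∑ _z : Fin d → ZMod L, 2 * η) / (L : ℝ) ^ d :=
          div_le_div_of_nonneg_right (Finset.sum_le_sum fun z _ => bw_abs r hr hrL Dm η hD z) hL0.le
      _ = 2 * η := by
          rw [Finset.sum_const, nsmul_eq_mul, cardV]
          field_simp
  have hid : ∀ z y, ew r z y - 1 / (L : ℝ) ^ d = phz r Dm z y + bw r Dm z y - B y := by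
    intro z y
    rw [hB]
    unfold phz bw
    beta_reduce
    rw [Finset.sum_sub_distrib, ew_col r hr hrL]
    ring
  have hz : ∀ z, Dvz r g z ≤ ∑ y ∈ A, (ew r z y + 1 / (L : ℝ) ^ d) +
      (3 * (L : ℝ) ^ d * (∑ x ∈ univ \ A,
        ((∑ y ∈ cyc g x, phz r Dm z y) / ((cyc g x).card : ℝ)) ^ 2) + 24 * η ^ 2) := by
    intro z
    unfold Dvz
    rw [← Finset.sum_sdiff (Finset.subset_univ A), add_comm]
    refine add_le_add (dv_inv r hr hrL g A hcyc z) ?_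
    have h1 : ∀ x, ((((cyc g x) ∩ box z r).card : ℝ) / (r : ℝ) ^ d -
        ((cyc g x).card : ℝ) / (L : ℝ) ^ d) ^ 2 / ((cyc g x).card : ℝ) ≤
        3 * (L : ℝ) ^ d * ((∑ y ∈ cyc g x, phz r Dm z y) / ((cyc g x).card : ℝ)) ^ 2 +
        (3 * ((∑ y ∈ cyc g x, bw r Dm z y) ^ 2 / ((cyc g x).card : ℝ)) +
        3 * ((∑ y ∈ cyc g x, B y) ^ 2 / ((cyc g x).card : ℝ))) := by
      intro x
      have hc := cyc_card_pos g x
      rw [diff_eq]
      simp only [hid]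
      rw [Finset.sum_sub_distrib, Finset.sum_add_distrib]
      obtain ⟨p, hp⟩ : ∃ p : ℝ, p = ∑ y ∈ cyc g x, phz r Dm z y := ⟨_, rfl⟩
      obtain ⟨q, hq⟩ : ∃ q : ℝ, q = ∑ y ∈ cyc g x, bw r Dm z y := ⟨_, rfl⟩
      obtain ⟨s, hs⟩ : ∃ s : ℝ, s = ∑ y ∈ cyc g x, B y := ⟨_, rfl⟩
      obtain ⟨N, hN⟩ : ∃ N : ℝ, N = ((cyc g x).card : ℝ) := ⟨_, rfl⟩
      have hNL : N ≤ (L : ℝ) ^ d := by
        rw [hN, ← cardV]
        exact_mod_cast Finset.card_le_univ _
      rw [← hN] at hc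
      rw [← hp, ← hq, ← hs, ← hN]
      have h2 : (p + q - s) ^ 2 / N ≤ 3 * (p ^ 2 / N) + (3 * (q ^ 2 / N) + 3 * (s ^ 2 / N)) := by
        have h3 : (p + q - s) ^ 2 ≤ 3 * p ^ 2 + (3 * q ^ 2 + 3 * s ^ 2) := by
          nlinarith [sq_nonneg (p - q), sq_nonneg (p + s), sq_nonneg (q + s)]
        calc (p + q - s) ^ 2 / N ≤ (3 * p ^ 2 + (3 * q ^ 2 + 3 * s ^ 2)) / N :=
              div_le_div_of_nonneg_right h3 hc.le
          _ = _ := by ring
      refine h2.trans (add_le_add ?_ le_rfl)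
      have h4 : p ^ 2 / N = N * (p / N) ^ 2 := by
        field_simp
      rw [h4, mul_assoc]
      refine mul_le_mul_of_nonneg_left ?_ (by norm_num)
      exact mul_le_mul_of_nonneg_right hNL (sq_nonneg _)
    have h5 : ∀ b : (Fin d → ZMod L) → ℝ, ∑ y, |b y| ≤ 2 * η →
        ∑ x ∈ univ \ A, (∑ y ∈ cyc g x, b y) ^ 2 / ((cyc g x).card : ℝ) ≤ 4 * η ^ 2 := by
      intro b hb
      calc ∑ x ∈ univ \ A, (∑ y ∈ cyc g x, b y) ^ 2 / ((cyc g x).card : ℝ)
          ≤ ∑ x, (∑ y ∈ cyc g x, b y) ^ 2 / ((cyc g x).card : ℝ) :=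
            Finset.sum_le_sum_of_subset_of_nonneg (Finset.subset_univ _) fun x _ _ =>
              div_nonneg (sq_nonneg _) (Nat.cast_nonneg _)
        _ ≤ (∑ y, |b y|) ^ 2 := cyc_l1 g b
        _ ≤ (2 * η) ^ 2 := pow_le_pow_left₀ (Finset.sum_nonneg fun y _ => abs_nonneg _) hb 2
        _ = _ := by ring
    have h6 := h5 (bw r Dm z) (bw_abs r hr hrL Dm η hD z)
    have h7 := h5 B hB1
    calc _ ≤ ∑ x ∈ univ \ A, (3 * (L : ℝ) ^ d * ((∑ y ∈ cyc g x, phz r Dm z y) /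
          ((cyc g x).card : ℝ)) ^ 2 +
        (3 * ((∑ y ∈ cyc g x, bw r Dm z y) ^ 2 / ((cyc g x).card : ℝ)) +
        3 * ((∑ y ∈ cyc g x, B y) ^ 2 / ((cyc g x).card : ℝ)))) :=
          Finset.sum_le_sum fun x _ => h1 x
      _ = 3 * (L : ℝ) ^ d * (∑ x ∈ univ \ A, ((∑ y ∈ cyc g x, phz r Dm z y) /
          ((cyc g x).card : ℝ)) ^ 2) +
          (3 * (∑ x ∈ univ \ A, (∑ y ∈ cyc g x, bw r Dm z y) ^ 2 / ((cyc g x).card : ℝ)) +
          3 * (∑ x ∈ univ \ A, (∑ y ∈ cyc g x, B y) ^ 2 / ((cyc g x).card : ℝ))) := by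
          rw [Finset.sum_add_distrib, Finset.sum_add_distrib, Finset.mul_sum, Finset.mul_sum,
            Finset.mul_sum]
      _ ≤ _ := by linarith
  unfold Dv
  rw [div_le_iff₀ hL0]
  calc ∑ z, Dvz r g z ≤ ∑ z, (∑ y ∈ A, (ew r z y + 1 / (L : ℝ) ^ d) +
      (3 * (L : ℝ) ^ d * (∑ x ∈ univ \ A,
        ((∑ y ∈ cyc g x, phz r Dm z y) / ((cyc g x).card : ℝ)) ^ 2) + 24 * η ^ 2)) :=
        Finset.sum_le_sum fun z _ => hz z
    _ = 2 * A.card + (3 * (L : ℝ) ^ d * (∑ z, ∑ x ∈ univ \ A,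
        ((∑ y ∈ cyc g x, phz r Dm z y) / ((cyc g x).card : ℝ)) ^ 2) +
        24 * η ^ 2 * (L : ℝ) ^ d) := by
        rw [Finset.sum_add_distrib, Finset.sum_add_distrib, ← Finset.mul_sum, Finset.sum_comm]
        congr 1
        · have h8 : ∀ y ∈ A, ∑ z : Fin d → ZMod L, (ew r z y + 1 / (L : ℝ) ^ d) = 2 := by
            intro y _
            rw [Finset.sum_add_distrib, ew_col r hr hrL, Finset.sum_const, nsmul_eq_mul, cardV,
              mul_one_div, div_self hL0.ne']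
            norm_num
          rw [Finset.sum_congr rfl h8, Finset.sum_const, nsmul_eq_mul, mul_comm]
        · congr 1
          rw [Finset.sum_const, nsmul_eq_mul, cardV]
          ring
    _ = _ := by
        field_simp
        ring

end torus

end Pool.Agent.J6H44.PL
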