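import Pool.Agent.J6H44.PL.Two

/-! Any two points are in the same cycle with probability about one half. -/

set_option autoImplicit false
set_option linter.unusedSectionVars false
set_option linter.unusedVariables false
set_option maxHeartbeats 1600000

namespace Pool.Agent.J6H44.PL

open Finset Equiv Q292.LC
open Pool.Agent.Y998.ST (stirExp nnRate stirLaw nn_nonneg nn_symm nn_diag qq qq_nonneg qq_row)
open Pool.Agent.R134.PB (con AA)
open Pool.Agent.Y661.PD (tdist)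

theorem box_dist {d L : ℕ} [NeZero L] (z : Fin d → ZMod L) (r : ℕ) {x y : Fin d → ZMod L}
    (hx : x ∈ box z r) (hy : y ∈ box z r) : tdist x y ≤ 2 * (d * r) := by
  have h1 := (Pool.Agent.Q257.LC.mem_bal z (d * r) x).1 (Pool.Agent.Q257.LC.box_sub z r hx)
  have h2 := (Pool.Agent.Q257.LC.mem_bal z (d * r) y).1 (Pool.Agent.Q257.LC.box_sub z r hy)
  have h4 := Pool.Agent.Q257.LC.td_tri x z y
  rw [Pool.Agent.Q257.LC.td_comm x z] at h4
  have h5 : tdist x y = td x y := rfl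
  omega

theorem QQ_mid (d : ℕ) (hd : 3 ≤ d) : ∃ a : ℕ, 1 ≤ a ∧ ∀ η : ℝ, 0 < η → ∃ L₀ : ℕ,
    ∀ (L : ℕ) [NeZero L], L₀ ≤ L → ∀ t : ℝ, (Real.log L) ^ a ≤ t → t ^ 2 ≤ (L : ℝ) ^ 3 →
    3 ≤ L ∧ 2 ≤ Real.log L ∧ 1 / 2 - η ≤ QQ d L t := by
  obtain ⟨a, h₀, ha, hh₀, hdv⟩ := dv_mid d hd
  obtain ⟨C1, hC1, hTP⟩ := Pool.Agent.R134.PB.All.lip_tp.2 d (by omega)
  refine ⟨a, ha, ?_⟩
  intro η hη
  obtain ⟨h, hh⟩ : ∃ h : ℕ, h = max h₀ ⌈4 * C1 * d / η⌉₊ := ⟨_, rfl⟩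
  have hhη : 4 * C1 * d / η ≤ h := by
    refine (Nat.le_ceil _).trans ?_
    rw [hh]
    exact_mod_cast le_max_right _ _
  have hh1 : 1 ≤ h := by rw [hh]; exact hh₀.trans (le_max_left _ _)
  have hh0 : (0 : ℝ) < h := by exact_mod_cast hh1
  obtain ⟨L₁, hL₁⟩ := hdv h (by rw [hh]; exact le_max_left _ _) (η / 2) (by positivity)
  refine ⟨L₁, ?_⟩
  intro L _ hL t ht htL
  obtain ⟨b1, b2, b3, b4, b5, b6, b7⟩ := hL₁ L hL t ht htL
  obtain ⟨r, hr⟩ : ∃ r : ℕ, r = Nat.sqrt ⌊t⌋₊ / h := ⟨_, rfl⟩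
  rw [← hr] at b3 b4 b6 b7
  refine ⟨b1, b2, ?_⟩
  have ht0 : 0 < t := lt_of_lt_of_le (by positivity) ht
  have hst : 0 < Real.sqrt t := Real.sqrt_pos.2 ht0
  have hKt : ((⌊t⌋₊ : ℕ) : ℝ) ≤ t := Nat.floor_le ht0.le
  have hrt : (r : ℝ) * h ≤ Real.sqrt t := by
    have h1 : r * h ≤ Nat.sqrt ⌊t⌋₊ := by rw [hr]; exact Nat.div_mul_le_self _ _
    have h2 : ((Nat.sqrt ⌊t⌋₊ : ℕ) : ℝ) ≤ Real.sqrt ⌊t⌋₊ := Real.nat_sqrt_le_real_sqrt
    calc (r : ℝ) * h ≤ Nat.sqrt ⌊t⌋₊ := by exact_mod_cast h1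
      _ ≤ Real.sqrt ⌊t⌋₊ := h2
      _ ≤ Real.sqrt t := Real.sqrt_le_sqrt hKt
  have hL0 : (0 : ℝ) < L := by
    have : 0 < L := by omega
    exact_mod_cast this
  have hLd : (0 : ℝ) < (L : ℝ) ^ d := by positivity
  have hrL : r ≤ L := by omega
  rw [Dv_exp t r b3 hrL] at b7
  have hcon : ∀ z x y : Fin d → ZMod L, x ∈ box z r → y ∈ box z r →
      1 / 2 - η / 2 ≤ con (nnRate d L) t x y := by
    intro z x y hx hy
    by_cases hxy : x = y
    · subst hxy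
      rw [Pool.Agent.R134.PB.Sta.con_self]
      linarith
    · have h1 := (abs_le.1 (hTP L b1 t ht0 x y hxy)).1
      have h2 : C1 * (tdist x y : ℝ) / Real.sqrt t ≤ η / 2 := by
        rw [div_le_iff₀ hst]
        have h3 : (tdist x y : ℝ) ≤ 2 * (d * r) := by exact_mod_cast box_dist z r hx hy
        have h4 : 4 * C1 * d ≤ η * h := by
          rw [div_le_iff₀ hη] at hhη
          linarith
        calc C1 * (tdist x y : ℝ) ≤ C1 * (2 * (d * r)) := mul_le_mul_of_nonneg_left h3 hC1.le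
          _ = (4 * C1 * d) * r / 2 := by ring
          _ ≤ (η * h) * r / 2 := by
              have := mul_le_mul_of_nonneg_right h4 (Nat.cast_nonneg (α := ℝ) r)
              linarith
          _ = η / 2 * (r * h) := by ring
          _ ≤ η / 2 * Real.sqrt t := mul_le_mul_of_nonneg_left hrt (by positivity)
      linarith
  have hmean : 1 / 2 - η / 2 ≤ (∑ z : Fin d → ZMod L, ∑ x, ∑ y,
      ew r z x * ew r z y * con (nnRate d L) t x y) / (L : ℝ) ^ d := by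
    rw [le_div_iff₀ hLd]
    calc (1 / 2 - η / 2) * (L : ℝ) ^ d = ∑ _z : Fin d → ZMod L, (1 / 2 - η / 2) := by
          rw [Finset.sum_const, nsmul_eq_mul, cardV, mul_comm]
      _ ≤ _ := by
          refine Finset.sum_le_sum fun z _ => ?_
          have e1 : (1 / 2 - η / 2 : ℝ) = ∑ x, ∑ y, ew r z x * ew r z y * (1 / 2 - η / 2) := by
            have : ∑ x : Fin d → ZMod L, ∑ y, ew r z x * ew r z y * (1 / 2 - η / 2) =
                (∑ x, ew r z x) * (∑ y, ew r z y) * (1 / 2 - η / 2) := by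
              rw [Finset.sum_mul_sum, Finset.sum_mul]
              exact Finset.sum_congr rfl fun x _ => by rw [Finset.sum_mul]
            rw [this, ew_tot r b3 hrL]
            ring
          rw [e1]
          refine Finset.sum_le_sum fun x _ => Finset.sum_le_sum fun y _ => ?_
          by_cases hx : x ∈ box z r
          · by_cases hy : y ∈ box z r
            · exact mul_le_mul_of_nonneg_left (hcon z x y hx hy)
                (mul_nonneg (ew_nonneg r z x) (ew_nonneg r z y))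
            · have : ew r z y = 0 := by unfold ew; rw [if_neg hy]
              rw [this]
              simp
          · have : ew r z x = 0 := by unfold ew; rw [if_neg hx]
            rw [this]
            simp
  linarith

theorem two_mid (d : ℕ) (hd : 3 ≤ d) : ∃ a : ℕ, 1 ≤ a ∧ ∀ η : ℝ, 0 < η → ∃ L₀ : ℕ,
    ∀ (L : ℕ) [NeZero L], L₀ ≤ L → ∀ t : ℝ, (Real.log L) ^ a ≤ t → t ^ 2 ≤ (L : ℝ) ^ 3 →
    ∀ x y : Fin d → ZMod L, x ≠ y → |con (nnRate d L) t x y - 1 / 2| ≤ η := by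
  obtain ⟨a, ha, hQQ⟩ := QQ_mid d hd
  obtain ⟨C2, hC2, haa⟩ := Pool.Agent.R134.PB.Twopt.aa_up Pool.Agent.R134.PB.All.lip_tp.2
    Pool.Agent.R134.PB.MomGeo.main.1 d (by omega)
  obtain ⟨C3, hC3, hpt⟩ := Pool.Agent.R134.PB.All.pt d (by omega)
  refine ⟨a, ha, ?_⟩
  intro η hη
  obtain ⟨e, he⟩ : ∃ e : ℝ, e = min (η / 16) 1 := ⟨_, rfl⟩
  have he0 : 0 < e := by rw [he]; exact lt_min (by positivity) one_pos
  have he1 : e ≤ 1 := by rw [he]; exact min_le_right _ _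
  have heη : 16 * e ≤ η := by
    have : e ≤ η / 16 := by rw [he]; exact min_le_left _ _
    linarith
  have hd1 : (3 : ℝ) ≤ d := by exact_mod_cast hd
  obtain ⟨Λ, hΛ⟩ : ∃ Λ : ℝ, Λ = 1 + C3 * (d : ℝ) ^ 2 / e := ⟨_, rfl⟩
  have hΛ1 : 1 ≤ Λ := by
    rw [hΛ]
    have : 0 ≤ C3 * (d : ℝ) ^ 2 / e := by positivity
    linarith
  obtain ⟨δ, hδ⟩ : ∃ δ : ℝ, δ = min 1 (e / (C2 + C3)) := ⟨_, rfl⟩
  have hδ0 : 0 < δ := by rw [hδ]; exact lt_min one_pos (by positivity)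
  have hδ1 : δ ≤ 1 := by rw [hδ]; exact min_le_left _ _
  have hδC : (C2 + C3) * δ ≤ e := by
    have : δ ≤ e / (C2 + C3) := by rw [hδ]; exact min_le_right _ _
    rw [le_div_iff₀ (by positivity)] at this
    linarith
  obtain ⟨L₁, hL₁⟩ := hQQ e he0
  refine ⟨max L₁ (max ⌈2 / e⌉₊ ⌈Real.exp ((2 / (δ * e)) ^ 2)⌉₊), ?_⟩
  intro L _ hL t ht htL x y hxy
  obtain ⟨b1, b2, b3⟩ := hL₁ L ((le_max_left _ _).trans hL) t ht htL
  have hL0 : (0 : ℝ) < L := by
    have : 0 < L := by omega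
    exact_mod_cast this
  have hL1 : (1 : ℝ) ≤ L := by
    have : 1 ≤ L := by omega
    exact_mod_cast this
  have hLe : 2 / e ≤ L := by
    refine (Nat.le_ceil _).trans ?_
    exact_mod_cast ((le_max_left _ _).trans (le_max_right _ _)).trans hL
  have hLx : Real.exp ((2 / (δ * e)) ^ 2) ≤ L := by
    refine (Nat.le_ceil _).trans ?_
    exact_mod_cast ((le_max_right _ _).trans (le_max_right _ _)).trans hL
  have hlog : (2 / (δ * e)) ^ 2 ≤ Real.log L := by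
    rw [Real.le_log_iff_exp_le hL0]
    exact hLx
  have hlt : Real.log L ≤ t := (le_self_pow₀ (by linarith) (by omega)).trans ht
  have ht0 : 0 < t := by linarith
  have hst : 0 < Real.sqrt t := Real.sqrt_pos.2 ht0
  have htL2 : t ≤ (L : ℝ) ^ 2 := by
    have h1 : t ^ 2 ≤ ((L : ℝ) ^ 2) ^ 2 := by
      refine htL.trans ?_
      rw [← pow_mul]
      exact pow_le_pow_right₀ hL1 (by norm_num)
    exact le_of_pow_le_pow_left₀ (by norm_num) (by positivity) h1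
  obtain ⟨s0, hs0⟩ : ∃ s0 : ℝ, s0 = δ ^ 2 * t := ⟨_, rfl⟩
  obtain ⟨s, hs⟩ : ∃ s : ℝ, s = Λ * (L : ℝ) ^ 2 := ⟨_, rfl⟩
  have hs00 : 0 < s0 := by rw [hs0]; positivity
  have hss : s0 ≤ s := by
    rw [hs0, hs]
    have h1 : δ ^ 2 ≤ 1 := pow_le_one₀ hδ0.le hδ1
    calc δ ^ 2 * t ≤ 1 * t := mul_le_mul_of_nonneg_right h1 ht0.le
      _ ≤ 1 * (L : ℝ) ^ 2 := by linarith
      _ ≤ Λ * (L : ℝ) ^ 2 := mul_le_mul_of_nonneg_right hΛ1 (by positivity)
  have hsq0 : Real.sqrt s0 = δ * Real.sqrt t := by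
    rw [hs0, Real.sqrt_mul (by positivity), Real.sqrt_sq hδ0.le]
  have hratio : Real.sqrt s0 / Real.sqrt t = δ := by
    rw [hsq0]
    field_simp
  have hup := haa L b1 t s0 ht0 hs00
  obtain ⟨hlow, hupp⟩ := hpt L b1 t s0 s ht0 hs00 hss x y hxy
  rw [hratio] at hup hlow hupp
  obtain ⟨S, hS⟩ : ∃ S : ℝ, S = (1 / (L : ℝ) + 1 / Real.sqrt s0) ^ d := ⟨_, rfl⟩
  rw [← hS] at hup hlow
  have hS1 : S ≤ e := by
    have h1 : 1 / (L : ℝ) ≤ e / 2 := by
      rw [div_le_div_iff₀ hL0 (by norm_num)]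
      rw [div_le_iff₀ he0] at hLe
      linarith
    have h2 : 1 / Real.sqrt s0 ≤ e / 2 := by
      have h3 : 2 / (δ * e) ≤ Real.sqrt t := Real.le_sqrt_of_sq_le (hlog.trans hlt)
      rw [hsq0, div_le_div_iff₀ (by positivity) (by norm_num)]
      rw [div_le_iff₀ (by positivity)] at h3
      linarith
    have h0 : 0 ≤ 1 / (L : ℝ) + 1 / Real.sqrt s0 := by positivity
    calc S = (1 / (L : ℝ) + 1 / Real.sqrt s0) ^ d := hS
      _ ≤ e ^ d := pow_le_pow_left₀ h0 (by linarith) d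
      _ ≤ e ^ 1 := pow_le_pow_of_le_one he0.le he1 (by omega)
      _ = e := pow_one e
  have hS0 : 0 ≤ S := by rw [hS]; positivity
  have hne : Nonempty (Fin d → ZMod L) := ⟨x⟩
  have hAA : ∀ s' : ℝ, 1 / 2 - e ≤ AA (nnRate d L) t s' := by
    intro s'
    have h1 := AA_low (J := nnRate d L) (fun x y => nn_nonneg x y) (fun x y => nn_symm x y)
      (fun x => nn_diag b1 x) ht0.le s'
    have h2 : QQ d L t = (∑ x : Fin d → ZMod L, ∑ y : Fin d → ZMod L, con (nnRate d L) t x y) /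
        (Fintype.card (Fin d → ZMod L) : ℝ) ^ 2 := by
      unfold QQ
      rw [Fintype.card_fun, ZMod.card, Fintype.card_fin, Nat.cast_pow]
    rw [← h2] at h1
    linarith
  have hA0 := hAA s0
  have hAs := hAA s
  have hdist : C3 * ((tdist x y : ℝ) ^ 2 / s) ≤ e := by
    have h1 : (tdist x y : ℝ) ≤ d * L := by
      exact_mod_cast (Pool.Agent.R134.PB.All.geo d L).2.2.2.1 x y
    have h2 : (tdist x y : ℝ) ^ 2 ≤ (d * L : ℝ) ^ 2 := pow_le_pow_left₀ (Nat.cast_nonneg _) h1 2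
    have hs1 : 0 < s := by rw [hs]; positivity
    have h3 : C3 * (d : ℝ) ^ 2 ≤ e * Λ := by
      rw [hΛ]
      have : e * (1 + C3 * (d : ℝ) ^ 2 / e) = e + C3 * (d : ℝ) ^ 2 := by field_simp
      linarith
    rw [← mul_div_assoc, div_le_iff₀ hs1, hs]
    calc C3 * (tdist x y : ℝ) ^ 2 ≤ C3 * (d * L : ℝ) ^ 2 := mul_le_mul_of_nonneg_left h2 hC3.le
      _ = (C3 * (d : ℝ) ^ 2) * (L : ℝ) ^ 2 := by ring
      _ ≤ (e * Λ) * (L : ℝ) ^ 2 := mul_le_mul_of_nonneg_right h3 (by positivity)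
      _ = _ := by ring
  have hc2 : C2 * δ ≤ e := by nlinarith
  have hc3 : C3 * δ ≤ e := by nlinarith
  rw [abs_le]
  constructor <;> linarith

/-- any two points, at all times from a power of `log L` on -/
theorem two_all (d : ℕ) (hd : 3 ≤ d) : ∃ a : ℕ, 1 ≤ a ∧ ∀ η : ℝ, 0 < η → ∃ L₀ : ℕ,
    ∀ (L : ℕ) [NeZero L], L₀ ≤ L → ∀ t : ℝ, (Real.log L) ^ a ≤ t →
    ∀ x y : Fin d → ZMod L, x ≠ y → |con (nnRate d L) t x y - 1 / 2| ≤ η := by
  obtain ⟨a, ha, hmid⟩ := two_mid d hd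
  refine ⟨a, ha, ?_⟩
  intro η hη
  obtain ⟨L₁, hL₁⟩ := hmid η hη
  obtain ⟨T, hT, htw⟩ := Pool.Agent.R134.PB.All.twopt d hd (1 / 24) η (by norm_num) hη
  refine ⟨max L₁ (max 3 (max ⌈T⌉₊ (d ^ 16))), ?_⟩
  intro L _ hL t ht x y hxy
  rcases le_or_gt (t ^ 2) ((L : ℝ) ^ 3) with h | h
  · exact hL₁ L ((le_max_left _ _).trans hL) t ht h x y hxy
  · have hL' := (le_max_right _ _).trans hL
    have hL3 : 3 ≤ L := (le_max_left _ _).trans hL'
    have hL'' := (le_max_right _ _).trans hL'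
    have hLT : T ≤ L := (Nat.le_ceil _).trans (by exact_mod_cast (le_max_left _ _).trans hL'')
    have hLd : ((d ^ 16 : ℕ) : ℝ) ≤ L := by exact_mod_cast (le_max_right _ _).trans hL''
    have hL1 : (1 : ℝ) ≤ L := by
      have : 1 ≤ L := by omega
      exact_mod_cast this
    have hlog : 0 ≤ Real.log L := Real.log_nonneg hL1
    have ht0 : 0 ≤ t := (pow_nonneg hlog a).trans ht
    have hL0 : (0 : ℝ) < L := by linarith
    have htL : (L : ℝ) ^ ((3 : ℝ) / 2) ≤ t := by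
      have h1 : ((L : ℝ) ^ ((3 : ℝ) / 2)) ^ 2 ≤ t ^ 2 := by
        rw [← Real.rpow_natCast, ← Real.rpow_mul hL0.le]
        have : (3 : ℝ) / 2 * (2 : ℕ) = (3 : ℕ) := by norm_num
        rw [this, Real.rpow_natCast]
        exact h.le
      exact le_of_pow_le_pow_left₀ (by norm_num) ht0 h1
    have hd1 : (3 : ℝ) ≤ d := by exact_mod_cast hd
    have htL1 : (L : ℝ) ≤ t := by
      refine le_trans ?_ htL
      calc (L : ℝ) = (L : ℝ) ^ (1 : ℝ) := (Real.rpow_one _).symm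
        _ ≤ (L : ℝ) ^ ((3 : ℝ) / 2) := Real.rpow_le_rpow_of_exponent_le hL1 (by norm_num)
    have ht1 : 1 ≤ t := hL1.trans htL1
    refine htw t (hLT.trans htL1) L hL3 x y hxy ?_
    have h1 : (tdist x y : ℝ) ≤ d * L := by
      exact_mod_cast (Pool.Agent.R134.PB.All.geo d L).2.2.2.1 x y
    have h2 : (d : ℝ) ≤ (L : ℝ) ^ ((1 : ℝ) / 16) := by
      have h3 : ((d : ℝ) ^ 16) ^ ((1 : ℝ) / 16) ≤ (L : ℝ) ^ ((1 : ℝ) / 16) := by
        refine Real.rpow_le_rpow (by positivity) ?_ (by norm_num)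
        exact_mod_cast hLd
      refine le_trans (le_of_eq ?_) h3
      rw [← Real.rpow_natCast, ← Real.rpow_mul (by positivity)]
      norm_num
    calc (tdist x y : ℝ) ≤ d * L := h1
      _ ≤ (L : ℝ) ^ ((1 : ℝ) / 16) * L := mul_le_mul_of_nonneg_right h2 hL0.le
      _ = (L : ℝ) ^ ((17 : ℝ) / 16) := by
          nth_rewrite 2 [← Real.rpow_one (L : ℝ)]
          rw [← Real.rpow_add hL0]
          norm_num
      _ = ((L : ℝ) ^ ((3 : ℝ) / 2)) ^ ((17 : ℝ) / 24) := by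
          rw [← Real.rpow_mul hL0.le]
          norm_num
      _ ≤ t ^ ((17 : ℝ) / 24) := Real.rpow_le_rpow (by positivity) htL (by norm_num)
      _ ≤ t ^ ((d : ℝ) / 4 - 1 / 24) := Real.rpow_le_rpow_of_exponent_le ht1 (by linarith)

end Pool.Agent.J6H44.PL
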