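import Pool.Agent.Q297.LC.Par

/-! Project LC: the parameters for the comparison of boxes and torus. -/

set_option autoImplicit false
set_option linter.unusedSectionVars false
set_option linter.unusedVariables false

namespace Pool.Agent.J6H44.PL

open Pool.Agent.Q297.LC (exists_root pow_exp)

theorem grow (C₂ a : ℕ) (D : ℝ) : ∃ L₀ : ℕ, 3 ≤ L₀ ∧ ∀ L K : ℕ, L₀ ≤ L →
    (Real.log L) ^ (8 * (a + 1)) ≤ K → ∃ y : ℝ, 1 ≤ y ∧ (K : ℝ) = y ^ 8 ∧ 1 ≤ Real.log L ∧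
      D * ((⌈(C₂ : ℝ) * Real.log L⌉₊ : ℕ) : ℝ) ^ a ≤ y := by
  obtain ⟨M, hM⟩ : ∃ M : ℝ, M = max 1 (|D| * ((C₂ : ℝ) + 1) ^ a) := ⟨_, rfl⟩
  refine ⟨⌈Real.exp M⌉₊ + 3, by omega, ?_⟩
  intro L K hL hK
  obtain ⟨ℓ, hℓ⟩ : ∃ ℓ : ℝ, ℓ = Real.log L := ⟨_, rfl⟩
  have hLr : Real.exp M ≤ L := by
    have h1 : Real.exp M ≤ ⌈Real.exp M⌉₊ := Nat.le_ceil _
    have h2 : ((⌈Real.exp M⌉₊ + 3 : ℕ) : ℝ) ≤ L := by exact_mod_cast hL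
    push_cast at h2
    linarith
  have hL0 : (0 : ℝ) < L := lt_of_lt_of_le (Real.exp_pos _) hLr
  have hMℓ : M ≤ ℓ := by
    rw [hℓ, Real.le_log_iff_exp_le hL0]
    exact hLr
  have h1ℓ : 1 ≤ ℓ := (by rw [hM]; exact le_max_left _ _ : (1 : ℝ) ≤ M).trans hMℓ
  have hDℓ : |D| * ((C₂ : ℝ) + 1) ^ a ≤ ℓ :=
    (by rw [hM]; exact le_max_right _ _ : |D| * ((C₂ : ℝ) + 1) ^ a ≤ M).trans hMℓ
  obtain ⟨y, hy⟩ : ∃ y : ℝ, y = (K : ℝ) ^ (((8 : ℕ) : ℝ)⁻¹) := ⟨_, rfl⟩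
  have hy0 : 0 ≤ y := by rw [hy]; positivity
  have hy8 : (K : ℝ) = y ^ 8 := by
    rw [hy, Real.rpow_inv_natCast_pow (Nat.cast_nonneg K) (by norm_num)]
  have hyℓ : ℓ ^ (a + 1) ≤ y := by
    rw [← hℓ, hy8, mul_comm 8 (a + 1), pow_mul] at hK
    exact le_of_pow_le_pow_left₀ (by norm_num) hy0 hK
  have hy1 : 1 ≤ y := (one_le_pow₀ h1ℓ).trans hyℓ
  refine ⟨y, hy1, hy8, by rw [← hℓ]; exact h1ℓ, ?_⟩
  rw [← hℓ]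
  have hZ : ((⌈(C₂ : ℝ) * ℓ⌉₊ : ℕ) : ℝ) ≤ ((C₂ : ℝ) + 1) * ℓ := by
    have h1 := (Nat.ceil_lt_add_one (show 0 ≤ (C₂ : ℝ) * ℓ by positivity)).le
    linarith
  calc D * ((⌈(C₂ : ℝ) * ℓ⌉₊ : ℕ) : ℝ) ^ a ≤ |D| * (((C₂ : ℝ) + 1) * ℓ) ^ a := by
        refine mul_le_mul (le_abs_self D) (pow_le_pow_left₀ (Nat.cast_nonneg _) hZ a)
          (by positivity) (abs_nonneg _)
    _ = (|D| * ((C₂ : ℝ) + 1) ^ a) * ℓ ^ a := by rw [mul_pow]; ring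
    _ ≤ ℓ * ℓ ^ a := mul_le_mul_of_nonneg_right hDℓ (by positivity)
    _ = ℓ ^ (a + 1) := by ring
    _ ≤ y := hyℓ

theorem params (d : ℕ) (hd : 3 ≤ d) (C₁ m₁ CA : ℕ) (hC₁ : 1 ≤ C₁) (h : ℕ) (hh : 1 ≤ h)
    (η' η : ℝ) (hη' : 0 < η') (hη : 0 < η) :
    ∃ L₀ : ℕ, ∀ L K : ℕ, L₀ ≤ L → (Real.log L) ^ (8 * (d * m₁ + d + 3)) ≤ K → K ^ 2 ≤ L ^ 3 →
    ∃ (Z r₁ : ℕ) (y : ℝ), (1 ≤ y ∧ (K : ℝ) = y ^ 8 ∧ 3 ≤ L ∧ C₁ ≤ Z ∧ 1 ≤ Z ∧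
      100 * d * C₁ * Real.log L ≤ Z ∧ (L : ℝ) ^ d ≤ Real.exp Z) ∧
      (Z ^ m₁ ≤ r₁ ∧ 8 * Z ^ m₁ ≤ L ∧ Z ^ m₁ ≤ K ∧ K ≤ L ^ d ∧ K ≤ L ^ 2 ∧ d ≤ r₁) ∧
      (K ^ 9 ≤ (2 * r₁) ^ (8 * d) ∧ r₁ ^ 2 ≤ K * Z ^ 2 ∧
      ((CA : ℝ) * (Z : ℝ) ^ (d + 2) * (h : ℝ) ^ d / η') ^ 8 ≤ K ∧ y ^ 10 ≤ (L : ℝ) ^ d / 2 ∧
      (Z + 1) * (2 * r₁ + 1) ^ d ≤ L ^ d) ∧
      (((2 * r₁ + 1 : ℕ) : ℝ) ^ d * ((Z + 2) * (2 * C₁ / y ^ 10)) ≤ Real.exp (-1) ∧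
      ((Z : ℝ) + 2) * (2 * C₁ / y ^ 10) ≤ 1 ∧
      24 * (CA * (2 * h) ^ (2 * d)) ≤ η * y ∧ 32 * C₁ ≤ η * y ∧ 16 * (5 * C₁ + 1) ≤ η * y) := by
  obtain ⟨D, hD⟩ : ∃ D : ℝ, D = (2 * ((d : ℝ) + 1)) ^ d + 18 * 3 ^ d * C₁ + 8 +
    CA * (h : ℝ) ^ d / η' + (24 * (CA * (2 * (h : ℝ)) ^ (2 * d)) + 32 * C₁ +
      16 * (5 * C₁ + 1)) / η := ⟨_, rfl⟩
  obtain ⟨L₀, hL₀3, hgrow⟩ := grow (100 * d * C₁) (d * m₁ + d + 2) D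
  refine ⟨L₀, ?_⟩
  intro L K hL hK hKL
  obtain ⟨y, hy1, hy8, hℓ1, hDy⟩ := hgrow L K hL hK
  obtain ⟨Z, hZ⟩ : ∃ Z : ℕ, Z = ⌈((100 * d * C₁ : ℕ) : ℝ) * Real.log L⌉₊ := ⟨_, rfl⟩
  rw [← hZ] at hDy
  have hL3 : 3 ≤ L := hL₀3.trans hL
  have hL0 : (0 : ℝ) < L := by
    have : 0 < L := by omega
    exact_mod_cast this
  have hd' : (3 : ℝ) ≤ d := by exact_mod_cast hd
  have hC₁' : (1 : ℝ) ≤ C₁ := by exact_mod_cast hC₁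
  have hh' : (1 : ℝ) ≤ h := by exact_mod_cast hh
  have hZℓ : 100 * d * C₁ * Real.log L ≤ Z := by
    rw [hZ]
    refine le_trans (le_of_eq ?_) (Nat.le_ceil _)
    push_cast
    ring
  have hdC : (d : ℝ) * 1 ≤ d * C₁ := by gcongr
  have hZbig : (300 : ℝ) * C₁ ≤ Z := by
    have h1 : 100 * (d : ℝ) * C₁ * 1 ≤ 100 * d * C₁ * Real.log L := by gcongr
    nlinarith
  have hZC : C₁ ≤ Z := by
    have : (C₁ : ℝ) ≤ Z := by linarith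
    exact_mod_cast this
  have hZ1 : 1 ≤ Z := hC₁.trans hZC
  have hZ1' : (1 : ℝ) ≤ Z := by exact_mod_cast hZ1
  have hy0 : 0 < y := by linarith
  -- general consequence
  obtain ⟨a, ha⟩ : ∃ a : ℕ, a = d * m₁ + d + 2 := ⟨_, rfl⟩
  rw [← ha] at hDy
  have gen : ∀ (c : ℝ) (b : ℕ), c ≤ D → b ≤ a → c * (Z : ℝ) ^ b ≤ y := by
    intro c b hc hb
    have hD0 : 0 ≤ D := by
      rw [hD]
      positivity
    calc c * (Z : ℝ) ^ b ≤ D * (Z : ℝ) ^ b := mul_le_mul_of_nonneg_right hc (by positivity)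
      _ ≤ D * (Z : ℝ) ^ a := mul_le_mul_of_nonneg_left (pow_le_pow_right₀ hZ1' hb) hD0
      _ ≤ y := hDy
  have n1 : 0 ≤ (2 * ((d : ℝ) + 1)) ^ d := by positivity
  have n2 : 0 ≤ 18 * (3 : ℝ) ^ d * C₁ := by positivity
  have n3 : 0 ≤ CA * (h : ℝ) ^ d / η' := by positivity
  have n4 : 0 ≤ (24 * (CA * (2 * (h : ℝ)) ^ (2 * d)) + 32 * C₁ + 16 * (5 * C₁ + 1)) / η := by
    positivity
  have g1 := gen ((2 * ((d : ℝ) + 1)) ^ d) (d * m₁) (by rw [hD]; linarith) (by omega)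
  have g2 := gen (18 * 3 ^ d * C₁) 1 (by rw [hD]; linarith) (by omega)
  have hm₁ : m₁ ≤ d * m₁ := Nat.le_mul_of_pos_left _ (by omega)
  have g3 := gen 8 m₁ (by rw [hD]; linarith) (by omega)
  have g4 := gen (CA * (h : ℝ) ^ d / η') (d + 2) (by rw [hD]; linarith) (by omega)
  have g5 := gen ((24 * (CA * (2 * (h : ℝ)) ^ (2 * d)) + 32 * C₁ + 16 * (5 * C₁ + 1)) / η) 0
    (by rw [hD]; linarith) (by omega)
  rw [pow_zero, mul_one, div_le_iff₀ hη] at g5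
  rw [pow_one] at g2
  -- the radius
  obtain ⟨N, hN⟩ : ∃ N : ℕ, N = ⌊y ^ 9⌋₊ := ⟨_, rfl⟩
  have hN1 : (N : ℝ) ≤ y ^ 9 := by rw [hN]; exact Nat.floor_le (by positivity)
  have hN2 : y ^ 9 < N + 1 := by rw [hN]; exact Nat.lt_floor_add_one _
  obtain ⟨r₁, hr1, hr2⟩ := exists_root d N (by omega)
  have hr1' : (r₁ : ℝ) ^ d ≤ y ^ 9 := le_trans (by exact_mod_cast hr1) hN1
  have hr2' : y ^ 9 < ((r₁ : ℝ) + 1) ^ d := by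
    have : (N : ℝ) + 1 ≤ ((r₁ : ℝ) + 1) ^ d := by exact_mod_cast hr2
    linarith
  have hyy9 : y ≤ y ^ 9 := le_self_pow₀ hy1 (by norm_num)
  have hW : d + Z ^ m₁ ≤ r₁ := by
    have hZm : (1 : ℝ) ≤ (Z : ℝ) ^ m₁ := one_le_pow₀ hZ1'
    have h1 : ((d + Z ^ m₁ : ℕ) : ℝ) + 1 ≤ (2 * ((d : ℝ) + 1)) * (Z : ℝ) ^ m₁ := by
      push_cast
      nlinarith
    have h2 : (((d + Z ^ m₁ : ℕ) : ℝ) + 1) ^ d ≤ (2 * ((d : ℝ) + 1)) ^ d * (Z : ℝ) ^ (d * m₁) := by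
      calc (((d + Z ^ m₁ : ℕ) : ℝ) + 1) ^ d ≤ ((2 * ((d : ℝ) + 1)) * (Z : ℝ) ^ m₁) ^ d :=
            pow_le_pow_left₀ (by positivity) h1 d
        _ = _ := by rw [mul_pow, ← pow_mul, mul_comm m₁ d]
    have h3 : (((d + Z ^ m₁ : ℕ) : ℝ) + 1) ^ d < ((r₁ : ℝ) + 1) ^ d := by linarith
    have h4 := lt_of_pow_lt_pow_left₀ d (by positivity) h3
    have h5 : ((d + Z ^ m₁ : ℕ) : ℝ) ≤ r₁ := by linarith
    exact_mod_cast h5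
  have hZm0 : 1 ≤ Z ^ m₁ := Nat.one_le_pow _ _ hZ1
  have hr1pos : 1 ≤ r₁ := by omega
  have hr1pos' : (1 : ℝ) ≤ r₁ := by exact_mod_cast hr1pos
  have hbig : y ^ 9 ≤ (2 * (r₁ : ℝ)) ^ d :=
    hr2'.le.trans (pow_le_pow_left₀ (by positivity) (by linarith) d)
  have hr3 : (r₁ : ℝ) ≤ y ^ 3 := by
    have h1 : (r₁ : ℝ) ^ 3 ≤ (y ^ 3) ^ 3 := by
      calc (r₁ : ℝ) ^ 3 ≤ (r₁ : ℝ) ^ d := pow_le_pow_right₀ hr1pos' hd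
        _ ≤ y ^ 9 := hr1'
        _ = _ := by ring
    exact le_of_pow_le_pow_left₀ (by norm_num) (by positivity) h1
  have h2r : ((2 * r₁ + 1 : ℕ) : ℝ) ^ d ≤ 3 ^ d * y ^ 9 := by
    calc ((2 * r₁ + 1 : ℕ) : ℝ) ^ d ≤ (3 * (r₁ : ℝ)) ^ d := by
          refine pow_le_pow_left₀ (by positivity) ?_ d
          push_cast
          linarith
      _ = 3 ^ d * (r₁ : ℝ) ^ d := mul_pow _ _ _
      _ ≤ _ := mul_le_mul_of_nonneg_left hr1' (by positivity)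
  -- K and L
  have hy16 : y ^ 16 ≤ (L : ℝ) ^ 3 := by
    have h1 : (K : ℝ) ^ 2 ≤ (L : ℝ) ^ 3 := by exact_mod_cast hKL
    rw [hy8] at h1
    calc y ^ 16 = (y ^ 8) ^ 2 := by ring
      _ ≤ _ := h1
  have hL3' : (3 : ℝ) ≤ L := by exact_mod_cast hL3
  have hy10 : y ^ 10 ≤ (L : ℝ) ^ 3 / 2 := by
    have h1 : (y ^ 10) ^ 8 ≤ ((L : ℝ) ^ 3 / 2) ^ 8 := by
      have h2 : (y ^ 10) ^ 8 = (y ^ 16) ^ 5 := by ring
      have h3 : (y ^ 16) ^ 5 ≤ ((L : ℝ) ^ 3) ^ 5 := pow_le_pow_left₀ (by positivity) hy16 5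
      have h4 : ((L : ℝ) ^ 3 / 2) ^ 8 = ((L : ℝ) ^ 3) ^ 5 * ((L : ℝ) ^ 9 / 2 ^ 8) := by ring
      rw [h2, h4]
      refine h3.trans (le_mul_of_one_le_right (by positivity) ?_)
      rw [le_div_iff₀ (by norm_num)]
      have h5 : (3 : ℝ) ^ 9 ≤ (L : ℝ) ^ 9 := pow_le_pow_left₀ (by norm_num) hL3' 9
      linarith
    exact le_of_pow_le_pow_left₀ (by norm_num) (by positivity) h1
  have hL3d : (L : ℝ) ^ 3 ≤ (L : ℝ) ^ d := pow_le_pow_right₀ (by linarith) hd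
  have hy10d : y ^ 10 ≤ (L : ℝ) ^ d / 2 := by linarith
  have hKy : y ≤ K := by rw [hy8]; exact le_self_pow₀ hy1 (by norm_num)
  have hKL2 : K ≤ L ^ 2 := by
    have h1 : K ^ 2 ≤ (L ^ 2) ^ 2 := by
      refine hKL.trans ?_
      rw [← pow_mul]
      exact Nat.pow_le_pow_right (by omega) (by norm_num)
    exact le_of_pow_le_pow_left₀ (by norm_num) (Nat.zero_le _) h1
  have hexp1 : (1 : ℝ) / 3 ≤ Real.exp (-1) := by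
    rw [Real.exp_neg, one_div]
    refine inv_anti₀ (Real.exp_pos 1) ?_
    have := Real.exp_one_lt_d9
    linarith
  have h3d : (1 : ℝ) ≤ 3 ^ d := one_le_pow₀ (by norm_num)
  have hkey : ((2 * r₁ + 1 : ℕ) : ℝ) ^ d * ((Z + 2) * (2 * C₁ / y ^ 10)) ≤ 1 / 3 := by
    calc ((2 * r₁ + 1 : ℕ) : ℝ) ^ d * ((Z + 2) * (2 * C₁ / y ^ 10))
        ≤ (3 ^ d * y ^ 9) * ((3 * Z) * (2 * C₁ / y ^ 10)) := by
          refine mul_le_mul h2r (mul_le_mul_of_nonneg_right (by linarith) (by positivity))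
            (by positivity) (by positivity)
      _ = (18 * 3 ^ d * C₁ * Z) / (3 * y) := by
          field_simp
          ring
      _ ≤ y / (3 * y) := div_le_div_of_nonneg_right g2 (by positivity)
      _ = 1 / 3 := by field_simp
  have hkey2 : ((Z : ℝ) + 2) * (2 * C₁ / y ^ 10) ≤ 1 := by
    have h1 : 1 ≤ ((2 * r₁ + 1 : ℕ) : ℝ) ^ d := one_le_pow₀ (by push_cast; linarith)
    have h2 : 0 ≤ ((Z : ℝ) + 2) * (2 * C₁ / y ^ 10) := by positivity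
    nlinarith
  refine ⟨Z, r₁, y, ⟨hy1, hy8, hL3, hZC, hZ1, hZℓ, ?_⟩, ⟨by omega, ?_, ?_, ?_, hKL2, by omega⟩,
    ⟨?_, ?_, ?_, hy10d, ?_⟩, ⟨hkey.trans hexp1, hkey2, ?_, ?_, ?_⟩⟩
  · rw [pow_exp (by omega), Real.exp_le_exp]
    refine le_trans ?_ hZℓ
    refine mul_le_mul_of_nonneg_right ?_ (by linarith)
    nlinarith
  · have h1 : ((8 * Z ^ m₁ : ℕ) : ℝ) ≤ L := by
      push_cast
      have h2 : (8 * (Z : ℝ) ^ m₁) ^ 3 ≤ (L : ℝ) ^ 3 := by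
        calc (8 * (Z : ℝ) ^ m₁) ^ 3 ≤ y ^ 3 := pow_le_pow_left₀ (by positivity) g3 3
          _ ≤ y ^ 16 := pow_le_pow_right₀ hy1 (by norm_num)
          _ ≤ _ := hy16
      exact le_of_pow_le_pow_left₀ (by norm_num) hL0.le h2
    exact_mod_cast h1
  · have h1 : ((Z ^ m₁ : ℕ) : ℝ) ≤ K := by
      push_cast
      have : 0 ≤ (Z : ℝ) ^ m₁ := by positivity
      linarith
    exact_mod_cast h1
  · exact hKL2.trans (Nat.pow_le_pow_right (by omega) (by omega))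
  · have h1 : (K : ℝ) ^ 9 ≤ (2 * (r₁ : ℝ)) ^ (8 * d) := by
      rw [hy8, show (y ^ 8) ^ 9 = (y ^ 9) ^ 8 by ring, show 8 * d = d * 8 by ring, pow_mul]
      exact pow_le_pow_left₀ (by positivity) hbig 8
    exact_mod_cast h1
  · have h1 : (r₁ : ℝ) ^ 2 ≤ K * (Z : ℝ) ^ 2 := by
      calc (r₁ : ℝ) ^ 2 ≤ (y ^ 3) ^ 2 := pow_le_pow_left₀ (by positivity) hr3 2
        _ = y ^ 6 * 1 := by ring
        _ ≤ y ^ 8 * (Z : ℝ) ^ 2 := by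
            refine mul_le_mul (pow_le_pow_right₀ hy1 (by norm_num)) (one_le_pow₀ hZ1')
              (by norm_num) (by positivity)
        _ = _ := by rw [hy8]
    exact_mod_cast h1
  · rw [hy8]
    refine pow_le_pow_left₀ (by positivity) (le_trans (le_of_eq ?_) g4) 8
    ring
  · have h1 : (((Z + 1) * (2 * r₁ + 1) ^ d : ℕ) : ℝ) ≤ ((L ^ d : ℕ) : ℝ) := by
      have h2 : (((Z + 1) * (2 * r₁ + 1) ^ d : ℕ) : ℝ) = (Z + 1) * ((2 * r₁ + 1 : ℕ) : ℝ) ^ d := by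
        push_cast
        ring
      rw [h2]
      push_cast
      have h3 : (Z : ℝ) + 1 ≤ 2 * Z := by linarith
      have h4 : 2 * (Z : ℝ) * 3 ^ d ≤ y := by
        refine le_trans ?_ g2
        have : 0 ≤ (3 : ℝ) ^ d * Z := by positivity
        nlinarith
      push_cast at h2r
      calc ((Z : ℝ) + 1) * (2 * (r₁ : ℝ) + 1) ^ d ≤ (2 * Z) * (3 ^ d * y ^ 9) :=
            mul_le_mul h3 h2r (by positivity) (by positivity)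
        _ = (2 * Z * 3 ^ d) * y ^ 9 := by ring
        _ ≤ y * y ^ 9 := mul_le_mul_of_nonneg_right h4 (by positivity)
        _ = y ^ 10 := by ring
        _ ≤ (L : ℝ) ^ d / 2 := hy10d
        _ ≤ (L : ℝ) ^ d := by linarith [pow_pos hL0 d]
    exact_mod_cast h1
  · have : 0 ≤ (CA : ℝ) * (2 * h) ^ (2 * d) := by positivity
    linarith
  · have : 0 ≤ (CA : ℝ) * (2 * h) ^ (2 * d) := by positivity
    linarith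
  · have : 0 ≤ (CA : ℝ) * (2 * h) ^ (2 * d) := by positivity
    linarith

end Pool.Agent.J6H44.PL
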