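import Pool.Agent.J6H44.PL.Dva
import Pool.Agent.J6H44.PL.Par

/-! Project LC: boxes of side `√K / h` see the same cycle fractions as the torus, for circuits. -/

set_option autoImplicit false
set_option linter.unusedSectionVars false
set_option linter.unusedVariables false
set_option maxHeartbeats 1600000

namespace Pool.Agent.J6H44.PL

open Finset Equiv Matrix Q292.LC

theorem PE_sum {V : Type} [Fintype V] [DecidableEq V] (e : ℕ → V × V) (n : ℕ) (δ w : ℝ)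
    (h0 : 0 ≤ δ) (h1 : δ ≤ 1) (hw0 : 0 ≤ w) (hw1 : w < 1) {ι : Type} (s : Finset ι)
    (F : ι → (ℕ → Bool) → Finset V → ℝ) :
    PE e n δ w (fun ω A => ∑ i ∈ s, F i ω A) = ∑ i ∈ s, PE e n δ w (F i) := by
  classical
  obtain ⟨-, p2, p3, -, -, -⟩ := Pool.Agent.Q277.LC.peb V e n δ w h0 h1 hw0 hw1
  induction s using Finset.induction_on with
  | empty =>
    have h := p3 0 (fun _ _ => 0)
    simp only [zero_mul] at h
    simp only [Finset.sum_empty]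
    exact h
  | insert a s ha ih =>
    rw [Finset.sum_insert ha, ← ih, ← p2]
    simp only [Finset.sum_insert ha]

theorem PE_const {V : Type} [Fintype V] [DecidableEq V] (e : ℕ → V × V) (n : ℕ) (δ w : ℝ)
    (h0 : 0 ≤ δ) (h1 : δ ≤ 1) (hw0 : 0 ≤ w) (hw1 : w < 1) (c : ℝ) :
    PE e n δ w (fun _ _ => c) = c := by
  obtain ⟨p1, -, -, -, -, -⟩ := Pool.Agent.Q277.LC.peb V e n δ w h0 h1 hw0 hw1
  rw [p1 (fun _ => c)]
  exact (Pool.Agent.Q68.LC.bas3 n δ h0 h1).1 c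

section core

variable {d L : ℕ} [NeZero L]

open Classical in
/-- the estimate for a fixed circuit -/
theorem dev_core (e : ℕ → (Fin d → ZMod L) × (Fin d → ZMod L)) (n : ℕ) (δ w Λ ε η' κ P : ℝ)
    (h0 : 0 ≤ δ) (h1 : δ ≤ 1) (hw0 : 0 ≤ w) (hw1 : w < 1) (hΛ : 0 ≤ Λ) (hη' : 0 ≤ η') (r : ℕ)
    (hr : 1 ≤ r) (hrL : r ≤ L) (B : (ℕ → Bool) → Finset (Fin d → ZMod L) → Prop)
    (hB : ∀ A, Rmeas e n A (fun ω => B ω A))
    (hsize : ∀ ω A, B ω A → ∀ v, ((Q292.LC.Dmg e ω A δ ε n ∩ box v r).card : ℝ) ≤ η' * (r : ℝ) ^ d)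
    (hres : ∀ ω A, B ω A → ∀ z, phz r (Q292.LC.Dmg e ω A δ ε n) z ⬝ᵥ
      ((1 - w • (dg (univ \ A) * TT e ω A δ n))⁻¹ *ᵥ phz r (Q292.LC.Dmg e ω A δ ε n) z) ≤ Λ)
    (hκ : ∀ x, PW e n δ w (fun ω A => x ∈ A ∧ B ω A) ≤ κ)
    (hP : PW e n δ w (fun ω A => ¬ B ω A) ≤ P) :
    EE n δ (fun ω => Dv r (gp e ω n)) ≤
      3 * ((L : ℝ) ^ d * ((1 - w) * Λ)) + (24 * η' ^ 2 + (2 * κ + 2 * P)) := by
  obtain ⟨p1, p2, p3, p4, p5, -⟩ := Pool.Agent.Q277.LC.peb (Fin d → ZMod L) e n δ w h0 h1 hw0 hw1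
  have hL0 : (0 : ℝ) < (L : ℝ) ^ d := by
    have : (0 : ℝ) < L := by exact_mod_cast Nat.pos_of_ne_zero (NeZero.ne L)
    positivity
  obtain ⟨S, hS⟩ : ∃ S : (Fin d → ZMod L) → (ℕ → Bool) → Finset (Fin d → ZMod L) → ℝ,
    S = fun z ω A => if B ω A then ∑ x ∈ univ \ A,
      ((∑ y ∈ cyc (gp e ω n) x, phz r (Q292.LC.Dmg e ω A δ ε n) z y) /
        ((cyc (gp e ω n) x).card : ℝ)) ^ 2 else 0 := ⟨_, rfl⟩
  obtain ⟨M, hM⟩ : ∃ M : (Fin d → ZMod L) → (ℕ → Bool) → Finset (Fin d → ZMod L) → ℝ,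
    M = fun x ω A => if x ∈ A ∧ B ω A then 1 else 0 := ⟨_, rfl⟩
  obtain ⟨N, hN⟩ : ∃ N : (ℕ → Bool) → Finset (Fin d → ZMod L) → ℝ,
    N = fun ω A => if ¬ B ω A then 1 else 0 := ⟨_, rfl⟩
  have hSz : ∀ z, PE e n δ w (S z) ≤ (1 - w) * Λ := by
    intro z
    rw [hS]
    refine res (Fin d → ZMod L) e n δ w Λ B (fun ω A => phz r (Q292.LC.Dmg e ω A δ ε n) z) h0 h1
      hw0 hw1 hΛ hB ?_ ?_ (fun ω A _ hBA => hres ω A hBA z)
    · intro A ω ω' hωω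
      have h2 := Pool.Agent.Q277.LC.dme (Fin d → ZMod L) e n A δ ε ω ω' hωω
      beta_reduce at h2 ⊢
      rw [h2]
    · intro ω A a ha
      refine phz_zero r _ z a ?_
      unfold Q292.LC.Dmg
      rw [mem_filter]
      exact ⟨mem_univ _, Or.inl ha⟩
  have hS0 : ∀ z ω A, 0 ≤ S z ω A := by
    intro z ω A
    rw [hS]
    beta_reduce
    split_ifs
    · exact Finset.sum_nonneg fun x _ => sq_nonneg _
    · exact le_rfl
  have hM0 : ∀ x ω A, 0 ≤ M x ω A := by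
    intro x ω A
    rw [hM]
    beta_reduce
    split_ifs <;> norm_num
  have hpt : ∀ (ω : ℕ → Bool) (A : Finset (Fin d → ZMod L)), Inv (gp e ω n) A →
      Dv r (gp e ω n) ≤ 3 * (∑ z, S z ω A) + (24 * η' ^ 2 +
        (2 / (L : ℝ) ^ d * (∑ x, M x ω A) + 2 * N ω A)) := by
    intro ω A hA
    by_cases hBA : B ω A
    · have h2 := dva (gp e ω n) A (Q292.LC.Dmg e ω A δ ε n) r η' hr hrL hA hη' (hsize ω A hBA)
      have h3 : N ω A = 0 := by rw [hN]; simp [hBA]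
      have h4 : ∑ x, M x ω A = A.card := by
        rw [hM]
        simp [hBA]
      have h5 : ∀ z, S z ω A = ∑ x ∈ univ \ A,
          ((∑ y ∈ cyc (gp e ω n) x, phz r (Q292.LC.Dmg e ω A δ ε n) z y) /
            ((cyc (gp e ω n) x).card : ℝ)) ^ 2 := by
        intro z
        rw [hS]
        beta_reduce
        rw [if_pos hBA]
      simp only [h5]
      rw [h3, h4]
      refine h2.trans (le_of_eq ?_)
      ring
    · have h3 : N ω A = 1 := by rw [hN]; simp [hBA]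
      rw [h3]
      have h4 := Dv_le r hr hrL (gp e ω n)
      have h5 : 0 ≤ ∑ z, S z ω A := Finset.sum_nonneg fun z _ => hS0 z ω A
      have h6 : 0 ≤ ∑ x, M x ω A := Finset.sum_nonneg fun x _ => hM0 x ω A
      have h7 : 0 ≤ 2 / (L : ℝ) ^ d * ∑ x, M x ω A := by positivity
      have h8 : 0 ≤ η' ^ 2 := sq_nonneg _
      linarith
  rw [← p1 fun ω => Dv r (gp e ω n)]
  refine (p4 _ _ hpt).trans ?_
  have e1 : PE e n δ w (fun ω A => 3 * (∑ z, S z ω A) + (24 * η' ^ 2 +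
        (2 / (L : ℝ) ^ d * (∑ x, M x ω A) + 2 * N ω A))) =
      3 * (∑ z, PE e n δ w (S z)) + (24 * η' ^ 2 +
        (2 / (L : ℝ) ^ d * (∑ x, PE e n δ w (M x)) + 2 * PE e n δ w N)) := by
    rw [p2 (fun ω A => 3 * (∑ z, S z ω A)), p3 3 (fun ω A => ∑ z, S z ω A),
      PE_sum e n δ w h0 h1 hw0 hw1, p2 (fun _ _ => 24 * η' ^ 2), PE_const e n δ w h0 h1 hw0 hw1,
      p2 (fun ω A => 2 / (L : ℝ) ^ d * (∑ x, M x ω A)),
      p3 (2 / (L : ℝ) ^ d) (fun ω A => ∑ x, M x ω A), PE_sum e n δ w h0 h1 hw0 hw1, p3 2 N]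
  rw [e1]
  have h2 : ∑ z, PE e n δ w (S z) ≤ (L : ℝ) ^ d * ((1 - w) * Λ) := by
    calc ∑ z, PE e n δ w (S z) ≤ ∑ _z : Fin d → ZMod L, (1 - w) * Λ :=
          Finset.sum_le_sum fun z _ => hSz z
      _ = _ := by rw [Finset.sum_const, nsmul_eq_mul, cardV]
  have h3 : 2 / (L : ℝ) ^ d * (∑ x, PE e n δ w (M x)) ≤ 2 * κ := by
    have h4 : ∑ x, PE e n δ w (M x) ≤ (L : ℝ) ^ d * κ := by
      calc ∑ x, PE e n δ w (M x) ≤ ∑ _x : Fin d → ZMod L, κ := by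
            refine Finset.sum_le_sum fun x _ => ?_
            refine le_trans (le_of_eq ?_) (hκ x)
            rw [← p5 (fun ω A => x ∈ A ∧ B ω A), hM]
            congr 1
            funext ω A
            by_cases hx : x ∈ A ∧ B ω A
            · rw [if_pos hx]
              beta_reduce
              rw [if_pos hx]
            · rw [if_neg hx]
              beta_reduce
              rw [if_neg hx]
        _ = _ := by rw [Finset.sum_const, nsmul_eq_mul, cardV]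
    calc 2 / (L : ℝ) ^ d * (∑ x, PE e n δ w (M x)) ≤ 2 / (L : ℝ) ^ d * ((L : ℝ) ^ d * κ) :=
          mul_le_mul_of_nonneg_left h4 (by positivity)
      _ = 2 * κ := by field_simp
  have h5 : PE e n δ w N ≤ P := by
    refine le_trans (le_of_eq ?_) hP
    rw [← p5 (fun ω A => ¬ B ω A), hN]
    congr 1
    funext ω A
    by_cases hx : ¬ B ω A
    · rw [if_pos hx, if_pos hx]
    · rw [if_neg hx, if_neg hx]
  linarith

end core

theorem Gd_empty {d L : ℕ} [NeZero L] (σ : ℕ → (Fin d → ZMod L) × Fin d) (q K lam r ρ κ₀ : ℕ)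
    (ω : ℕ → Bool) : Gd σ q K lam r ρ κ₀ ω ∅ := by
  refine ⟨?_, ?_, ?_⟩
  · rintro ⟨j, _, v, hv⟩
    simp at hv
  · intro j _ a ha
    simp at ha
  · intro a ha
    simp at ha

open Classical in
theorem dev : ∀ d : ℕ, 3 ≤ d → ∃ m h₀ : ℕ, 1 ≤ h₀ ∧ ∀ h : ℕ, h₀ ≤ h → ∀ η : ℝ, 0 < η →
    ∃ L₀ : ℕ, ∀ (L K : ℕ) [NeZero L], L₀ ≤ L → (Real.log L) ^ m ≤ K → K ^ 2 ≤ L ^ 3 →
    (3 ≤ L ∧ 1 ≤ Nat.sqrt K / h ∧ 4 * (Nat.sqrt K / h) ≤ L ∧
      Real.sqrt K ≤ 2 * h * ((Nat.sqrt K / h : ℕ) : ℝ)) ∧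
    ∃ q₀ : ℕ, ∀ q ≥ q₀, ∀ σ : ℕ → (Fin d → ZMod L) × Fin d, Per σ → ∀ δ : ℝ,
    1 ≤ δ * q → δ * q ≤ 2 →
    EE (K * (q * ms d L)) δ
      (fun ω => Dv (Nat.sqrt K / h) (gp (ed ∘ σ) ω (K * (q * ms d L)))) ≤ η := by
  intro d hd
  obtain ⟨C₁, m₁, hC₁, hBTL⟩ := all_btl d hd
  obtain ⟨CA, ε, hCA, hε, hLAM⟩ := lam_t d hd
  refine ⟨8 * (d * m₁ + d + 3), CA, hCA, ?_⟩
  intro h hh η hη
  have hh1 : 1 ≤ h := hCA.trans hh
  obtain ⟨η', hη'⟩ : ∃ η' : ℝ, η' = min (1 / 2) (η / 96) := ⟨_, rfl⟩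
  have hη'0 : 0 < η' := by rw [hη']; positivity
  have hη'1 : η' ≤ 1 / 2 := by rw [hη']; exact min_le_left _ _
  have hη'2 : η' ≤ η / 96 := by rw [hη']; exact min_le_right _ _
  obtain ⟨L₀, hpar⟩ := params d hd C₁ m₁ CA hC₁ h hh1 η' η hη'0 hη
  refine ⟨L₀, ?_⟩
  intro L K _ hL hK hKL
  obtain ⟨Z, r₁, y, ⟨hy1, hy8, hL3, hZC, hZ1, hZℓ, hexp⟩, ⟨a1, a2, a3, a4, a5, a6⟩,
    ⟨b1, b2, b3, b4, b5⟩, ⟨c1, c2, c3, c4, c5⟩⟩ := hpar L K hL hK hKL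
  have hy0 : 0 < y := by linarith
  have hL0 : (0 : ℝ) < L := by
    have : 0 < L := by omega
    exact_mod_cast this
  have hLd : (0 : ℝ) < (L : ℝ) ^ d := by positivity
  have hC₁' : (1 : ℝ) ≤ C₁ := by exact_mod_cast hC₁
  have hs : Real.sqrt K = y ^ 4 := by
    rw [hy8, show y ^ 8 = (y ^ 4) ^ 2 by ring, Real.sqrt_sq (by positivity)]
  -- LAM
  obtain ⟨qA, hqA⟩ := hLAM h hh Z hZ1 η' hη'0 hη'1 L K Z r₁ Z (2 * ((Z - 1) / 2)) le_rfl le_rfl hexp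
    hL3 a5 a6 b1 b2 b3
  have hrf : 1 ≤ Nat.sqrt K / h ∧ 4 * (Nat.sqrt K / h) ≤ L ∧
      Real.sqrt K ≤ 2 * h * ((Nat.sqrt K / h : ℕ) : ℝ) := by
    obtain ⟨σ, hσ⟩ := Pool.Agent.Q297.LC.exists_Per d L (by omega)
    have hq0 : (0 : ℝ) < ((qA + 1 : ℕ) : ℝ) := by positivity
    obtain ⟨f1, f2, f3, -⟩ := hqA (qA + 1) (Nat.le_succ _) σ hσ (1 / ((qA + 1 : ℕ) : ℝ))
      (by rw [one_div_mul_cancel hq0.ne']) (by rw [one_div_mul_cancel hq0.ne']; norm_num)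
      (fun _ => false) ∅ (Gd_empty _ _ _ _ _ _ _ _) _ rfl _ rfl
    exact ⟨f1, f2, f3⟩
  obtain ⟨f1, f2, f3⟩ := hrf
  refine ⟨⟨hL3, f1, f2, f3⟩, ?_⟩
  obtain ⟨r, hr⟩ : ∃ r : ℕ, r = Nat.sqrt K / h := ⟨_, rfl⟩
  rw [← hr] at f1 f2 f3 ⊢
  have hr0 : (0 : ℝ) < r := by exact_mod_cast f1
  -- BTL
  obtain ⟨qB, hqB⟩ := hBTL Z hZC L K Z r₁ Z ((Z - 1) / 2) le_rfl le_rfl (by omega) hexp a1 a2 a3 a4
  refine ⟨max (max qA qB) 2, ?_⟩
  intro q hq σ hσ δ h1 h2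
  have hq' : (2 : ℝ) ≤ q := by exact_mod_cast (le_max_right _ _).trans hq
  have hδ0 : 0 ≤ δ := by
    by_contra hcon
    push Not at hcon
    nlinarith
  have hδ1 : δ ≤ 1 := by nlinarith
  -- w and kappa
  obtain ⟨w, hw⟩ : ∃ w : ℝ, w = 1 - y ^ 10 / (L : ℝ) ^ d := ⟨_, rfl⟩
  have hw12 : 1 / 2 ≤ w := by
    rw [hw]
    have : y ^ 10 / (L : ℝ) ^ d ≤ 1 / 2 := by
      rw [div_le_iff₀ hLd]
      linarith
    linarith
  have hw1 : w < 1 := by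
    rw [hw]
    have : 0 < y ^ 10 / (L : ℝ) ^ d := by positivity
    linarith
  have h1w : (L : ℝ) ^ d * (1 - w) = y ^ 10 := by
    rw [hw]
    field_simp
    ring
  obtain ⟨κ, hκ⟩ : ∃ κ : ℝ, κ = C₁ * ((K : ℝ) ^ (-(d / 2 : ℝ)) + 1 / ((L : ℝ) ^ d * (1 - w))) :=
    ⟨_, rfl⟩
  have hKd : (K : ℝ) ^ (-(d / 2 : ℝ)) ≤ 1 / y ^ 10 := by
    rw [rpow_half_neg _ (Nat.cast_nonneg K), hs, ← pow_mul, one_div]
    refine inv_anti₀ (by positivity) (pow_le_pow_right₀ hy1 (by omega))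
  have hκ0 : 0 ≤ κ := by
    rw [hκ, h1w]
    positivity
  have hκ1 : κ ≤ 2 * C₁ / y ^ 10 := by
    rw [hκ, h1w]
    calc (C₁ : ℝ) * ((K : ℝ) ^ (-(d / 2 : ℝ)) + 1 / y ^ 10) ≤ C₁ * (1 / y ^ 10 + 1 / y ^ 10) :=
          mul_le_mul_of_nonneg_left (add_le_add hKd le_rfl) (by linarith)
      _ = _ := by ring
  have hZ2 : (0 : ℝ) ≤ (Z : ℝ) + 2 := by positivity
  have hκZ : ((Z : ℝ) + 2) * κ ≤ 1 := (mul_le_mul_of_nonneg_left hκ1 hZ2).trans c2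
  obtain ⟨g1, g2⟩ := hqB q ((le_max_right _ _).trans ((le_max_left _ _).trans hq)) σ hσ δ h1 h2 w
    (by linarith) hw1 κ hκ hκZ
  have hkey : ((2 * r₁ + 1 : ℕ) : ℝ) ^ d * ((Z + 2) * κ) ≤ Real.exp (-1) :=
    (mul_le_mul_of_nonneg_left (mul_le_mul_of_nonneg_left hκ1 hZ2) (by positivity)).trans c1
  have g3 := Pool.Agent.Q297.LC.fail_bound (d := d) (C₁ := C₁) (L := L) (K := K) (Z := Z) (r := r₁)
    (κ := κ) (by omega) hC₁ (by omega) hZℓ a4 b5 hκ0 hkey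
  -- Lambda
  obtain ⟨Λ, hΛ⟩ : ∃ Λ : ℝ, Λ = CA * (K : ℝ) ^ (d / 2 : ℝ) / (r : ℝ) ^ (2 * d) := ⟨_, rfl⟩
  have hΛ0 : 0 ≤ Λ := by rw [hΛ]; positivity
  have hqA' := hqA q ((le_max_left _ _).trans ((le_max_left _ _).trans hq)) σ hσ δ h1 h2
  have hcore := dev_core (ed ∘ σ) (K * (q * ms d L)) δ w Λ ε η' κ
    ((5 * C₁ + 1) * (1 / (L : ℝ) ^ d)) hδ0 hδ1 (by linarith) hw1 hΛ0 hη'0.le r f1 (by omega)
    (fun ω A => Gd σ q K Z r₁ Z (2 * ((Z - 1) / 2)) ω A)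
    (Pool.Agent.Q154.LC.gdm d L σ q K Z r₁ Z (2 * ((Z - 1) / 2))).1
    (fun ω A hG => (hqA' ω A hG r hr _ rfl).2.2.2.1)
    (fun ω A hG z => by
      rw [hΛ]
      exact (hqA' ω A hG r hr _ rfl).2.2.2.2 z w hw12 hw1)
    g2 (g1.trans g3)
  refine hcore.trans ?_
  have k1 : 3 * ((L : ℝ) ^ d * ((1 - w) * Λ)) ≤ η / 8 := by
    rw [← mul_assoc ((L : ℝ) ^ d), h1w, hΛ, rpow_half _ (Nat.cast_nonneg K), hs, ← pow_mul]
    have hrr : y ^ (4 * (2 * d)) ≤ (2 * h) ^ (2 * d) * (r : ℝ) ^ (2 * d) := by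
      rw [pow_mul, ← mul_pow]
      refine pow_le_pow_left₀ (by positivity) ?_ _
      rw [← hs]
      exact f3
    have hh0 : (0 : ℝ) < 2 * h := by
      have : (0 : ℝ) < h := by exact_mod_cast hh1
      linarith
    have k2 : y ^ (4 * d) / (r : ℝ) ^ (2 * d) ≤ (2 * h) ^ (2 * d) / y ^ (4 * d) := by
      rw [div_le_div_iff₀ (by positivity) (by positivity)]
      calc y ^ (4 * d) * y ^ (4 * d) = y ^ (4 * (2 * d)) := by rw [← pow_add]; congr 1; ring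
        _ ≤ _ := hrr
    have k3 : y ^ 11 ≤ y ^ (4 * d) := pow_le_pow_right₀ hy1 (by omega)
    have hCA0 : (0 : ℝ) ≤ CA := Nat.cast_nonneg _
    calc 3 * (y ^ 10 * (CA * y ^ (4 * d) / (r : ℝ) ^ (2 * d)))
        = 3 * y ^ 10 * CA * (y ^ (4 * d) / (r : ℝ) ^ (2 * d)) := by ring
      _ ≤ 3 * y ^ 10 * CA * ((2 * h) ^ (2 * d) / y ^ (4 * d)) :=
          mul_le_mul_of_nonneg_left k2 (by positivity)
      _ ≤ 3 * y ^ 10 * CA * ((2 * h) ^ (2 * d) / y ^ 11) := by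
          refine mul_le_mul_of_nonneg_left ?_ (by positivity)
          exact div_le_div_of_nonneg_left (by positivity) (by positivity) k3
      _ = (24 * (CA * (2 * h) ^ (2 * d))) / (8 * y) := by
          field_simp
          ring
      _ ≤ (η * y) / (8 * y) := div_le_div_of_nonneg_right c3 (by positivity)
      _ = η / 8 := by field_simp
  have k2 : 24 * η' ^ 2 ≤ η / 8 := by nlinarith
  have k3 : 2 * κ ≤ η / 8 := by
    have : κ ≤ 2 * C₁ / y := by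
      refine hκ1.trans ?_
      exact div_le_div_of_nonneg_left (by positivity) hy0 (le_self_pow₀ hy1 (by norm_num))
    calc 2 * κ ≤ 2 * (2 * C₁ / y) := by linarith
      _ = (32 * C₁) / (8 * y) := by field_simp; ring
      _ ≤ (η * y) / (8 * y) := div_le_div_of_nonneg_right c4 (by positivity)
      _ = η / 8 := by field_simp
  have k4 : 2 * ((5 * C₁ + 1) * (1 / (L : ℝ) ^ d)) ≤ η / 8 := by
    have hyL : y ≤ (L : ℝ) ^ d := by
      have : y ≤ y ^ 10 := le_self_pow₀ hy1 (by norm_num)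
      linarith
    calc 2 * ((5 * C₁ + 1) * (1 / (L : ℝ) ^ d)) ≤ 2 * ((5 * C₁ + 1) * (1 / y)) := by
          refine mul_le_mul_of_nonneg_left (mul_le_mul_of_nonneg_left ?_ (by positivity))
            (by norm_num)
          exact one_div_le_one_div_of_le hy0 hyL
      _ = (16 * (5 * C₁ + 1)) / (8 * y) := by field_simp; ring
      _ ≤ (η * y) / (8 * y) := div_le_div_of_nonneg_right c5 (by positivity)
      _ = η / 8 := by field_simp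
  linarith

end Pool.Agent.J6H44.PL
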