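import Pool.Agent.Q292.LC.Stm7
import Pool.Agent.Q257.LC.Geo

/-! Project LC: covering of a ball by small balls (CNT). -/

set_option autoImplicit false
set_option linter.unusedSectionVars false
set_option linter.unusedVariables false

namespace Pool.Agent.J6H44.PL

open Finset Equiv Matrix Q292.LC
open Pool.Agent.Q257.LC (natAbs_le_val td_comm mem_bal)

theorem cnt : S_CNT := by
  intro d L _ hd hL S r₁ R lam hr hS z
  set m : ℕ := r₁ / d with hm
  have hm1 : 1 ≤ m := (Nat.one_le_div_iff (by omega)).2 hr
  have hmd : d * m ≤ r₁ := Nat.mul_div_le r₁ d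
  set N : ℕ := 2 * (R / m) + 3 with hN
  have : NeZero N := ⟨by omega⟩
  -- code of a point
  let v : (Fin d → ZMod L) → Fin d → ℤ := fun x i => (x i - z i).valMinAbs
  let j : (Fin d → ZMod L) → Fin d → Fin N := fun x i => Fin.ofNat N (v x i / (m : ℤ) + (R / m : ℕ) + 1).toNat
  let c : (Fin d → Fin N) → (Fin d → ZMod L) := fun k i =>
    z i + (((m : ℤ) * ((k i : ℕ) - (R / m : ℕ) - 1) : ℤ) : ZMod L)
  have hcover : ∀ x ∈ S ∩ bal z R, x ∈ S ∩ bal (c (j x)) r₁ := by
    intro x hx
    rw [mem_inter] at hx ⊢
    refine ⟨hx.1, ?_⟩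
    have hx2 := hx.2
    rw [mem_bal] at hx2 ⊢
    rw [td_comm] at hx2 ⊢
    have hv : ∀ i, (v x i).natAbs ≤ R := fun i =>
      (Finset.single_le_sum (f := fun i => (x i - z i).valMinAbs.natAbs) (fun i _ => Nat.zero_le _)
        (mem_univ i)).trans hx2
    refine le_trans ?_ hmd
    unfold td
    calc ∑ i, (x i - c (j x) i).valMinAbs.natAbs ≤ ∑ _i : Fin d, m := by
          refine sum_le_sum fun i _ => ?_
          have hvi := hv i
          have hm0 : (0 : ℤ) < m := by exact_mod_cast hm1
          have hq := Int.mul_ediv_add_emod (v x i) (m : ℤ)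
          have hr0 := Int.emod_nonneg (v x i) hm0.ne'
          have hr1 := Int.emod_lt_of_pos (v x i) hm0
          have hRm : (R : ℤ) < (m : ℤ) * ((R / m : ℕ) + 1) := by
            have := Nat.lt_mul_div_succ R (show 0 < m by omega)
            exact_mod_cast this
          have hlow : -((R / m : ℕ) : ℤ) - 1 ≤ v x i / (m : ℤ) := by
            by_contra hcon
            push Not at hcon
            have h1 : v x i / (m : ℤ) ≤ -((R / m : ℕ) : ℤ) - 2 := by omega
            have h2 : (m : ℤ) * (v x i / (m : ℤ)) ≤ (m : ℤ) * (-((R / m : ℕ) : ℤ) - 2) :=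
              mul_le_mul_of_nonneg_left h1 hm0.le
            have h3 : -(R : ℤ) ≤ v x i := by omega
            nlinarith
          have hup : v x i / (m : ℤ) ≤ ((R / m : ℕ) : ℤ) := by
            by_contra hcon
            push Not at hcon
            have h1 : ((R / m : ℕ) : ℤ) + 1 ≤ v x i / (m : ℤ) := by omega
            have h2 : (m : ℤ) * (((R / m : ℕ) : ℤ) + 1) ≤ (m : ℤ) * (v x i / (m : ℤ)) :=
              mul_le_mul_of_nonneg_left h1 hm0.le
            have h3 : v x i ≤ (R : ℤ) := by omega
            nlinarith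
          have hval : ((j x i : ℕ) : ℤ) = v x i / (m : ℤ) + (R / m : ℕ) + 1 := by
            have h0 : (j x i : ℕ) = (v x i / (m : ℤ) + (R / m : ℕ) + 1).toNat := by
              show ((Fin.ofNat N (v x i / (m : ℤ) + (R / m : ℕ) + 1).toNat : Fin N) : ℕ) = _
              rw [Fin.val_ofNat, Nat.mod_eq_of_lt]
              omega
            rw [h0]
            omega
          have hxc : x i - c (j x) i = (((v x i % (m : ℤ)).toNat : ℕ) : ZMod L) := by
            have h1 : ((v x i : ℤ) : ZMod L) = x i - z i := ZMod.coe_valMinAbs _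
            have h2 : (((v x i % (m : ℤ)).toNat : ℕ) : ZMod L) = ((v x i % (m : ℤ) : ℤ) : ZMod L) := by
              rw [← Int.cast_natCast, Int.toNat_of_nonneg hr0]
            have h3 : v x i % (m : ℤ) = v x i - (m : ℤ) * (v x i / (m : ℤ)) := by linarith
            rw [h2, h3]
            show x i - (z i + (((m : ℤ) * (((j x i : ℕ) : ℤ) - (R / m : ℕ) - 1) : ℤ) : ZMod L)) = _
            rw [hval]
            push_cast
            rw [h1]
            ring
          rw [hxc]
          refine (natAbs_le_val _).trans ?_
          rw [ZMod.val_natCast]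
          refine (Nat.mod_le _ _).trans ?_
          omega
      _ = d * m := by simp
  calc (S ∩ bal z R).card ≤ lam * ((S ∩ bal z R).image j).card := by
        refine Finset.card_le_mul_card_image (s := S ∩ bal z R) lam ?_
        intro k hk
        refine le_trans (Finset.card_le_card ?_) (hS (c k))
        intro x hx
        rw [mem_filter] at hx
        rw [← hx.2]
        exact hcover x hx.1
    _ ≤ lam * N ^ d := by
        refine Nat.mul_le_mul_left _ ?_
        refine (Finset.card_le_univ _).trans ?_
        rw [Fintype.card_fun, Fintype.card_fin, Fintype.card_fin]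

end Pool.Agent.J6H44.PL
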