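import Pool.Agent.Q292.LC.Stm7
import Pool.Agent.Q187.LC.Nas
import Pool.Agent.Q53.LC.Poi

/-! Project LC: the mean over a box and the mean over all boxes (DYA). -/

set_option autoImplicit false
set_option linter.unusedSectionVars false
set_option linter.unusedVariables false

namespace Pool.Agent.J6H44.PL

open Finset Equiv Matrix Q292.LC

theorem mean_diff {ι : Type} [DecidableEq ι] (G Q : Finset ι) (f : ι → ℝ) (hG : 0 < G.card)
    (hQ : 0 < Q.card) :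
    ((∑ x ∈ G, f x) / (G.card : ℝ) - (∑ x ∈ Q, f x) / (Q.card : ℝ)) ^ 2 ≤
      (∑ x ∈ G, ∑ y ∈ Q, (f x - f y) ^ 2) / ((G.card : ℝ) * Q.card) := by
  have hG' : (0 : ℝ) < G.card := by exact_mod_cast hG
  have hQ' : (0 : ℝ) < Q.card := by exact_mod_cast hQ
  have e1 : (∑ x ∈ G, f x) / (G.card : ℝ) - (∑ x ∈ Q, f x) / (Q.card : ℝ) =
      (∑ p ∈ G ×ˢ Q, (f p.1 - f p.2)) / ((G.card : ℝ) * Q.card) := by
    rw [Finset.sum_product]
    simp only [Finset.sum_sub_distrib, Finset.sum_const, nsmul_eq_mul, ← Finset.mul_sum]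
    field_simp
  have e2 : ∑ x ∈ G, ∑ y ∈ Q, (f x - f y) ^ 2 = ∑ p ∈ G ×ˢ Q, (f p.1 - f p.2) ^ 2 := by
    rw [Finset.sum_product]
  rw [e1, e2, div_pow, div_le_div_iff₀ (by positivity) (by positivity)]
  have h := sq_sum_le_card_mul_sum_sq (s := G ×ˢ Q) (f := fun p => f p.1 - f p.2)
  rw [Finset.card_product] at h
  push_cast at h
  have h0 : 0 ≤ (G.card : ℝ) * Q.card := by positivity
  calc (∑ p ∈ G ×ˢ Q, (f p.1 - f p.2)) ^ 2 * ((G.card : ℝ) * Q.card)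
      ≤ ((G.card : ℝ) * Q.card * ∑ p ∈ G ×ˢ Q, (f p.1 - f p.2) ^ 2) * ((G.card : ℝ) * Q.card) :=
        mul_le_mul_of_nonneg_right h h0
    _ = _ := by ring

section torus

variable {d L : ℕ} [NeZero L]

/-- energy of near pairs -/
noncomputable def En (r : ℕ) (Dm : Finset (Fin d → ZMod L)) (f : (Fin d → ZMod L) → ℝ) : ℝ :=
  ∑ x, ∑ y, (if x ∉ Dm ∧ y ∉ Dm ∧ td x y ≤ 2 * d * r then (f x - f y) ^ 2 else 0)

/-- mean over a box off `Dm` -/
noncomputable def hm (N : ℕ) (Dm : Finset (Fin d → ZMod L)) (f : (Fin d → ZMod L) → ℝ)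
    (z : Fin d → ZMod L) : ℝ :=
  (∑ x ∈ box z N \ Dm, f x) / ((box z N \ Dm).card : ℝ)

theorem En_nonneg (r : ℕ) (Dm : Finset (Fin d → ZMod L)) (f : (Fin d → ZMod L) → ℝ) :
    0 ≤ En r Dm f := by
  unfold En
  refine Finset.sum_nonneg fun x _ => Finset.sum_nonneg fun y _ => ?_
  split_ifs
  · exact sq_nonneg _
  · exact le_rfl

theorem card_good (r M : ℕ) (hr : 1 ≤ r) (hM : M * r ≤ L)
    (Dm : Finset (Fin d → ZMod L)) (hD : ∀ v, 2 * (Dm ∩ box v r).card ≤ r ^ d)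
    (z : Fin d → ZMod L) :
    ((M * r : ℕ) : ℝ) ^ d ≤ 2 * ((box z (M * r) \ Dm).card : ℝ) := by
  have h1 := Pool.Agent.Q187.LC.Nas.card_Dm z r M hr Dm hD
  have h2 := Pool.Agent.Q187.LC.Nas.card_box z (M * r) hM
  have h3 : (box z (M * r) \ Dm).card + (Dm ∩ box z (M * r)).card = (box z (M * r)).card := by
    rw [Finset.inter_comm]
    exact Finset.card_sdiff_add_card_inter _ _
  have h4 : (M * r) ^ d ≤ 2 * (box z (M * r) \ Dm).card := by omega
  exact_mod_cast h4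

theorem scale_step (hd : 1 ≤ d) {C : ℝ} (hC : 1 ≤ C)
    (hP : ∀ (L : ℕ) [NeZero L] (r M : ℕ),
      1 ≤ r → 1 ≤ M → M * r ≤ L → ∀ (z : Fin d → ZMod L) (Dm : Finset (Fin d → ZMod L)),
      (∀ v, 2 * (Dm ∩ box v r).card ≤ r ^ d) → ∀ f : (Fin d → ZMod L) → ℝ,
      ∑ x ∈ box z (M * r) \ Dm, ∑ y ∈ box z (M * r) \ Dm, (f x - f y) ^ 2 ≤
        C * M ^ (d + 2) * ∑ x ∈ box z (M * r) \ Dm, ∑ y ∈ box z (M * r) \ Dm,
          if td x y ≤ 2 * d * r then (f x - f y) ^ 2 else 0)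
    (r M M' : ℕ) (hr : 1 ≤ r) (hM : 1 ≤ M) (hMM : M ≤ M') (hM' : M' * r ≤ L)
    (Dm : Finset (Fin d → ZMod L)) (hD : ∀ v, 2 * (Dm ∩ box v r).card ≤ r ^ d)
    (f : (Fin d → ZMod L) → ℝ) (z₁ z₂ : Fin d → ZMod L) (hsub : box z₁ (M * r) ⊆ box z₂ (M' * r)) :
    (hm (M * r) Dm f z₁ - hm (M' * r) Dm f z₂) ^ 2 ≤
      4 * (M' : ℝ) ^ 2 / (M : ℝ) ^ d * (C * (En r Dm f / (r : ℝ) ^ (2 * d))) := by
  have hMr : M * r ≤ L := (Nat.mul_le_mul_right r hMM).trans hM'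
  have c1 := card_good r M hr hMr Dm hD z₁
  have c2 := card_good r M' hr hM' Dm hD z₂
  have hr0 : (0 : ℝ) < r := by exact_mod_cast hr
  have hM0 : (0 : ℝ) < M := by exact_mod_cast hM
  have hM'0 : (0 : ℝ) < M' := by exact_mod_cast (hM.trans hMM)
  have p1 : (0 : ℝ) < ((M * r : ℕ) : ℝ) ^ d := by push_cast; positivity
  have p2 : (0 : ℝ) < ((M' * r : ℕ) : ℝ) ^ d := by push_cast; positivity
  have g1 : (0 : ℝ) < ((box z₁ (M * r) \ Dm).card : ℝ) := by linarith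
  have g2 : (0 : ℝ) < ((box z₂ (M' * r) \ Dm).card : ℝ) := by linarith
  have h1 := mean_diff (box z₁ (M * r) \ Dm) (box z₂ (M' * r) \ Dm) f
    (by exact_mod_cast g1) (by exact_mod_cast g2)
  have hE : ∑ x ∈ box z₁ (M * r) \ Dm, ∑ y ∈ box z₂ (M' * r) \ Dm, (f x - f y) ^ 2 ≤
      C * (M' : ℝ) ^ (d + 2) * En r Dm f := by
    calc ∑ x ∈ box z₁ (M * r) \ Dm, ∑ y ∈ box z₂ (M' * r) \ Dm, (f x - f y) ^ 2
        ≤ ∑ x ∈ box z₂ (M' * r) \ Dm, ∑ y ∈ box z₂ (M' * r) \ Dm, (f x - f y) ^ 2 :=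
          Finset.sum_le_sum_of_subset_of_nonneg (Finset.sdiff_subset_sdiff hsub le_rfl)
            fun x _ _ => Finset.sum_nonneg fun y _ => sq_nonneg _
      _ ≤ C * (M' : ℝ) ^ (d + 2) * ∑ x ∈ box z₂ (M' * r) \ Dm, ∑ y ∈ box z₂ (M' * r) \ Dm,
          (if td x y ≤ 2 * d * r then (f x - f y) ^ 2 else 0) :=
          hP L r M' hr (hM.trans hMM) hM' z₂ Dm hD f
      _ ≤ C * (M' : ℝ) ^ (d + 2) * En r Dm f := by
          refine mul_le_mul_of_nonneg_left ?_ (by positivity)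
          unfold En
          calc ∑ x ∈ box z₂ (M' * r) \ Dm, ∑ y ∈ box z₂ (M' * r) \ Dm,
              (if td x y ≤ 2 * d * r then (f x - f y) ^ 2 else 0)
              = ∑ x ∈ box z₂ (M' * r) \ Dm, ∑ y ∈ box z₂ (M' * r) \ Dm,
              (if x ∉ Dm ∧ y ∉ Dm ∧ td x y ≤ 2 * d * r then (f x - f y) ^ 2 else 0) := by
                refine Finset.sum_congr rfl fun x hx => Finset.sum_congr rfl fun y hy => ?_
                rw [mem_sdiff] at hx hy
                simp [hx.2, hy.2]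
            _ ≤ ∑ x ∈ box z₂ (M' * r) \ Dm, ∑ y,
              (if x ∉ Dm ∧ y ∉ Dm ∧ td x y ≤ 2 * d * r then (f x - f y) ^ 2 else 0) := by
                refine Finset.sum_le_sum fun x _ => ?_
                refine Finset.sum_le_sum_of_subset_of_nonneg (Finset.subset_univ _) fun y _ _ => ?_
                split_ifs
                · exact sq_nonneg _
                · exact le_rfl
            _ ≤ _ := by
                refine Finset.sum_le_sum_of_subset_of_nonneg (Finset.subset_univ _) fun x _ _ => ?_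
                refine Finset.sum_nonneg fun y _ => ?_
                split_ifs
                · exact sq_nonneg _
                · exact le_rfl
  have hEn := En_nonneg r Dm f
  have hC0 : 0 < C := by linarith
  unfold hm
  refine h1.trans ?_
  rw [div_le_iff₀ (by positivity)]
  refine hE.trans ?_
  have h5 : ((M * r : ℕ) : ℝ) ^ d * ((M' * r : ℕ) : ℝ) ^ d ≤
      4 * (((box z₁ (M * r) \ Dm).card : ℝ) * ((box z₂ (M' * r) \ Dm).card : ℝ)) := by
    calc ((M * r : ℕ) : ℝ) ^ d * ((M' * r : ℕ) : ℝ) ^ d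
        ≤ (2 * ((box z₁ (M * r) \ Dm).card : ℝ)) * (2 * ((box z₂ (M' * r) \ Dm).card : ℝ)) :=
          mul_le_mul c1 c2 p2.le (by positivity)
      _ = _ := by ring
  have h6 : 0 ≤ (M' : ℝ) ^ 2 / (M : ℝ) ^ d * (C * (En r Dm f / (r : ℝ) ^ (2 * d))) := by positivity
  calc C * (M' : ℝ) ^ (d + 2) * En r Dm f
      = (M' : ℝ) ^ 2 / (M : ℝ) ^ d * (C * (En r Dm f / (r : ℝ) ^ (2 * d))) *
        (((M * r : ℕ) : ℝ) ^ d * ((M' * r : ℕ) : ℝ) ^ d) := by
        push_cast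
        rw [mul_pow, mul_pow]
        field_simp
        ring
    _ ≤ (M' : ℝ) ^ 2 / (M : ℝ) ^ d * (C * (En r Dm f / (r : ℝ) ^ (2 * d))) *
        (4 * (((box z₁ (M * r) \ Dm).card : ℝ) * ((box z₂ (M' * r) \ Dm).card : ℝ))) :=
        mul_le_mul_of_nonneg_left h5 h6
    _ = _ := by ring

theorem box_mono (z : Fin d → ZMod L) {N N' : ℕ} (h : N ≤ N') : box z N ⊆ box z N' := by
  intro x hx
  unfold Q292.LC.box at hx ⊢
  rw [mem_filter] at hx ⊢
  exact ⟨mem_univ _, fun i => lt_of_lt_of_le (hx.2 i) h⟩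

/-- two boxes of side `N` with `N₁` small have a common box of side `N₁` -/
theorem common_box (z z' : Fin d → ZMod L) (N N₁ r : ℕ) (h1 : L < N + r)
    (h2 : r + 2 * N₁ ≤ N) (hN : N ≤ L) :
    ∃ u, box u N₁ ⊆ box z N ∧ box u N₁ ⊆ box z' N := by
  refine ⟨fun i => if (z' i - z i).val + N₁ ≤ N then z' i else z i, ?_, ?_⟩
  · intro x hx
    unfold Q292.LC.box at hx ⊢
    rw [mem_filter] at hx ⊢
    refine ⟨mem_univ _, fun i => ?_⟩
    have h := hx.2 i
    beta_reduce at h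
    by_cases hc : (z' i - z i).val + N₁ ≤ N
    · rw [if_pos hc] at h
      have e : x i - z i = (x i - z' i) + (z' i - z i) := by ring
      rw [e]
      refine lt_of_le_of_lt (ZMod.val_add_le _ _) ?_
      omega
    · rw [if_neg hc] at h
      omega
  · intro x hx
    unfold Q292.LC.box at hx ⊢
    rw [mem_filter] at hx ⊢
    refine ⟨mem_univ _, fun i => ?_⟩
    have h := hx.2 i
    beta_reduce at h
    by_cases hc : (z' i - z i).val + N₁ ≤ N
    · rw [if_pos hc] at h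
      omega
    · rw [if_neg hc] at h
      have e : x i - z' i = (x i - z i) + (z i - z' i) := by ring
      rw [e]
      refine lt_of_le_of_lt (ZMod.val_add_le _ _) ?_
      have e2 : z i - z' i = -(z' i - z i) := by ring
      have h3 : (z' i - z i) ≠ 0 := by
        intro h0
        rw [h0, ZMod.val_zero] at hc
        omega
      have h4 : (z i - z' i).val = L - (z' i - z i).val := by
        rw [e2]
        haveI : NeZero (z' i - z i) := ⟨h3⟩
        exact ZMod.val_neg_of_ne_zero _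
      rw [h4]
      omega

theorem dya : S_DYA := by
  intro d hd
  obtain ⟨C, hC, hP⟩ := Pool.Agent.Q53.LC.poi d (by omega)
  refine ⟨4624 * C, by linarith, ?_⟩
  intro L _ r hr h4 Dm hD f z
  obtain ⟨E', hE'⟩ : ∃ E' : ℝ, E' = C * (En r Dm f / (r : ℝ) ^ (2 * d)) := ⟨_, rfl⟩
  have hr0 : (0 : ℝ) < r := by exact_mod_cast hr
  have hE0 : 0 ≤ E' := by
    rw [hE']
    have := En_nonneg r Dm f
    positivity
  obtain ⟨q, hq⟩ : ∃ q : ℝ, q = Real.sqrt E' := ⟨_, rfl⟩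
  have hq0 : 0 ≤ q := by rw [hq]; exact Real.sqrt_nonneg _
  have hq2 : q ^ 2 = E' := by rw [hq]; exact Real.sq_sqrt hE0
  have step := fun (M M' : ℕ) (hM : 1 ≤ M) (hMM : M ≤ M') (hM' : M' * r ≤ L)
    (z₁ z₂ : Fin d → ZMod L) (hsub : box z₁ (M * r) ⊆ box z₂ (M' * r)) =>
    scale_step (by omega : 1 ≤ d) hC hP r M M' hr hM hMM hM' Dm hD f z₁ z₂ hsub
  rw [← hE'] at step
  -- dyadic chain
  have chain : ∀ (z : Fin d → ZMod L) (J : ℕ), 2 ^ J * r ≤ L →
      |hm (1 * r) Dm f z - hm (2 ^ J * r) Dm f z| ≤ 4 * q * ∑ j ∈ range J, (3 / 4 : ℝ) ^ j := by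
    intro z J
    induction J with
    | zero =>
      intro _
      simp
    | succ J ih =>
      intro hJ
      have hJ' : 2 ^ J * r ≤ L := by
        refine le_trans ?_ hJ
        exact Nat.mul_le_mul_right r (Nat.pow_le_pow_right (by norm_num) (by omega))
      have h1 := ih hJ'
      have h2 := step (2 ^ J) (2 ^ (J + 1)) Nat.one_le_two_pow
        (Nat.pow_le_pow_right (by norm_num) (by omega)) hJ z z
        (box_mono z (Nat.mul_le_mul_right r (Nat.pow_le_pow_right (by norm_num) (by omega))))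
      have h3 : 4 * ((2 ^ (J + 1) : ℕ) : ℝ) ^ 2 / ((2 ^ J : ℕ) : ℝ) ^ d * E' ≤
          (4 * q * (3 / 4 : ℝ) ^ J) ^ 2 := by
        push_cast
        rw [mul_pow, mul_pow, hq2, ← pow_mul, ← pow_mul, ← pow_mul]
        have e1 : (4 : ℝ) * 2 ^ ((J + 1) * 2) / 2 ^ (J * d) ≤ 4 ^ 2 * (3 / 4) ^ (J * 2) := by
          rw [div_le_iff₀ (by positivity)]
          have e2 : (2 : ℝ) ^ (J * 3) ≤ 2 ^ (J * d) :=
            pow_le_pow_right₀ (by norm_num) (Nat.mul_le_mul_left J hd)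
          have e3 : (4 : ℝ) * 2 ^ ((J + 1) * 2) = 16 * 4 ^ J := by
            rw [show (J + 1) * 2 = 2 * J + 2 by ring, pow_add, pow_mul]
            norm_num
            ring
          have e4 : (4 : ℝ) ^ J ≤ (3 / 4) ^ (J * 2) * 2 ^ (J * 3) := by
            rw [mul_comm J 2, mul_comm J 3, pow_mul, pow_mul, ← mul_pow]
            exact pow_le_pow_left₀ (by norm_num) (by norm_num) J
          rw [e3]
          calc (16 : ℝ) * 4 ^ J ≤ 16 * ((3 / 4) ^ (J * 2) * 2 ^ (J * 3)) := by linarith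
            _ ≤ 16 * ((3 / 4) ^ (J * 2) * 2 ^ (J * d)) := by gcongr
            _ = _ := by ring
        calc 4 * 2 ^ ((J + 1) * 2) / 2 ^ (J * d) * E' ≤ 4 ^ 2 * (3 / 4) ^ (J * 2) * E' :=
              mul_le_mul_of_nonneg_right e1 hE0
          _ = _ := by ring
      have h4 : |hm (2 ^ J * r) Dm f z - hm (2 ^ (J + 1) * r) Dm f z| ≤ 4 * q * (3 / 4 : ℝ) ^ J :=
        abs_le_of_sq_le_sq (h2.trans h3) (by positivity)
      rw [Finset.sum_range_succ, mul_add]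
      calc |hm (1 * r) Dm f z - hm (2 ^ (J + 1) * r) Dm f z|
          ≤ |hm (1 * r) Dm f z - hm (2 ^ J * r) Dm f z| +
            |hm (2 ^ J * r) Dm f z - hm (2 ^ (J + 1) * r) Dm f z| := abs_sub_le _ _ _
        _ ≤ _ := add_le_add h1 h4
  have hgeo : ∀ J : ℕ, ∑ j ∈ range J, (3 / 4 : ℝ) ^ j ≤ 4 := by
    intro J
    rw [geom_sum_eq (by norm_num)]
    have : (0 : ℝ) ≤ (3 / 4) ^ J := by positivity
    rw [div_le_iff_of_neg (by norm_num)]
    linarith
  -- top scale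
  obtain ⟨M₀, hM₀⟩ : ∃ M₀ : ℕ, M₀ = L / r := ⟨_, rfl⟩
  have hM₀4 : 4 ≤ M₀ := by
    rw [hM₀]
    exact (Nat.le_div_iff_mul_le (by omega)).2 h4
  have hM₀r : M₀ * r ≤ L := by
    rw [hM₀]
    exact Nat.div_mul_le_self L r
  have hM₀lt : L < M₀ * r + r := by
    rw [hM₀]
    have := Nat.lt_div_mul_add (a := L) (b := r) (by omega)
    exact this
  have top : ∀ z : Fin d → ZMod L, |hm (1 * r) Dm f z - hm (M₀ * r) Dm f z| ≤ 20 * q := by
    intro z
    obtain ⟨J, hJ⟩ : ∃ J : ℕ, J = Nat.log 2 M₀ := ⟨_, rfl⟩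
    have hJ1 : 2 ^ J ≤ M₀ := by
      rw [hJ]
      exact Nat.pow_log_le_self 2 (by omega)
    have hJ2 : M₀ < 2 ^ (J + 1) := by
      rw [hJ]
      exact Nat.lt_pow_succ_log_self (by norm_num) M₀
    have hJr : 2 ^ J * r ≤ L := (Nat.mul_le_mul_right r hJ1).trans hM₀r
    have h1 := chain z J hJr
    have h2 := step (2 ^ J) M₀ Nat.one_le_two_pow hJ1 hM₀r z z
      (box_mono z (Nat.mul_le_mul_right r hJ1))
    have h3 : 4 * (M₀ : ℝ) ^ 2 / ((2 ^ J : ℕ) : ℝ) ^ d * E' ≤ (4 * q) ^ 2 := by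
      have e0 : (M₀ : ℝ) ≤ 2 * 2 ^ J := by
        have : M₀ ≤ 2 * 2 ^ J := by
          rw [pow_succ] at hJ2
          omega
        exact_mod_cast this
      have e1 : (4 : ℝ) * (M₀ : ℝ) ^ 2 / ((2 ^ J : ℕ) : ℝ) ^ d ≤ 16 := by
        push_cast
        rw [div_le_iff₀ (by positivity)]
        have e2 : (M₀ : ℝ) ^ 2 ≤ (2 * 2 ^ J) ^ 2 := pow_le_pow_left₀ (by positivity) e0 2
        have e3 : ((2 : ℝ) ^ J) ^ 2 ≤ (2 ^ J) ^ d :=
          pow_le_pow_right₀ (one_le_pow₀ (by norm_num)) (by omega)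
        nlinarith
      rw [mul_pow, hq2]
      calc 4 * (M₀ : ℝ) ^ 2 / ((2 ^ J : ℕ) : ℝ) ^ d * E' ≤ 16 * E' :=
            mul_le_mul_of_nonneg_right e1 hE0
        _ = _ := by norm_num
    have h4 : |hm (2 ^ J * r) Dm f z - hm (M₀ * r) Dm f z| ≤ 4 * q :=
      abs_le_of_sq_le_sq (h2.trans h3) (by positivity)
    have h5 := hgeo J
    calc |hm (1 * r) Dm f z - hm (M₀ * r) Dm f z|
        ≤ |hm (1 * r) Dm f z - hm (2 ^ J * r) Dm f z| +
          |hm (2 ^ J * r) Dm f z - hm (M₀ * r) Dm f z| := abs_sub_le _ _ _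
      _ ≤ 4 * q * 4 + 4 * q := by
          refine add_le_add (h1.trans ?_) h4
          exact mul_le_mul_of_nonneg_left h5 (by positivity)
      _ = 20 * q := by ring
  obtain ⟨M₁, hM₁⟩ : ∃ M₁ : ℕ, M₁ = M₀ / 4 := ⟨_, rfl⟩
  have hM₁1 : 1 ≤ M₁ := by omega
  have hM₁7 : M₀ ≤ 7 * M₁ := by omega
  have pair : ∀ z z' : Fin d → ZMod L, |hm (1 * r) Dm f z - hm (1 * r) Dm f z'| ≤ 68 * q := by
    intro z z'
    obtain ⟨u, hu1, hu2⟩ := common_box z z' (M₀ * r) (M₁ * r) r hM₀lt (by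
      have : 1 + 2 * M₁ ≤ M₀ := by omega
      calc r + 2 * (M₁ * r) = (1 + 2 * M₁) * r := by ring
        _ ≤ M₀ * r := Nat.mul_le_mul_right r this) hM₀r
    have h3 : 4 * (M₀ : ℝ) ^ 2 / (M₁ : ℝ) ^ d * E' ≤ (14 * q) ^ 2 := by
      have m1 : (1 : ℝ) ≤ M₁ := by exact_mod_cast hM₁1
      have e0 : (M₀ : ℝ) ≤ 7 * M₁ := by exact_mod_cast hM₁7
      have e1 : (4 : ℝ) * (M₀ : ℝ) ^ 2 / (M₁ : ℝ) ^ d ≤ 196 := by
        rw [div_le_iff₀ (by positivity)]
        have e2 : (M₀ : ℝ) ^ 2 ≤ (7 * M₁) ^ 2 := pow_le_pow_left₀ (by positivity) e0 2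
        have e3 : (M₁ : ℝ) ^ 2 ≤ (M₁ : ℝ) ^ d := pow_le_pow_right₀ m1 (by omega)
        nlinarith
      rw [mul_pow, hq2]
      calc 4 * (M₀ : ℝ) ^ 2 / (M₁ : ℝ) ^ d * E' ≤ 196 * E' := mul_le_mul_of_nonneg_right e1 hE0
        _ = _ := by norm_num
    have a1 := step M₁ M₀ hM₁1 (by omega) hM₀r u z hu1
    have a2 := step M₁ M₀ hM₁1 (by omega) hM₀r u z' hu2
    have b1 : |hm (M₁ * r) Dm f u - hm (M₀ * r) Dm f z| ≤ 14 * q :=
      abs_le_of_sq_le_sq (a1.trans h3) (by positivity)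
    have b2 : |hm (M₁ * r) Dm f u - hm (M₀ * r) Dm f z'| ≤ 14 * q :=
      abs_le_of_sq_le_sq (a2.trans h3) (by positivity)
    have c1 := top z
    have c2 := top z'
    rw [abs_le] at *
    constructor <;> linarith [b1.1, b1.2, b2.1, b2.2, c1.1, c1.2, c2.1, c2.2]
  -- conclusion
  have hchi : ∀ z, chi r Dm z ⬝ᵥ f = hm (1 * r) Dm f z := by
    intro z
    unfold dotProduct chi hm
    rw [one_mul, Finset.sum_div]
    rw [← Finset.sum_subset (Finset.subset_univ (box z r \ Dm))]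
    · refine Finset.sum_congr rfl fun x hx => ?_
      rw [if_pos hx]
      ring
    · intro x _ hx
      rw [if_neg hx, zero_mul]
  have hL0 : (0 : ℝ) < (L : ℝ) ^ d := by
    have : (0 : ℝ) < L := by exact_mod_cast Nat.pos_of_ne_zero (NeZero.ne L)
    positivity
  have hcardV : (Fintype.card (Fin d → ZMod L) : ℝ) = (L : ℝ) ^ d := by
    rw [Fintype.card_fun, ZMod.card, Fintype.card_fin]
    push_cast
    rfl
  have hphz : phz r Dm z ⬝ᵥ f =
      (∑ z' : Fin d → ZMod L, (hm (1 * r) Dm f z - hm (1 * r) Dm f z')) / (L : ℝ) ^ d := by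
    have e1 : phz r Dm z ⬝ᵥ f = chi r Dm z ⬝ᵥ f -
        (∑ z' : Fin d → ZMod L, chi r Dm z' ⬝ᵥ f) / (L : ℝ) ^ d := by
      unfold phz dotProduct
      simp only [sub_mul, Finset.sum_sub_distrib]
      congr 1
      rw [Finset.sum_comm, Finset.sum_div]
      refine Finset.sum_congr rfl fun x _ => ?_
      rw [div_mul_eq_mul_div, Finset.sum_mul]
    rw [e1]
    simp only [hchi]
    rw [Finset.sum_sub_distrib, Finset.sum_const, Finset.card_univ, nsmul_eq_mul, hcardV]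
    field_simp
  have hfin : |phz r Dm z ⬝ᵥ f| ≤ 68 * q := by
    rw [hphz, abs_div, abs_of_pos hL0, div_le_iff₀ hL0]
    calc |∑ z' : Fin d → ZMod L, (hm (1 * r) Dm f z - hm (1 * r) Dm f z')|
        ≤ ∑ z' : Fin d → ZMod L, |hm (1 * r) Dm f z - hm (1 * r) Dm f z'| :=
          Finset.abs_sum_le_sum_abs _ _
      _ ≤ ∑ _z' : Fin d → ZMod L, 68 * q := Finset.sum_le_sum fun z' _ => pair z z'
      _ = 68 * q * (L : ℝ) ^ d := by
          rw [Finset.sum_const, Finset.card_univ, nsmul_eq_mul, hcardV]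
          ring
  have hfin2 : (phz r Dm z ⬝ᵥ f) ^ 2 ≤ (68 * q) ^ 2 := sq_le_sq' (abs_le.1 hfin).1 (abs_le.1 hfin).2
  refine hfin2.trans (le_of_eq ?_)
  rw [mul_pow, hq2, hE']
  unfold En
  ring

end torus

end Pool.Agent.J6H44.PL
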