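import Pool.Agent.J6H44.PL.Mid

/-! The Poisson-Dirichlet law for stirring at times between a power of `log L` and `L^(3/2)`. -/

set_option autoImplicit false
set_option linter.unusedSectionVars false
set_option linter.unusedVariables false
set_option maxHeartbeats 1600000

namespace Pool.Agent.J6H44.PL

open Finset Equiv Q292.LC
open Pool.Agent.Y998.ST (stirExp nnRate stirLaw nn_nonneg)
open Pool.Agent.TH268.PD (Cyc cyOf frac top pdm top_lip top_nonneg top_le_one)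
open Pool.Agent.Y998.LP (bfrac NN tdist)

/-- the cycle fractions in a box of side `c √t` and in the torus -/
theorem dv_mid (d : ℕ) (hd : 3 ≤ d) : ∃ a h₀ : ℕ, 1 ≤ a ∧ 1 ≤ h₀ ∧ ∀ h : ℕ, h₀ ≤ h →
    ∀ η : ℝ, 0 < η → ∃ L₀ : ℕ, ∀ (L : ℕ) [NeZero L], L₀ ≤ L → ∀ t : ℝ, (Real.log L) ^ a ≤ t →
    t ^ 2 ≤ (L : ℝ) ^ 3 →
    3 ≤ L ∧ 2 ≤ Real.log L ∧ 1 ≤ Nat.sqrt ⌊t⌋₊ / h ∧ 4 * (Nat.sqrt ⌊t⌋₊ / h) ≤ L ∧
      t ≤ 2 * ⌊t⌋₊ ∧ Real.sqrt ⌊t⌋₊ ≤ 2 * h * ((Nat.sqrt ⌊t⌋₊ / h : ℕ) : ℝ) ∧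
      stirExp (nnRate d L) t (fun g => Dv (Nat.sqrt ⌊t⌋₊ / h) g) ≤ η := by
  obtain ⟨m₁, h₀, hh₀, hdev⟩ := dev d hd
  refine ⟨m₁ + 1, h₀, by omega, hh₀, ?_⟩
  intro h hh η hη
  obtain ⟨L₁, hL₁⟩ := hdev h hh η hη
  refine ⟨max L₁ ⌈Real.exp 2⌉₊, ?_⟩
  intro L _ hL t ht htL
  have hLe : Real.exp 2 ≤ L := by
    have h1 : Real.exp 2 ≤ ⌈Real.exp 2⌉₊ := Nat.le_ceil _
    have h2 : ((⌈Real.exp 2⌉₊ : ℕ) : ℝ) ≤ L := by exact_mod_cast (le_max_right _ _).trans hL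
    linarith
  have hL0 : (0 : ℝ) < L := lt_of_lt_of_le (Real.exp_pos _) hLe
  have hlog : 2 ≤ Real.log L := by
    rw [Real.le_log_iff_exp_le hL0]
    exact hLe
  have hlm : 1 ≤ (Real.log L) ^ m₁ := one_le_pow₀ (by linarith)
  have ht2 : 2 * (Real.log L) ^ m₁ ≤ t := by
    rw [pow_succ] at ht
    nlinarith
  have ht0 : 2 ≤ t := by linarith
  obtain ⟨K, hK⟩ : ∃ K : ℕ, K = ⌊t⌋₊ := ⟨_, rfl⟩
  have hKt : (K : ℝ) ≤ t := by rw [hK]; exact Nat.floor_le (by linarith)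
  have hK2 : t < K + 1 := by rw [hK]; exact Nat.lt_floor_add_one _
  have htK : t ≤ 2 * K := by linarith
  have hK1 : 1 ≤ K := by
    have : (0 : ℝ) < K := by linarith
    exact_mod_cast this
  have hKlog : (Real.log L) ^ m₁ ≤ K := by linarith
  have hKL : K ^ 2 ≤ L ^ 3 := by
    have : (K : ℝ) ^ 2 ≤ (L : ℝ) ^ 3 := (pow_le_pow_left₀ (Nat.cast_nonneg _) hKt 2).trans htL
    exact_mod_cast this
  obtain ⟨⟨a1, a2, a3, a4⟩, a5⟩ := hL₁ L K ((le_max_left _ _).trans hL) hKlog hKL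
  rw [← hK]
  refine ⟨a1, hlog, a2, a3, htK, a4, ?_⟩
  have h1 := Pool.Agent.Q297.LC.stir_le_of_circuit (d := d) (by omega) a1 hK1 hKt htK
    (F := fun g => 1 / 2 * Dv (Nat.sqrt K / h) g) (B := 1 / 2 * η) (by
      intro g
      have h2 := Dv_nonneg (Nat.sqrt K / h) g
      have h3 := Dv_le (Nat.sqrt K / h) a2 (by omega) g
      rw [abs_of_nonneg (by positivity)]
      linarith) (by
      obtain ⟨q₀, hq₀⟩ := a5
      refine ⟨max q₀ 2, fun q hq σ hσ δ h1 h2 => ?_⟩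
      have hq' : (2 : ℝ) ≤ q := by exact_mod_cast (le_max_right _ _).trans hq
      have hδ0 : 0 ≤ δ := by
        by_contra hcon
        push Not at hcon
        nlinarith
      have hδ1 : δ ≤ 1 := by nlinarith
      rw [(Pool.Agent.Q68.LC.bas3 (K * (q * ms d L)) δ hδ0 hδ1).2.2.1 (1 / 2)]
      have := hq₀ q ((le_max_left _ _).trans hq) σ hσ δ h1 h2
      linarith)
  rw [sE_mul] at h1
  linarith

theorem pd_mid (d : ℕ) (hd : 3 ≤ d) : ∃ a : ℕ, 1 ≤ a ∧ ∀ (m : ℕ) (f : (Fin m → ℝ) → ℝ),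
    Continuous f → ∀ C : ℝ, (∀ u, |f u| ≤ C) → ∀ ε : ℝ, 0 < ε → ∃ L₀ : ℕ,
    ∀ (L : ℕ) [NeZero L], L₀ ≤ L → ∀ t : ℝ, (Real.log L) ^ a ≤ t → t ^ 2 ≤ (L : ℝ) ^ 3 →
    |stirExp (nnRate d L) t (fun g => f (fun i : Fin m => top (frac g) i)) - pdm f| ≤ ε := by
  obtain ⟨a, h₀, ha, hh₀, hdv⟩ := dv_mid d hd
  refine ⟨a, ha, ?_⟩
  intro m f hf C hC ε hε
  have hC0 : 0 ≤ C := (abs_nonneg _).trans (hC (fun _ => 0))
  obtain ⟨Ct, hCt, hdist⟩ := Pool.Agent.Y998.LQ.t_dist d (by omega)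
  obtain ⟨δ₀, hδ₀, N₀, hN₀, hpd⟩ := Pool.Agent.Y998.LQ.pd_gen m f hf C hC (ε / 4) (by positivity)
  obtain ⟨θ, hθ, hunif⟩ := unif_cube hf (show 0 < ε / 4 by positivity)
  obtain ⟨h, hh⟩ : ∃ h : ℕ, h = max h₀ ⌈2 * Ct * d / δ₀⌉₊ := ⟨_, rfl⟩
  have hhδ : 2 * Ct * d / δ₀ ≤ h := by
    refine (Nat.le_ceil _).trans ?_
    rw [hh]
    exact_mod_cast le_max_right _ _
  have hh1 : 1 ≤ h := by rw [hh]; exact hh₀.trans (le_max_left _ _)
  have hh0 : (0 : ℝ) < h := by exact_mod_cast hh1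
  obtain ⟨η, hη⟩ : ∃ η : ℝ, η = ε * θ ^ 2 / (8 * (C + 1)) := ⟨_, rfl⟩
  have hη0 : 0 < η := by rw [hη]; positivity
  obtain ⟨L₁, hL₁⟩ := hdv h (by rw [hh]; exact le_max_left _ _) η hη0
  refine ⟨max L₁ ⌈Real.exp (2 * (2 * h * N₀) ^ 2)⌉₊, ?_⟩
  intro L _ hL t ht htL
  obtain ⟨b1, b2, b3, b4, b5, b6, b7⟩ := hL₁ L ((le_max_left _ _).trans hL) t ht htL
  obtain ⟨r, hr⟩ : ∃ r : ℕ, r = Nat.sqrt ⌊t⌋₊ / h := ⟨_, rfl⟩
  rw [← hr] at b3 b4 b6 b7
  have hLe : Real.exp (2 * (2 * h * N₀) ^ 2) ≤ L := by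
    have h1 : Real.exp (2 * (2 * (h : ℝ) * N₀) ^ 2) ≤ ⌈Real.exp (2 * (2 * (h : ℝ) * N₀) ^ 2)⌉₊ :=
      Nat.le_ceil _
    have h2 : ((⌈Real.exp (2 * (2 * (h : ℝ) * N₀) ^ 2)⌉₊ : ℕ) : ℝ) ≤ L := by
      exact_mod_cast (le_max_right _ _).trans hL
    linarith
  have hL0 : (0 : ℝ) < L := lt_of_lt_of_le (Real.exp_pos _) hLe
  have hlog : 2 * (2 * (h : ℝ) * N₀) ^ 2 ≤ Real.log L := by
    rw [Real.le_log_iff_exp_le hL0]
    exact hLe
  have hlt : Real.log L ≤ t := (le_self_pow₀ (by linarith) (by omega)).trans ht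
  have ht0 : 0 < t := by linarith
  have hst : 0 < Real.sqrt t := Real.sqrt_pos.2 ht0
  have hKt : ((⌊t⌋₊ : ℕ) : ℝ) ≤ t := Nat.floor_le ht0.le
  -- the side of the boxes
  have hrt : (r : ℝ) * h ≤ Real.sqrt t := by
    have h1 : r * h ≤ Nat.sqrt ⌊t⌋₊ := by rw [hr]; exact Nat.div_mul_le_self _ _
    have h2 : ((Nat.sqrt ⌊t⌋₊ : ℕ) : ℝ) ≤ Real.sqrt ⌊t⌋₊ := Real.nat_sqrt_le_real_sqrt
    calc (r : ℝ) * h ≤ Nat.sqrt ⌊t⌋₊ := by exact_mod_cast h1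
      _ ≤ Real.sqrt ⌊t⌋₊ := h2
      _ ≤ Real.sqrt t := Real.sqrt_le_sqrt hKt
  have hrN : N₀ ≤ r := by
    have h1 : (2 * (h : ℝ) * N₀) ^ 2 ≤ ⌊t⌋₊ := by linarith
    have h2 : 2 * (h : ℝ) * N₀ ≤ Real.sqrt ⌊t⌋₊ := Real.le_sqrt_of_sq_le h1
    have h3 : 2 * (h : ℝ) * N₀ ≤ 2 * h * r := h2.trans b6
    have h4 : (N₀ : ℝ) ≤ r := le_of_mul_le_mul_left h3 (by positivity)
    exact_mod_cast h4
  have hJ : ∀ x y, 0 ≤ nnRate d L x y := fun x y => nn_nonneg x y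
  have hbox : ∀ z : Fin d → ZMod L, |stirExp (nnRate d L) t
      (fun g => f (fun i : Fin m => top (bfrac (box z r) g) i)) - pdm f| ≤ ε / 4 := by
    intro z
    refine hpd (Fin d → ZMod L) (nnRate d L) hJ t ht0.le (box z r) ?_ ?_
    · rw [Pool.Agent.Q187.LC.Nas.card_box z r (by omega)]
      exact hrN.trans (Nat.le_self_pow (by omega) r)
    · intro x hx y hy
      refine (hdist L b1 t ht0 x y).trans ?_
      rw [div_le_iff₀ hst]
      have h1 := (Pool.Agent.Q257.LC.mem_bal z (d * r) x).1 (Pool.Agent.Q257.LC.box_sub z r hx)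
      have h2 := (Pool.Agent.Q257.LC.mem_bal z (d * r) y).1 (Pool.Agent.Q257.LC.box_sub z r hy)
      have h3 : td x y ≤ 2 * (d * r) := by
        have h4 := Pool.Agent.Q257.LC.td_tri x z y
        rw [Pool.Agent.Q257.LC.td_comm x z] at h4
        omega
      have h5 : (tdist x y : ℝ) ≤ 2 * (d * r) := by
        have h6 : tdist x y = td x y := rfl
        rw [h6]
        exact_mod_cast h3
      have h7 : 2 * Ct * d ≤ δ₀ * h := by
        rw [div_le_iff₀ hδ₀] at hhδ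
        linarith
      calc Ct * (tdist x y : ℝ) ≤ Ct * (2 * (d * r)) := mul_le_mul_of_nonneg_left h5 hCt.le
        _ = (2 * Ct * d) * r := by ring
        _ ≤ (δ₀ * h) * r := mul_le_mul_of_nonneg_right h7 (Nat.cast_nonneg _)
        _ = δ₀ * (r * h) := by ring
        _ ≤ δ₀ * Real.sqrt t := mul_le_mul_of_nonneg_left hrt hδ₀.le
  have hLd : (0 : ℝ) < (L : ℝ) ^ d := by positivity
  -- mean over the boxes
  obtain ⟨H, hH⟩ : ∃ H : (Fin d → ZMod L) → Perm (Fin d → ZMod L) → ℝ,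
    H = fun z g => f (fun i : Fin m => top (bfrac (box z r) g) i) := ⟨_, rfl⟩
  obtain ⟨F, hF⟩ : ∃ F : Perm (Fin d → ZMod L) → ℝ,
    F = fun g => f (fun i : Fin m => top (frac g) i) := ⟨_, rfl⟩
  have e1 : |stirExp (nnRate d L) t (fun g => F g - 1 / (L : ℝ) ^ d * ∑ z, H z g)| ≤
      ε / 4 + 2 * C / θ ^ 2 * η := by
    refine (sE_abs hJ ht0.le (G := fun g => ε / 4 + 2 * C / θ ^ 2 * Dv r g) ?_).trans ?_
    · intro g
      have h1 : F g - 1 / (L : ℝ) ^ d * ∑ z, H z g =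
          1 / (L : ℝ) ^ d * ∑ z : Fin d → ZMod L, (F g - H z g) := by
        rw [Finset.sum_sub_distrib, Finset.sum_const, nsmul_eq_mul, cardV]
        field_simp
      rw [h1, abs_mul, abs_of_pos (show 0 < 1 / (L : ℝ) ^ d by positivity)]
      have h2 : |∑ z : Fin d → ZMod L, (F g - H z g)| ≤
          ∑ z : Fin d → ZMod L, (ε / 4 + 2 * C / θ ^ 2 * Dvz r g z) := by
        refine (Finset.abs_sum_le_sum_abs _ _).trans (Finset.sum_le_sum fun z _ => ?_)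
        rw [hF, hH]
        exact top_close hC (by positivity) hθ hunif r (by omega) g z
      calc 1 / (L : ℝ) ^ d * |∑ z : Fin d → ZMod L, (F g - H z g)|
          ≤ 1 / (L : ℝ) ^ d * ∑ z : Fin d → ZMod L, (ε / 4 + 2 * C / θ ^ 2 * Dvz r g z) :=
            mul_le_mul_of_nonneg_left h2 (by positivity)
        _ = ε / 4 + 2 * C / θ ^ 2 * Dv r g := by
            rw [Finset.sum_add_distrib, ← Finset.mul_sum, Finset.sum_const, nsmul_eq_mul, cardV]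
            unfold Dv
            field_simp
    · rw [sE_add, sE_const, sE_mul]
      have : 0 ≤ 2 * C / θ ^ 2 := by positivity
      have h3 := mul_le_mul_of_nonneg_left b7 this
      linarith
  have e2 : |1 / (L : ℝ) ^ d * ∑ z, stirExp (nnRate d L) t (H z) - pdm f| ≤ ε / 4 := by
    have h1 : 1 / (L : ℝ) ^ d * ∑ z, stirExp (nnRate d L) t (H z) - pdm f =
        1 / (L : ℝ) ^ d * ∑ z : Fin d → ZMod L, (stirExp (nnRate d L) t (H z) - pdm f) := by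
      rw [Finset.sum_sub_distrib, Finset.sum_const, nsmul_eq_mul, cardV]
      field_simp
    rw [h1, abs_mul, abs_of_pos (show 0 < 1 / (L : ℝ) ^ d by positivity)]
    have h2 : |∑ z : Fin d → ZMod L, (stirExp (nnRate d L) t (H z) - pdm f)| ≤
        ∑ _z : Fin d → ZMod L, ε / 4 := by
      refine (Finset.abs_sum_le_sum_abs _ _).trans (Finset.sum_le_sum fun z _ => ?_)
      rw [hH]
      exact hbox z
    calc 1 / (L : ℝ) ^ d * |∑ z : Fin d → ZMod L, (stirExp (nnRate d L) t (H z) - pdm f)|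
        ≤ 1 / (L : ℝ) ^ d * ∑ _z : Fin d → ZMod L, ε / 4 :=
          mul_le_mul_of_nonneg_left h2 (by positivity)
      _ = ε / 4 := by
          rw [Finset.sum_const, nsmul_eq_mul, cardV]
          field_simp
  rw [sE_sub, sE_mul, sE_sum] at e1
  have e3 : 2 * C / θ ^ 2 * η ≤ ε / 4 := by
    rw [hη]
    have h1 : 2 * C / θ ^ 2 * (ε * θ ^ 2 / (8 * (C + 1))) = ε / 4 * (C / (C + 1)) := by
      field_simp
      ring
    rw [h1]
    refine mul_le_of_le_one_right (by positivity) ?_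
    rw [div_le_one (by positivity)]
    linarith
  have e4 := abs_add_le (stirExp (nnRate d L) t (fun g => F g) -
    1 / (L : ℝ) ^ d * ∑ z, stirExp (nnRate d L) t (H z))
    (1 / (L : ℝ) ^ d * ∑ z, stirExp (nnRate d L) t (H z) - pdm f)
  rw [sub_add_sub_cancel] at e4
  have e5 : stirExp (nnRate d L) t (fun g => f (fun i : Fin m => top (frac g) i)) =
      stirExp (nnRate d L) t (fun g => F g) := by rw [hF]
  rw [e5]
  linarith

end Pool.Agent.J6H44.PL
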