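import Pool.Agent.Q277.LC.Pe
import Pool.Agent.Q257.LC.L1
import Pool.Agent.Q257.LC.Peel
import Pool.Agent.Q68.LC.Grn

/-! Project LC: resolvent bound for the unmarked cycles (RES) and energy (ENG). -/

set_option autoImplicit false
set_option linter.unusedSectionVars false
set_option linter.unusedVariables false

namespace Pool.Agent.J6H44.PL

open Finset Equiv Matrix Q292.LC
open Pool.Agent.Q68.LC (SS SS_dg det_ne det_pos agree)
open Pool.Agent.Q257.LC (EE_sum EE_mul EE_sub)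
open Pool.Agent.Q153.LC (mem_cyc self_mem_cyc inv_same cyc_sub cyc_disj cyc_eq)

variable {V : Type} [Fintype V] [DecidableEq V]

theorem det_vmv {M : Matrix V V ℝ} (hM : M.det ≠ 0) (φ : V → ℝ) :
    (M + vecMulVec φ φ).det = M.det * (1 + φ ⬝ᵥ (M⁻¹ *ᵥ φ)) := by
  have h := Matrix.det_add_replicateCol_mul_replicateRow (ι := Unit) (A := M)
    (isUnit_iff_ne_zero.2 hM) φ φ
  rw [show (replicateCol Unit φ * replicateRow Unit φ : Matrix V V ℝ) = vecMulVec φ φ by
    ext a b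
    simp [vecMulVec_apply, Matrix.mul_apply]] at h
  rw [h]
  congr 1
  rw [Matrix.det_unique]
  simp only [Matrix.add_apply, Matrix.one_apply_eq]
  congr 1
  rw [Matrix.mul_assoc, Matrix.mul_apply]
  simp [dotProduct, Matrix.mulVec, Matrix.mul_apply]

theorem pm_mulVec (g : Perm V) (f : V → ℝ) (x : V) : (pm g *ᵥ f) x = f (g x) := by
  simp [pm, Matrix.mulVec, dotProduct]

/-- the solution of the resolvent equation -/
theorem sol_eq {M : Matrix V V ℝ} (hM : M.det ≠ 0) (φ : V → ℝ) :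
    M *ᵥ (M⁻¹ *ᵥ φ) = φ := by
  rw [Matrix.mulVec_mulVec, Matrix.mul_nonsing_inv _ (isUnit_iff_ne_zero.2 hM), Matrix.one_mulVec]

theorem dg_mulVec (S : Finset V) (P : Matrix V V ℝ) (w : ℝ) (f : V → ℝ) (x : V) :
    ((1 - w • (dg S * P)) *ᵥ f) x = f x - w * (if x ∈ S then (P *ᵥ f) x else 0) := by
  rw [Matrix.sub_mulVec, Matrix.one_mulVec, Pi.sub_apply, Matrix.smul_mulVec, Pi.smul_apply,
    smul_eq_mul, ← Matrix.mulVec_mulVec]
  congr 2
  unfold dg
  rw [Matrix.mulVec_diagonal]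
  split_ifs <;> simp

theorem SS_of_DS {P : Matrix V V ℝ} (h0 : ∀ a b, 0 ≤ P a b) (h1 : ∀ a, ∑ b, P a b = 1) : SS P :=
  ⟨h0, fun a => (h1 a).le⟩

/-- the cycle averages are bounded by the resolvent form -/
theorem cyc_avg (g : Perm V) (A : Finset V) (hA : Inv g A) (w : ℝ) (h0 : 0 ≤ w) (h1 : w < 1)
    (φ : V → ℝ) (hφ : ∀ a ∈ A, φ a = 0) :
    ∑ x ∈ univ \ A, ((∑ y ∈ cyc g x, φ y) / ((cyc g x).card : ℝ)) ^ 2 ≤
      (1 - w) * (φ ⬝ᵥ ((1 - w • (dg (univ \ A) * pm g))⁻¹ *ᵥ φ)) := by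
  have hSS : SS (dg (univ \ A) * pm g) :=
    SS_dg (SS_of_DS (Pool.Agent.Q68.LC.pm_nonneg g) (Pool.Agent.Q68.LC.pm_row g)) _
  have hdet := det_ne hSS h0 h1
  obtain ⟨f, hf⟩ : ∃ f : V → ℝ, f = (1 - w • (dg (univ \ A) * pm g))⁻¹ *ᵥ φ := ⟨_, rfl⟩
  have hsol : ∀ x, f x - w * (if x ∈ univ \ A then f (g x) else 0) = φ x := by
    intro x
    have h := sol_eq hdet φ
    rw [← hf] at h
    have h2 := congrFun h x
    rw [dg_mulVec, pm_mulVec] at h2
    exact h2
  have hfA : ∀ a ∈ A, f a = 0 := by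
    intro a ha
    have := hsol a
    rw [if_neg (by simp [ha]), hφ a ha] at this
    linarith
  have hfU : ∀ x ∈ univ \ A, φ x = f x - w * f (g x) := by
    intro x hx
    have := hsol x
    rw [if_pos hx] at this
    exact this.symm
  -- invariance of the complement
  have hginv : ∀ x, g x ∈ A ↔ x ∈ A := by
    intro x
    constructor
    · intro h
      exact inv_same g A hA _ _ h (Perm.sameCycle_apply_left.2 (Perm.SameCycle.refl g x))
    · exact hA x
  have hsumg : ∀ F : V → ℝ, ∑ x ∈ univ \ A, F (g x) = ∑ x ∈ univ \ A, F x := by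
    intro F
    refine Finset.sum_bij' (fun x _ => g x) (fun x _ => g⁻¹ x) ?_ ?_ ?_ ?_ ?_
    · intro x hx
      rw [mem_sdiff] at hx ⊢
      exact ⟨mem_univ _, fun h => hx.2 ((hginv x).1 h)⟩
    · intro x hx
      rw [mem_sdiff] at hx ⊢
      refine ⟨mem_univ _, fun h => hx.2 ?_⟩
      have := (hginv (g⁻¹ x)).2 h
      simpa using this
    · intro x _
      simp
    · intro x _
      simp
    · intro x _
      rfl
  have hcycg : ∀ x, ∀ F : V → ℝ, ∑ y ∈ cyc g x, F (g y) = ∑ y ∈ cyc g x, F y := by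
    intro x F
    refine Finset.sum_bij' (fun x _ => g x) (fun x _ => g⁻¹ x) ?_ ?_ ?_ ?_ ?_
    · intro y hy
      rw [mem_cyc] at hy ⊢
      exact Perm.sameCycle_apply_right.2 hy
    · intro y hy
      rw [mem_cyc] at hy ⊢
      exact Perm.sameCycle_symm_apply_right.2 hy
    · intro x _
      simp
    · intro x _
      simp
    · intro x _
      rfl
  have hcsub : ∀ x ∈ univ \ A, cyc g x ⊆ univ \ A := by
    intro x hx y hy
    rw [mem_sdiff] at hx ⊢
    refine ⟨mem_univ _, fun h => hx.2 ?_⟩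
    rw [mem_cyc] at hy
    exact inv_same g A hA y x h hy.symm
  have hcpos : ∀ x, (0 : ℝ) < ((cyc g x).card : ℝ) := by
    intro x
    exact_mod_cast Finset.card_pos.2 ⟨x, self_mem_cyc g x⟩
  -- mean of φ
  have hmean : ∀ x ∈ univ \ A, ((∑ y ∈ cyc g x, φ y) / ((cyc g x).card : ℝ)) ^ 2 ≤
      (1 - w) ^ 2 * ((∑ y ∈ cyc g x, (f y) ^ 2) / ((cyc g x).card : ℝ)) := by
    intro x hx
    have e1 : ∑ y ∈ cyc g x, φ y = (1 - w) * ∑ y ∈ cyc g x, f y := by
      calc ∑ y ∈ cyc g x, φ y = ∑ y ∈ cyc g x, (f y - w * f (g y)) :=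
            Finset.sum_congr rfl fun y hy => hfU y (hcsub x hx hy)
        _ = ∑ y ∈ cyc g x, f y - w * ∑ y ∈ cyc g x, f (g y) := by
            rw [Finset.sum_sub_distrib, Finset.mul_sum]
        _ = _ := by rw [hcycg x f]; ring
    rw [e1]
    have h2 := sq_sum_le_card_mul_sum_sq (s := cyc g x) (f := f)
    have hc := hcpos x
    rw [mul_div_assoc, mul_pow, div_pow]
    refine mul_le_mul_of_nonneg_left ?_ (sq_nonneg _)
    rw [div_le_div_iff₀ (by positivity) hc]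
    nlinarith
  have hswap : ∑ x ∈ univ \ A, ((∑ y ∈ cyc g x, (f y) ^ 2) / ((cyc g x).card : ℝ)) =
      ∑ x ∈ univ \ A, (f x) ^ 2 := by
    have e1 : ∀ x ∈ univ \ A, ((∑ y ∈ cyc g x, (f y) ^ 2) / ((cyc g x).card : ℝ)) =
        ∑ y ∈ univ \ A, if y ∈ cyc g x then (f y) ^ 2 / ((cyc g y).card : ℝ) else 0 := by
      intro x hx
      rw [← Finset.sum_filter]
      have : (univ \ A).filter (fun y => y ∈ cyc g x) = cyc g x := by
        ext y
        rw [mem_filter]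
        exact ⟨fun h => h.2, fun h => ⟨hcsub x hx h, h⟩⟩
      rw [this, Finset.sum_div]
      refine Finset.sum_congr rfl fun y hy => ?_
      rw [cyc_eq g x y hy]
    rw [Finset.sum_congr rfl e1, Finset.sum_comm]
    refine Finset.sum_congr rfl fun y hy => ?_
    have e2 : ∀ x ∈ univ \ A, (if y ∈ cyc g x then (f y) ^ 2 / ((cyc g y).card : ℝ) else 0) =
        if x ∈ cyc g y then (f y) ^ 2 / ((cyc g y).card : ℝ) else 0 := by
      intro x _
      have : y ∈ cyc g x ↔ x ∈ cyc g y := by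
        rw [mem_cyc, mem_cyc]
        exact ⟨fun h => h.symm, fun h => h.symm⟩
      by_cases h : x ∈ cyc g y
      · rw [if_pos h, if_pos (this.2 h)]
      · rw [if_neg h, if_neg (fun h' => h (this.1 h'))]
    rw [Finset.sum_congr rfl e2, ← Finset.sum_filter]
    have : (univ \ A).filter (fun x => x ∈ cyc g y) = cyc g y := by
      ext x
      rw [mem_filter]
      exact ⟨fun h => h.2, fun h => ⟨hcsub y hy h, h⟩⟩
    rw [this, Finset.sum_const, nsmul_eq_mul]
    have := hcpos y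
    field_simp
  -- lower bound of the resolvent form
  have hdot : φ ⬝ᵥ f = ∑ x ∈ univ \ A, φ x * f x := by
    unfold dotProduct
    symm
    refine Finset.sum_subset (Finset.sdiff_subset) fun x _ hx => ?_
    have : x ∈ A := by
      by_contra h
      exact hx (by simp [h])
    rw [hφ x this, zero_mul]
  have hlow : (1 - w) * ∑ x ∈ univ \ A, (f x) ^ 2 ≤ φ ⬝ᵥ f := by
    rw [hdot]
    have e1 : ∑ x ∈ univ \ A, (f (g x)) ^ 2 = ∑ x ∈ univ \ A, (f x) ^ 2 :=
      hsumg (fun x => (f x) ^ 2)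
    have e2 : ∑ x ∈ univ \ A, ((f x) ^ 2 - w / 2 * ((f x) ^ 2 + (f (g x)) ^ 2)) =
        (1 - w) * ∑ x ∈ univ \ A, (f x) ^ 2 := by
      rw [Finset.sum_sub_distrib, ← Finset.mul_sum, Finset.sum_add_distrib, e1]
      ring
    rw [← e2]
    refine Finset.sum_le_sum fun x hx => ?_
    rw [hfU x hx]
    nlinarith [sq_nonneg (f x - f (g x))]
  have h1w : 0 < 1 - w := by linarith
  rw [← hf]
  calc ∑ x ∈ univ \ A, ((∑ y ∈ cyc g x, φ y) / ((cyc g x).card : ℝ)) ^ 2
      ≤ ∑ x ∈ univ \ A, (1 - w) ^ 2 * ((∑ y ∈ cyc g x, (f y) ^ 2) / ((cyc g x).card : ℝ)) :=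
        Finset.sum_le_sum hmean
    _ = (1 - w) * ((1 - w) * ∑ x ∈ univ \ A, (f x) ^ 2) := by
        rw [← Finset.mul_sum, hswap]
        ring
    _ ≤ (1 - w) * (φ ⬝ᵥ f) := mul_le_mul_of_nonneg_left hlow h1w.le

theorem Inv_iff {e : ℕ → V × V} {n : ℕ} {A : Finset V} {ω ω' : ℕ → Bool}
    (h : ∀ k < n, tch e ω A k → ω k = ω' k) : Inv (gp e ω n) A ↔ Inv (gp e ω' n) A := by
  obtain ⟨h1, _⟩ := agree h
  unfold Q292.LC.Inv
  constructor
  · intro hi a ha
    rw [← h1 n le_rfl a ha]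
    exact hi a ha
  · intro hi a ha
    rw [h1 n le_rfl a ha]
    exact hi a ha

open Classical in
theorem res : S_RES := by
  intro V _ _ e n δ w Λ B φ hδ0 hδ1 hw0 hw1 hΛ hB hφ hφA hres
  have h1w : 0 < 1 - w := by linarith
  -- one set
  have key : ∀ A : Finset V,
      EE n δ (fun ω => if Inv (gp e ω n) A then w ^ A.card * dS w (univ \ A) (pm (gp e ω n)) *
        (if B ω A then ∑ x ∈ univ \ A,
          ((∑ y ∈ cyc (gp e ω n) x, φ ω A y) / ((cyc (gp e ω n) x).card : ℝ)) ^ 2 else 0) else 0) ≤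
      (1 - w) * Λ * EE n δ (fun ω => if Inv (gp e ω n) A then
        w ^ A.card * dS w (univ \ A) (pm (gp e ω n)) else 0) := by
    intro A
    obtain ⟨Θ, hΘ⟩ : ∃ Θ : (ℕ → Bool) → ℝ, Θ = fun ω =>
      if Inv (gp e ω n) A ∧ B ω A then w ^ A.card else 0 := ⟨_, rfl⟩
    have hΘ0 : ∀ ω, 0 ≤ Θ ω := by
      intro ω
      rw [hΘ]
      beta_reduce
      split_ifs <;> positivity
    have hΘm : Rmeas e n A Θ := by
      intro ω ω' h
      rw [hΘ]
      beta_reduce
      have e1 := Inv_iff h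
      have e2 : B ω A = B ω' A := hB A ω ω' h
      simp only [e1, e2]
    have hSP : ∀ ω, SS (dg (univ \ A) * pm (gp e ω n)) := fun ω =>
      SS_dg (SS_of_DS (Pool.Agent.Q68.LC.pm_nonneg _) (Pool.Agent.Q68.LC.pm_row _)) _
    have hST : ∀ ω, SS (dg (univ \ A) * TT e ω A δ n) := fun ω => by
      obtain ⟨a1, a2, _⟩ := Pool.Agent.Q68.LC.bas2 V e ω A δ hδ0 hδ1
      exact SS_dg (SS_of_DS (a1 n) (a2 n)) _
    have hdP : ∀ ω, 0 < dS w (univ \ A) (pm (gp e ω n)) := fun ω => det_pos (hSP ω) hw0 hw1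
    have hdT : ∀ ω, 0 < dS w (univ \ A) (TT e ω A δ n) := fun ω => det_pos (hST ω) hw0 hw1
    obtain ⟨RP, hRP⟩ : ∃ RP : (ℕ → Bool) → ℝ, RP = fun ω =>
      φ ω A ⬝ᵥ ((1 - w • (dg (univ \ A) * pm (gp e ω n)))⁻¹ *ᵥ φ ω A) := ⟨_, rfl⟩
    obtain ⟨RT, hRT⟩ : ∃ RT : (ℕ → Bool) → ℝ, RT = fun ω =>
      φ ω A ⬝ᵥ ((1 - w • (dg (univ \ A) * TT e ω A δ n))⁻¹ *ᵥ φ ω A) := ⟨_, rfl⟩
    have hl1 := Pool.Agent.Q257.LC.l1 V e n δ A Θ
      (fun ω => 1 + vecMulVec (φ ω A) (φ ω A)) (fun _ => -(w • dg (univ \ A))) hδ0 hδ1 hΘm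
      (by
        intro ω ω' h
        have : φ ω A = φ ω' A := hφ A ω ω' h
        simp only [this]) (fun _ _ _ => rfl)
    have hl2 := Pool.Agent.Q257.LC.l1 V e n δ A Θ
      (fun ω => 1) (fun _ => -(w • dg (univ \ A))) hδ0 hδ1 hΘm
      (fun _ _ _ => rfl) (fun _ _ _ => rfl)
    have eP : ∀ ω, ((1 + vecMulVec (φ ω A) (φ ω A)) + -(w • dg (univ \ A)) * pm (gp e ω n)).det =
        dS w (univ \ A) (pm (gp e ω n)) * (1 + RP ω) := by
      intro ω
      rw [hRP]
      unfold dS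
      rw [← det_vmv (det_ne (hSP ω) hw0 hw1)]
      congr 1
      rw [neg_mul, Matrix.smul_mul]
      abel
    have eT : ∀ ω, ((1 + vecMulVec (φ ω A) (φ ω A)) + -(w • dg (univ \ A)) * TT e ω A δ n).det =
        dS w (univ \ A) (TT e ω A δ n) * (1 + RT ω) := by
      intro ω
      rw [hRT]
      unfold dS
      rw [← det_vmv (det_ne (hST ω) hw0 hw1)]
      congr 1
      rw [neg_mul, Matrix.smul_mul]
      abel
    have eP' : ∀ ω, ((1 : Matrix V V ℝ) + -(w • dg (univ \ A)) * pm (gp e ω n)).det =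
        dS w (univ \ A) (pm (gp e ω n)) := by
      intro ω
      unfold dS
      congr 1
      rw [neg_mul, Matrix.smul_mul]
      abel
    have eT' : ∀ ω, ((1 : Matrix V V ℝ) + -(w • dg (univ \ A)) * TT e ω A δ n).det =
        dS w (univ \ A) (TT e ω A δ n) := by
      intro ω
      unfold dS
      congr 1
      rw [neg_mul, Matrix.smul_mul]
      abel
    simp only [eP, eT] at hl1
    simp only [eP', eT'] at hl2
    have hPR : EE n δ (fun ω => Θ ω * (dS w (univ \ A) (pm (gp e ω n)) * RP ω)) =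
        EE n δ (fun ω => Θ ω * (dS w (univ \ A) (TT e ω A δ n) * RT ω)) := by
      have a1 := EE_sub n δ (fun ω => Θ ω * (dS w (univ \ A) (pm (gp e ω n)) * (1 + RP ω)))
        (fun ω => Θ ω * dS w (univ \ A) (pm (gp e ω n)))
      have a2 := EE_sub n δ (fun ω => Θ ω * (dS w (univ \ A) (TT e ω A δ n) * (1 + RT ω)))
        (fun ω => Θ ω * dS w (univ \ A) (TT e ω A δ n))
      have b1 : (fun ω => Θ ω * (dS w (univ \ A) (pm (gp e ω n)) * RP ω)) =
          fun ω => Θ ω * (dS w (univ \ A) (pm (gp e ω n)) * (1 + RP ω)) -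
            Θ ω * dS w (univ \ A) (pm (gp e ω n)) := by
        funext ω
        ring
      have b2 : (fun ω => Θ ω * (dS w (univ \ A) (TT e ω A δ n) * RT ω)) =
          fun ω => Θ ω * (dS w (univ \ A) (TT e ω A δ n) * (1 + RT ω)) -
            Θ ω * dS w (univ \ A) (TT e ω A δ n) := by
        funext ω
        ring
      rw [b1, b2, a1, a2, hl1, hl2]
    -- upper bound
    have hup : EE n δ (fun ω => Θ ω * (dS w (univ \ A) (TT e ω A δ n) * RT ω)) ≤
        Λ * EE n δ (fun ω => Θ ω * dS w (univ \ A) (pm (gp e ω n))) := by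
      rw [hl2, ← EE_mul]
      refine Pool.Agent.Q68.LC.EE_mono hδ0 hδ1 fun ω => ?_
      by_cases hc : Inv (gp e ω n) A ∧ B ω A
      · have h3 : RT ω ≤ Λ := by
          rw [hRT]
          exact hres ω A hc.1 hc.2
        have h4 : 0 ≤ Θ ω * dS w (univ \ A) (TT e ω A δ n) := mul_nonneg (hΘ0 ω) (hdT ω).le
        nlinarith
      · have h3 : Θ ω = 0 := by
          rw [hΘ]
          exact if_neg hc
        rw [h3]
        simp
    have hfin : EE n δ (fun ω => Θ ω * dS w (univ \ A) (pm (gp e ω n))) ≤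
        EE n δ (fun ω => if Inv (gp e ω n) A then
          w ^ A.card * dS w (univ \ A) (pm (gp e ω n)) else 0) := by
      refine Pool.Agent.Q68.LC.EE_mono hδ0 hδ1 fun ω => ?_
      rw [hΘ]
      beta_reduce
      by_cases h1 : Inv (gp e ω n) A
      · rw [if_pos h1]
        by_cases h2 : B ω A
        · rw [if_pos ⟨h1, h2⟩]
        · rw [if_neg (fun h => h2 h.2), zero_mul]
          have := (hdP ω).le
          positivity
      · rw [if_neg (fun h => h1 h.1), if_neg h1, zero_mul]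
    calc EE n δ (fun ω => if Inv (gp e ω n) A then w ^ A.card * dS w (univ \ A) (pm (gp e ω n)) *
        (if B ω A then ∑ x ∈ univ \ A,
          ((∑ y ∈ cyc (gp e ω n) x, φ ω A y) / ((cyc (gp e ω n) x).card : ℝ)) ^ 2 else 0) else 0)
        ≤ EE n δ (fun ω => (1 - w) * (Θ ω * (dS w (univ \ A) (pm (gp e ω n)) * RP ω))) := by
          refine Pool.Agent.Q68.LC.EE_mono hδ0 hδ1 fun ω => ?_
          rw [hΘ]
          beta_reduce
          by_cases h1 : Inv (gp e ω n) A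
          · rw [if_pos h1]
            by_cases h2 : B ω A
            · rw [if_pos h2, if_pos ⟨h1, h2⟩]
              have h3 := cyc_avg (gp e ω n) A h1 w hw0 hw1 (φ ω A) (hφA ω A)
              rw [show φ ω A ⬝ᵥ ((1 - w • (dg (univ \ A) * pm (gp e ω n)))⁻¹ *ᵥ φ ω A) = RP ω by
                rw [hRP]] at h3
              have h4 : 0 ≤ w ^ A.card * dS w (univ \ A) (pm (gp e ω n)) := by
                have := (hdP ω).le
                positivity
              calc _ ≤ w ^ A.card * dS w (univ \ A) (pm (gp e ω n)) * ((1 - w) * RP ω) :=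
                    mul_le_mul_of_nonneg_left h3 h4
                _ = _ := by ring
            · rw [if_neg h2, if_neg (fun h => h2 h.2)]
              simp
          · rw [if_neg h1, if_neg (fun h => h1 h.1)]
            simp
      _ = (1 - w) * EE n δ (fun ω => Θ ω * (dS w (univ \ A) (pm (gp e ω n)) * RP ω)) := EE_mul _ _ _ _
      _ ≤ (1 - w) * (Λ * EE n δ (fun ω => Θ ω * dS w (univ \ A) (pm (gp e ω n)))) := by
          rw [hPR]
          exact mul_le_mul_of_nonneg_left hup h1w.le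
      _ ≤ (1 - w) * (Λ * EE n δ (fun ω => if Inv (gp e ω n) A then
          w ^ A.card * dS w (univ \ A) (pm (gp e ω n)) else 0)) := by
          gcongr
      _ = _ := by ring
  unfold PE
  rw [EE_sum]
  refine (Finset.sum_le_sum fun A _ => key A).trans ?_
  rw [← Finset.mul_sum, ← EE_sum]
  have h1 : EE n δ (fun ω => ∑ A : Finset V, if Inv (gp e ω n) A then
      w ^ A.card * dS w (univ \ A) (pm (gp e ω n)) else 0) = 1 := by
    simp only [Pool.Agent.Q277.LC.wt_sum _ w hw0 hw1]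
    exact Pool.Agent.Q68.LC.EE_const n δ 1
  rw [h1, mul_one]

theorem eng : S_ENG := by
  intro V _ _ e ω A n δ w Λ φ hδ0 hδ1 hw0 hw1 hΛ hφ hyp
  have hw0' : 0 ≤ w := by linarith
  obtain ⟨b1, b2, b3, _⟩ := Pool.Agent.Q68.LC.bas2 V e ω A δ hδ0 hδ1
  have hSS : SS (dg (univ \ A) * TT e ω A δ n) := SS_dg (SS_of_DS (b1 n) (b2 n)) _
  have hdet := det_ne hSS hw0' hw1
  obtain ⟨T, hT⟩ : ∃ T : Matrix V V ℝ, T = TT e ω A δ n := ⟨_, rfl⟩
  rw [← hT] at hyp hdet ⊢
  have hrow : ∀ x, ∑ y, T x y = 1 := by rw [hT]; exact b2 n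
  have hcol : ∀ y, ∑ x, T x y = 1 := by rw [hT]; exact b3 n
  obtain ⟨f, hf⟩ : ∃ f : V → ℝ, f = (1 - w • (dg (univ \ A) * T))⁻¹ *ᵥ φ := ⟨_, rfl⟩
  have hsol : ∀ x, f x - w * (if x ∈ univ \ A then (T *ᵥ f) x else 0) = φ x := by
    intro x
    have h := sol_eq hdet φ
    rw [← hf] at h
    have h2 := congrFun h x
    rw [dg_mulVec] at h2
    exact h2
  have hfA : ∀ a ∈ A, f a = 0 := by
    intro a ha
    have := hsol a
    rw [if_neg (by simp [ha]), hφ a ha] at this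
    linarith
  rw [← hf]
  have hE : ∑ x, ∑ y, T x y * (f x - f y) ^ 2 =
      2 * ∑ x, (f x) ^ 2 - 2 * ∑ x, f x * (T *ᵥ f) x := by
    have e1 : ∀ x, ∑ y, T x y * (f x - f y) ^ 2 =
        (f x) ^ 2 * ∑ y, T x y - 2 * (f x * (T *ᵥ f) x) + ∑ y, T x y * (f y) ^ 2 := by
      intro x
      unfold Matrix.mulVec dotProduct
      rw [Finset.mul_sum, Finset.mul_sum, Finset.mul_sum, ← Finset.sum_sub_distrib,
        ← Finset.sum_add_distrib]
      refine Finset.sum_congr rfl fun y _ => ?_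
      ring
    have e2 : ∑ x, ∑ y, T x y * (f y) ^ 2 = ∑ y, (f y) ^ 2 := by
      rw [Finset.sum_comm]
      refine Finset.sum_congr rfl fun y _ => ?_
      rw [← Finset.sum_mul, hcol, one_mul]
    simp only [e1, hrow, mul_one]
    rw [Finset.sum_add_distrib, Finset.sum_sub_distrib, e2, ← Finset.mul_sum]
    ring
  have hX : φ ⬝ᵥ f = ∑ x, (f x) ^ 2 - w * ∑ x, f x * (T *ᵥ f) x := by
    unfold dotProduct
    rw [Finset.mul_sum, ← Finset.sum_sub_distrib]
    refine Finset.sum_congr rfl fun x _ => ?_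
    by_cases hx : x ∈ A
    · rw [hfA x hx]
      ring
    · rw [← hsol x, if_pos (by simp [hx])]
      ring
  obtain ⟨X, hXd⟩ : ∃ X : ℝ, X = φ ⬝ᵥ f := ⟨_, rfl⟩
  obtain ⟨E, hEd⟩ : ∃ E : ℝ, E = ∑ x, ∑ y, T x y * (f x - f y) ^ 2 := ⟨_, rfl⟩
  obtain ⟨S, hS⟩ : ∃ S : ℝ, S = ∑ x, (f x) ^ 2 := ⟨_, rfl⟩
  obtain ⟨Q, hQ⟩ : ∃ Q : ℝ, Q = ∑ x, f x * (T *ᵥ f) x := ⟨_, rfl⟩
  have hS0 : 0 ≤ S := by
    rw [hS]
    exact Finset.sum_nonneg fun x _ => sq_nonneg _
  have hE0 : 0 ≤ E := by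
    rw [hEd]
    refine Finset.sum_nonneg fun x _ => Finset.sum_nonneg fun y _ => ?_
    refine mul_nonneg ?_ (sq_nonneg _)
    rw [hT]
    exact b1 n x y
  have h1 := hyp f
  rw [← hXd, ← hEd] at h1
  rw [← hEd, ← hS, ← hQ] at hE
  rw [← hXd, ← hS, ← hQ] at hX
  rw [← hXd]
  have h2 : E / 4 ≤ X := by
    have : X = (1 - w) * S + w / 2 * E := by rw [hX, hE]; ring
    rw [this]
    nlinarith
  by_contra hcon
  rw [not_le] at hcon
  have hX0 : 0 < X := lt_of_le_of_lt (by positivity) hcon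
  have h3 : X ^ 2 ≤ 4 * Λ * X := by
    calc X ^ 2 ≤ Λ * E := h1
      _ ≤ Λ * (4 * X) := mul_le_mul_of_nonneg_left (by linarith) hΛ
      _ = _ := by ring
  nlinarith

end Pool.Agent.J6H44.PL
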