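import Pool.Agent.J6H44.PL.Dya
import Pool.Agent.J6H44.PL.Res
import Pool.Agent.J6H44.PL.Cnt
import Pool.Agent.Q292.LC.FinT

/-! Project LC: size of the damaged set and the resolvent form (LAM). -/

set_option autoImplicit false
set_option linter.unusedSectionVars false
set_option linter.unusedVariables false
set_option maxHeartbeats 1600000

namespace Pool.Agent.J6H44.PL

open Finset Equiv Matrix Q292.LC
open Pool.Agent.Q257.LC (natAbs_le_val td_comm mem_bal bal_mono box_sub card_bal_ge cc_nonneg)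

theorem rpow_half (K : ℝ) (hK : 0 ≤ K) (d : ℕ) : K ^ ((d : ℝ) / 2) = (Real.sqrt K) ^ d := by
  rw [Real.sqrt_eq_rpow, ← Real.rpow_natCast, ← Real.rpow_mul hK]
  congr 1
  ring

theorem rpow_half_neg (K : ℝ) (hK : 0 ≤ K) (d : ℕ) :
    K ^ (-((d : ℝ) / 2)) = ((Real.sqrt K) ^ d)⁻¹ := by
  rw [Real.rpow_neg hK, rpow_half K hK]

section torus

variable {d L : ℕ} [NeZero L]

theorem phz_zero (r : ℕ) (Dm : Finset (Fin d → ZMod L)) (z x : Fin d → ZMod L) (hx : x ∈ Dm) :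
    phz r Dm z x = 0 := by
  have h : ∀ z', chi r Dm z' x = 0 := by
    intro z'
    unfold chi
    rw [if_neg]
    simp [hx]
  unfold phz
  simp [h]

/-- the number of damaged points in a ball -/
theorem dmg_card (hd : 1 ≤ d) (hL : 3 ≤ L) (σ : ℕ → (Fin d → ZMod L) × Fin d) (hσ : Per σ)
    (ω : ℕ → Bool) (A : Finset (Fin d → ZMod L)) {δ τ ε N : ℝ} {q K ρ lam r₁ κ₀ B D : ℕ}
    (z : Fin d → ZMod L) (hδ : 0 < δ) (h2 : 2 * d * δ ≤ 1) (h3 : δ * q ≤ 2) (hτ : 0 ≤ τ)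
    (hε : 0 < ε) (hG : Gd σ q K lam r₁ ρ κ₀ ω A) (hK : 0 < K) (hr : d ≤ r₁)
    (htail : ∀ k ≤ K * (q * ms d L), ∀ y, ∑ x ∈ univ.filter (fun x => D < td x y),
      PP (ed ∘ σ) δ k x y ≤ τ)
    (hτA : τ * A.card ≤ 1)
    (hN : ((lam * (2 * ((B + D + ρ + 1) / (r₁ / d)) + 3) ^ d : ℕ) : ℝ) ≤ N) :
    ((Q292.LC.Dmg (ed ∘ σ) ω A δ ε (K * (q * ms d L)) ∩ bal z B).card : ℝ) ≤
      N + (8 * ρ + 16 * d) * (K * (N + 1)) / ε := by
  classical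
  have hδ1 : δ ≤ 1 := by
    have hd' : (1 : ℝ) ≤ d := by exact_mod_cast hd
    nlinarith
  obtain ⟨hE1, hE2, -⟩ := hG
  have hviol : ∀ j < K, ∀ v, ((A.image (gp (ed ∘ σ) ω (j * (q * ms d L)))) ∩ bal v r₁).card ≤
      lam := by
    intro j hj v
    by_contra hcon
    exact hE1 ⟨j, hj, v, not_le.1 hcon⟩
  have hball : ∀ j < K, ∀ v, ((((A.image (gp (ed ∘ σ) ω (j * (q * ms d L)))) ∩
      bal v (B + D + ρ + 1)).card : ℕ) : ℝ) ≤ N := by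
    intro j hj v
    have h := cnt d L hd hL (A.image (gp (ed ∘ σ) ω (j * (q * ms d L)))) r₁ (B + D + ρ + 1) lam hr
      (hviol j hj) v
    exact le_trans (by exact_mod_cast h) hN
  set n := K * (q * ms d L) with hn
  set G := univ.filter (fun x => ε < cc (ed ∘ σ) ω A δ n x) ∩ bal z B with hG
  have hsub : Q292.LC.Dmg (ed ∘ σ) ω A δ ε n ∩ bal z B ⊆ (A ∩ bal z B) ∪ G := by
    intro x hx
    unfold Q292.LC.Dmg at hx
    rw [mem_inter, mem_filter] at hx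
    rw [mem_union, mem_inter, hG, mem_inter, mem_filter]
    tauto
  have hc1 : ((A ∩ bal z B).card : ℝ) ≤ N := by
    have h4 := hball 0 hK z
    rw [Nat.zero_mul] at h4
    have h5 : A.image (gp (ed ∘ σ) ω 0) = A := by simp [gp]
    rw [h5] at h4
    have h6 : (A ∩ bal z B).card ≤ (A ∩ bal z (B + D + ρ + 1)).card :=
      card_le_card (inter_subset_inter_left (bal_mono z (by omega)))
    exact le_trans (by exact_mod_cast h6) h4
  have hc2 : (G.card : ℝ) ≤ (8 * ρ + 16 * d) * (K * (N + 1)) / ε := by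
    rw [le_div_iff₀ hε]
    calc (G.card : ℝ) * ε = ∑ _x ∈ G, ε := by rw [sum_const, nsmul_eq_mul]
      _ ≤ ∑ x ∈ G, cc (ed ∘ σ) ω A δ n x := by
          refine sum_le_sum fun x hx => ?_
          rw [hG, mem_inter, mem_filter] at hx
          exact hx.1.2.le
      _ ≤ ∑ x ∈ bal z B, cc (ed ∘ σ) ω A δ n x :=
          sum_le_sum_of_subset_of_nonneg inter_subset_right
            fun x _ _ => cc_nonneg Pool.Agent.Q68.LC.bas2 _ ω A hδ.le hδ1 n x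
      _ ≤ (8 * ρ + 16 * d) * ∑ j ∈ Finset.range K,
            (((A.image (gp (ed ∘ σ) ω (j * (q * ms d L)))) ∩ bal z (B + D + ρ + 1)).card +
              τ * A.card) :=
          Pool.Agent.Q151.LC.con2 Pool.Agent.Q187.LC.Tch.tch d L hd hL σ hσ ω A δ τ q K ρ B D z hδ
            h2 h3 hτ hE2 htail
      _ ≤ (8 * ρ + 16 * d) * ∑ _j ∈ Finset.range K, (N + 1) := by
          refine mul_le_mul_of_nonneg_left (sum_le_sum fun j hj => ?_) (by positivity)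
          exact add_le_add (hball j (mem_range.1 hj) z) hτA
      _ = (8 * ρ + 16 * d) * (K * (N + 1)) := by
          rw [sum_const, card_range, nsmul_eq_mul]
  calc ((Q292.LC.Dmg (ed ∘ σ) ω A δ ε n ∩ bal z B).card : ℝ) ≤ (((A ∩ bal z B) ∪ G).card : ℝ) := by
        exact_mod_cast card_le_card hsub
    _ ≤ ((A ∩ bal z B).card : ℝ) + G.card := by exact_mod_cast card_union_le _ _
    _ ≤ _ := add_le_add hc1 hc2

end torus

/-- numerical part of the size of the damaged set -/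
theorem num_size (d : ℕ) (hd : 3 ≤ d) (C1 ε : ℝ) (hC1 : 1 ≤ C1) (hε : 0 < ε) (y Z h η : ℝ)
    (lam ρ K r₁ R' r : ℕ) (hy : 1 ≤ y) (hZ : 1 ≤ Z) (hh : 1 ≤ h) (hη : 0 < η)
    (hlam : (lam : ℝ) ≤ Z) (hρ : (ρ : ℝ) ≤ Z) (hK : (K : ℝ) = y ^ 8) (hr₁ : d ≤ r₁)
    (hbig : y ^ 9 ≤ (2 * (r₁ : ℝ)) ^ d) (hsm : (r₁ : ℝ) ≤ y ^ 4 * Z)
    (hR' : (R' : ℝ) ≤ C1 * (y ^ 4 * Z))
    (hX : (1 + 48 * d / ε) * (2 * (2 * (4 * d * C1 + 3))) ^ d * Z ^ (d + 2) * h ^ d ≤ η * y)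
    (hr : y ^ 4 ≤ 2 * h * r) :
    (Z * (2 * (4 * d * C1 + 3) * Z) ^ d * y ^ (4 * d - 9)) +
      (8 * ρ + 16 * d) * (K * ((Z * (2 * (4 * d * C1 + 3) * Z) ^ d * y ^ (4 * d - 9)) + 1)) / ε ≤
      η * (r : ℝ) ^ d ∧
    ((lam * (2 * (R' / (r₁ / d)) + 3) ^ d : ℕ) : ℝ) ≤
      Z * (2 * (4 * d * C1 + 3) * Z) ^ d * y ^ (4 * d - 9) := by
  obtain ⟨C2, hC2⟩ : ∃ C2 : ℝ, C2 = 4 * d * C1 + 3 := ⟨_, rfl⟩
  have hd' : (3 : ℝ) ≤ d := by exact_mod_cast hd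
  have hy0 : 0 < y := by linarith
  have hZ0 : 0 < Z := by linarith
  have hh0 : 0 < h := by linarith
  have hC20 : 1 ≤ C2 := by rw [hC2]; nlinarith
  rw [← hC2] at hX ⊢
  obtain ⟨P, hP⟩ : ∃ P : ℝ, P = Z * (2 * C2 * Z) ^ d * y ^ (4 * d - 9) := ⟨_, rfl⟩
  have hP1 : 1 ≤ P := by
    rw [hP]
    have h1 : 1 ≤ (2 * C2 * Z) ^ d := one_le_pow₀ (by nlinarith)
    have h2 : 1 ≤ y ^ (4 * d - 9) := one_le_pow₀ hy
    calc (1 : ℝ) = 1 * 1 * 1 := by ring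
      _ ≤ _ := by gcongr
  have hPy : y ^ 8 * P = Z * (2 * C2 * Z) ^ d * y ^ (4 * d - 1) := by
    rw [hP, show 4 * d - 1 = 8 + (4 * d - 9) by omega, pow_add]
    ring
  rw [← hP]
  constructor
  · have h1 : P ≤ Z * (y ^ 8 * P) := by
      have : 1 ≤ Z * y ^ 8 := by
        calc (1 : ℝ) = 1 * 1 := by ring
          _ ≤ _ := by gcongr; exact one_le_pow₀ hy
      calc P = 1 * P := by ring
        _ ≤ (Z * y ^ 8) * P := by gcongr
        _ = _ := by ring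
    have h2 : (8 * ρ + 16 * d) * (K * (P + 1)) / ε ≤ (48 * d / ε) * (Z * (y ^ 8 * P)) := by
      have h3 : 8 * (ρ : ℝ) + 16 * d ≤ 24 * d * Z := by nlinarith
      rw [hK, div_mul_eq_mul_div, div_le_div_iff_of_pos_right hε]
      calc (8 * (ρ : ℝ) + 16 * d) * (y ^ 8 * (P + 1)) ≤ (24 * d * Z) * (y ^ 8 * (P + P)) := by
            gcongr
        _ = _ := by ring
    have h3 : P + (8 * ρ + 16 * d) * (K * (P + 1)) / ε ≤ (1 + 48 * d / ε) * (Z * (y ^ 8 * P)) := by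
      calc _ ≤ Z * (y ^ 8 * P) + (48 * d / ε) * (Z * (y ^ 8 * P)) := add_le_add h1 h2
        _ = _ := by ring
    refine h3.trans ?_
    rw [hPy]
    have h4 : y ^ (4 * d) ≤ (2 * h) ^ d * (r : ℝ) ^ d := by
      rw [pow_mul, ← mul_pow]
      exact pow_le_pow_left₀ (by positivity) hr d
    have h5 : y * y ^ (4 * d - 1) = y ^ (4 * d) := by
      rw [← pow_succ']
      congr 1
      omega
    have h6 : (2 * h) ^ d * ((1 + 48 * d / ε) * (Z * (Z * (2 * C2 * Z) ^ d * y ^ (4 * d - 1)))) ≤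
        (2 * h) ^ d * (η * (r : ℝ) ^ d) := by
      calc (2 * h) ^ d * ((1 + 48 * d / ε) * (Z * (Z * (2 * C2 * Z) ^ d * y ^ (4 * d - 1))))
          = ((1 + 48 * d / ε) * (2 * (2 * C2)) ^ d * Z ^ (d + 2) * h ^ d) * y ^ (4 * d - 1) := by
            rw [mul_pow, mul_pow, mul_pow, mul_pow, pow_add]
            ring
        _ ≤ (η * y) * y ^ (4 * d - 1) := by gcongr
        _ = η * y ^ (4 * d) := by rw [mul_assoc, h5]
        _ ≤ η * ((2 * h) ^ d * (r : ℝ) ^ d) := by gcongr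
        _ = _ := by ring
    exact le_of_mul_le_mul_left h6 (by positivity)
  · have hdn : 0 < d := by omega
    have hm1 : 1 ≤ r₁ / d := (Nat.one_le_div_iff hdn).2 hr₁
    have hr0 : (0 : ℝ) < r₁ := by
      have : 0 < r₁ := by omega
      exact_mod_cast this
    have h1 : (r₁ : ℝ) ≤ 2 * d * ((r₁ / d : ℕ) : ℝ) := by
      have h2 := Nat.lt_mul_div_succ r₁ hdn
      have h3 : r₁ ≤ 2 * d * (r₁ / d) := by nlinarith
      exact_mod_cast h3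
    have hm0 : (0 : ℝ) < ((r₁ / d : ℕ) : ℝ) := by
      have : 0 < r₁ / d := by omega
      exact_mod_cast this
    have h2 : ((R' / (r₁ / d) : ℕ) : ℝ) ≤ 2 * d * C1 * (y ^ 4 * Z) / r₁ := by
      refine Nat.cast_div_le.trans ?_
      rw [div_le_div_iff₀ hm0 hr0]
      calc (R' : ℝ) * r₁ ≤ (C1 * (y ^ 4 * Z)) * (2 * d * ((r₁ / d : ℕ) : ℝ)) := by gcongr
        _ = _ := by ring
    have h3 : 2 * ((R' / (r₁ / d) : ℕ) : ℝ) + 3 ≤ C2 * (y ^ 4 * Z) / r₁ := by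
      have h4 : 3 ≤ 3 * (y ^ 4 * Z) / r₁ := by
        rw [le_div_iff₀ hr0]
        linarith
      calc 2 * ((R' / (r₁ / d) : ℕ) : ℝ) + 3 ≤ 2 * (2 * d * C1 * (y ^ 4 * Z) / r₁) +
          3 * (y ^ 4 * Z) / r₁ := by gcongr
        _ = _ := by rw [hC2]; ring
    push_cast
    calc (lam : ℝ) * (2 * ((R' / (r₁ / d) : ℕ) : ℝ) + 3) ^ d
        ≤ Z * (C2 * (y ^ 4 * Z) / r₁) ^ d := by gcongr
      _ ≤ Z * ((2 * C2 * Z) ^ d * y ^ (4 * d) / y ^ 9) := by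
          have h5 : (C2 * (y ^ 4 * Z) / r₁) ^ d = (2 * C2 * Z) ^ d * y ^ (4 * d) / (2 * r₁) ^ d := by
            rw [div_pow, mul_pow, mul_pow, mul_pow, mul_pow, mul_pow, ← pow_mul]
            field_simp
          rw [h5]
          gcongr
      _ = P := by
          rw [hP, show 4 * d = (4 * d - 9) + 9 by omega, pow_add]
          have : y ^ 9 ≠ 0 := by positivity
          rw [show 4 * d - 9 + 9 - 9 = 4 * d - 9 by omega]
          field_simp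

/-- FRE, repeated -/
def FREb (d : ℕ) (C : ℝ) : Prop := ∀ (L : ℕ) [NeZero L], 3 ≤ L → ∀ K : ℕ,
  ∃ q₀ : ℕ, ∀ q ≥ q₀, ∀ σ : ℕ → (Fin d → ZMod L) × Fin d, Per σ → ∀ δ : ℝ,
  1 ≤ δ * q → δ * q ≤ 2 →
  (∀ s ≤ K * q, ∀ x y, PP (ed ∘ σ) δ (s * ms d L) x y ≤
    C * ((1 + s * δ) ^ (-(d / 2 : ℝ)) + 1 / (L : ℝ) ^ d)) ∧
  (∀ u, 1 ≤ u → u ≤ K → ∀ k ≤ u * (q * ms d L), ∀ (D : ℕ) y,
    ∑ x ∈ univ.filter (fun x => D < td x y), PP (ed ∘ σ) δ k x y ≤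
      C * Real.exp (-(D / (C * Real.sqrt u)))) ∧
  (∀ u, 1 ≤ u → u ≤ K → u ≤ L ^ 2 → ∀ x y, (td x y : ℝ) ≤ Real.sqrt u / C →
    (u : ℝ) ^ (-(d / 2 : ℝ)) / C ≤ PP (ed ∘ σ) δ (u * (q * ms d L)) x y)

theorem lam_energy {d : ℕ} (hd : 3 ≤ d) {Cf CD ε : ℝ} (hCf : 1 ≤ Cf) (hCD : 1 ≤ CD)
    (hε : ε = 1 / (8 * Cf * (2 * d * Cf) ^ d)) {L : ℕ} [NeZero L] (hL : 3 ≤ L)
    (hdya : ∀ (L : ℕ) [NeZero L] (r : ℕ),
      1 ≤ r → 4 * r ≤ L → ∀ Dm : Finset (Fin d → ZMod L),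
      (∀ v, 2 * (Dm ∩ box v r).card ≤ r ^ d) → ∀ (f : (Fin d → ZMod L) → ℝ) (z : Fin d → ZMod L),
      (phz r Dm z ⬝ᵥ f) ^ 2 ≤ CD / (r : ℝ) ^ (2 * d) *
        ∑ x, ∑ y, (if x ∉ Dm ∧ y ∉ Dm ∧ td x y ≤ 2 * d * r then (f x - f y) ^ 2 else 0))
    {K r q : ℕ} {σ : ℕ → (Fin d → ZMod L) × Fin d} (hσ : Per σ) {δ : ℝ} (hδ0 : 0 ≤ δ) (hδle : δ ≤ 1)
    (hfc : ∀ x y, (td x y : ℝ) ≤ Real.sqrt K / Cf →
      (K : ℝ) ^ (-(d / 2 : ℝ)) / Cf ≤ PP (ed ∘ σ) δ (K * (q * ms d L)) x y)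
    (ω : ℕ → Bool) (A Dm : Finset (Fin d → ZMod L))
    (hDm : Dm = Q292.LC.Dmg (ed ∘ σ) ω A δ ε (K * (q * ms d L)))
    (hKpos : 0 < K) (hsL : Real.sqrt K ≤ L) (hr1 : 1 ≤ r) (hr4L : 4 * r ≤ L)
    (hrh : 8 * d * Cf * (r : ℝ) ≤ Real.sqrt K)
    (hhalf : ∀ v, 2 * (Dm ∩ box v r).card ≤ r ^ d) (z : Fin d → ZMod L) (w : ℝ) (hw1 : 1 / 2 ≤ w)
    (hw2 : w < 1) :
    phz r Dm z ⬝ᵥ ((1 - w • (dg (univ \ A) * TT (ed ∘ σ) ω A δ (K * (q * ms d L))))⁻¹ *ᵥ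
      phz r Dm z) ≤ (64 * CD * Cf) * (K : ℝ) ^ (d / 2 : ℝ) / (r : ℝ) ^ (2 * d) := by
  have hd' : (3 : ℝ) ≤ d := by exact_mod_cast hd
  have hCf0 : 0 < Cf := by linarith
  have hε0 : 0 < ε := by rw [hε]; positivity
  -- energy
  obtain ⟨ℓ, hℓ⟩ : ∃ ℓ : ℕ, ℓ = ⌊Real.sqrt K / (2 * Cf)⌋₊ := ⟨_, rfl⟩
  have hℓ1 : (ℓ : ℝ) ≤ Real.sqrt K / (2 * Cf) := by
    rw [hℓ]; exact Nat.floor_le (by positivity)
  have hℓ2 : Real.sqrt K / (2 * Cf) < ℓ + 1 := by rw [hℓ]; exact Nat.lt_floor_add_one _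
  have h2dr : 2 * d * r ≤ ℓ := by
    rw [hℓ]
    refine Nat.le_floor ?_
    push_cast
    rw [le_div_iff₀ (by positivity)]
    have hr0 : (0 : ℝ) ≤ r := Nat.cast_nonneg r
    have : 0 ≤ (d : ℝ) * Cf * r := by positivity
    linarith
  obtain ⟨p, hp⟩ : ∃ p : ℝ, p = (K : ℝ) ^ (-(d / 2 : ℝ)) / Cf := ⟨_, rfl⟩
  have hKr : (0 : ℝ) < K := by exact_mod_cast hKpos
  have hp0 : 0 < p := by rw [hp]; positivity
  have hp' : p = 1 / ((Real.sqrt K) ^ d * Cf) := by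
    rw [hp, rpow_half_neg _ hKr.le]
    field_simp
  have hsqK : 0 < Real.sqrt K := Real.sqrt_pos.2 hKr
  have hpp : ∀ x y, td x y ≤ 2 * ℓ → p ≤ PP (ed ∘ σ) δ (K * (q * ms d L)) x y := by
    intro x y' hxy
    rw [hp]
    refine hfc x y' ?_
    have h1 : (td x y' : ℝ) ≤ 2 * ℓ := by exact_mod_cast hxy
    calc (td x y' : ℝ) ≤ 2 * ℓ := h1
      _ ≤ 2 * (Real.sqrt K / (2 * Cf)) := by gcongr
      _ = _ := by field_simp
  have hcard : 8 * ε ≤ p * (bal (0 : Fin d → ZMod L) ℓ).card := by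
    have hdn : 0 < d := by omega
    have hs1 : d * (ℓ / d) ≤ ℓ := Nat.mul_div_le ℓ d
    have hs2 : ℓ / d < L := by
      have h1 : (ℓ : ℝ) < L := by
        have hL0 : (0 : ℝ) < L := lt_of_lt_of_le hsqK hsL
        have h2 : Real.sqrt K / (2 * Cf) ≤ L / 2 := by
          rw [div_le_div_iff₀ (by positivity) (by norm_num)]
          nlinarith
        linarith
      have h2 : ℓ < L := by exact_mod_cast h1
      exact lt_of_le_of_lt (Nat.div_le_self _ _) h2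
    have h1 := card_bal_ge (d := d) (L := L) ℓ (ℓ / d) hs1 hs2
    have h2 : Real.sqrt K / (2 * d * Cf) ≤ ((ℓ / d + 1 : ℕ) : ℝ) := by
      have h3 : ℓ + 1 ≤ d * (ℓ / d + 1) := Nat.lt_mul_div_succ ℓ hdn
      have h4 : (ℓ : ℝ) + 1 ≤ d * ((ℓ / d + 1 : ℕ) : ℝ) := by exact_mod_cast h3
      rw [div_le_iff₀ (by positivity)]
      rw [div_lt_iff₀ (by positivity)] at hℓ2
      nlinarith
    have h3 : (Real.sqrt K / (2 * d * Cf)) ^ d ≤ ((bal (0 : Fin d → ZMod L) ℓ).card : ℝ) := by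
      calc (Real.sqrt K / (2 * d * Cf)) ^ d ≤ ((ℓ / d + 1 : ℕ) : ℝ) ^ d := by gcongr
        _ ≤ _ := by exact_mod_cast h1
    calc 8 * ε = p * (Real.sqrt K / (2 * d * Cf)) ^ d := by
          rw [hp', hε, div_pow]
          field_simp
      _ ≤ _ := by gcongr
  have hDmc : ∀ x, x ∉ Dm → x ∉ A ∧ cc (ed ∘ σ) ω A δ (K * (q * ms d L)) x ≤ ε := by
    intro x hx
    rw [hDm] at hx
    unfold Q292.LC.Dmg at hx
    rw [mem_filter, not_and, not_or] at hx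
    have := hx (mem_univ _)
    exact ⟨this.1, not_lt.1 this.2⟩
  have hADm : ∀ a ∈ A, phz r Dm z a = 0 := by
    intro a ha
    refine phz_zero r Dm z a ?_
    by_contra hcon
    exact (hDmc a hcon).1 ha
  have hrpos : (0 : ℝ) < r := by exact_mod_cast hr1
  obtain ⟨Λ, hΛ⟩ : ∃ Λ : ℝ, Λ = 16 * CD * Cf * (Real.sqrt K) ^ d / (r : ℝ) ^ (2 * d) := ⟨_, rfl⟩
  have hΛ0 : 0 ≤ Λ := by rw [hΛ]; positivity
  have hen := eng (Fin d → ZMod L) (ed ∘ σ) ω A (K * (q * ms d L)) δ w Λ (phz r Dm z) hδ0 hδle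
    hw1 hw2 hΛ0 hADm ?_
  · refine hen.trans ?_
    rw [hΛ, rpow_half _ hKr.le]
    exact le_of_eq (by ring)
  · intro f
    have h1 := hdya L r hr1 hr4L Dm hhalf f z
    have h2 := (Pool.Agent.Q151.LC.nea d L (by omega) hL σ hσ ω A Dm δ ε p (K * (q * ms d L)) ℓ
      hδ0 hδle hp0 hε0.le hpp hDmc hcard f).2
    obtain ⟨E, hE⟩ : ∃ E : ℝ, E = ∑ x, ∑ y,
      TT (ed ∘ σ) ω A δ (K * (q * ms d L)) x y * (f x - f y) ^ 2 := ⟨_, rfl⟩
    rw [← hE] at h2 ⊢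
    obtain ⟨S1, hS1⟩ : ∃ S1 : ℝ, S1 = ∑ x, ∑ y,
      (if x ∉ Dm ∧ y ∉ Dm ∧ td x y ≤ ℓ then (f x - f y) ^ 2 else 0) := ⟨_, rfl⟩
    obtain ⟨S2, hS2⟩ : ∃ S2 : ℝ, S2 = ∑ x, ∑ y,
      (if x ∉ Dm ∧ y ∉ Dm ∧ td x y ≤ 2 * d * r then (f x - f y) ^ 2 else 0) := ⟨_, rfl⟩
    rw [← hS1] at h2
    rw [← hS2] at h1
    have h12 : S2 ≤ S1 := by
      rw [hS1, hS2]
      refine sum_le_sum fun x _ => sum_le_sum fun y _ => ?_
      by_cases hc : x ∉ Dm ∧ y ∉ Dm ∧ td x y ≤ 2 * d * r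
      · rw [if_pos hc, if_pos ⟨hc.1, hc.2.1, hc.2.2.trans h2dr⟩]
      · rw [if_neg hc]
        split_ifs
        · exact sq_nonneg _
        · exact le_rfl
    have h3 : S2 ≤ 16 / p * E := by
      rw [div_mul_eq_mul_div, le_div_iff₀ hp0]
      nlinarith
    calc (phz r Dm z ⬝ᵥ f) ^ 2 ≤ CD / (r : ℝ) ^ (2 * d) * S2 := h1
      _ ≤ CD / (r : ℝ) ^ (2 * d) * (16 / p * E) := by gcongr
      _ = Λ * E := by
          rw [hΛ, hp']
          field_simp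

theorem lam_t : S_LAM := by
  intro d hd
  obtain ⟨Cf, hCf, hfre⟩ := Pool.Agent.Q257.LC.fre d (by omega)
  obtain ⟨CD, hCD, hdya⟩ := dya d hd
  have hd' : (3 : ℝ) ≤ d := by exact_mod_cast hd
  have hCf0 : 0 < Cf := by linarith
  have hlog : 0 ≤ Real.log Cf := Real.log_nonneg hCf
  obtain ⟨ε, hε⟩ : ∃ ε : ℝ, ε = 1 / (8 * Cf * (2 * d * Cf) ^ d) := ⟨_, rfl⟩
  have hε0 : 0 < ε := by rw [hε]; positivity
  obtain ⟨C1, hC1⟩ : ∃ C1 : ℝ, C1 = d + Cf * (1 + Real.log Cf) + 3 := ⟨_, rfl⟩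
  have hC11 : 1 ≤ C1 := by
    rw [hC1]
    have : 0 ≤ Cf * (1 + Real.log Cf) := by positivity
    linarith
  obtain ⟨C, hC⟩ := exists_nat_ge (max (8 * d * Cf) (max (64 * CD * Cf)
    ((1 + 48 * d / ε) * (2 * (2 * (4 * d * C1 + 3))) ^ d)))
  have hCa : 8 * d * Cf ≤ C := (le_max_left _ _).trans hC
  have hCb : 64 * CD * Cf ≤ C := (le_max_left _ _).trans ((le_max_right _ _).trans hC)
  have hCc : (1 + 48 * d / ε) * (2 * (2 * (4 * d * C1 + 3))) ^ d ≤ C :=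
    (le_max_right _ _).trans ((le_max_right _ _).trans hC)
  have hC24 : (24 : ℝ) ≤ C := by nlinarith
  refine ⟨C, ε, ?_, hε0, ?_⟩
  · have : (1 : ℝ) ≤ C := by linarith
    exact_mod_cast this
  intro h hh Z hZ η hη hη2 L K lam r₁ ρ κ₀ _ hlam hρ hexp hL hKL hr₁ hbig hsm hKbig
  obtain ⟨q₀, hq₀⟩ := hfre L hL K
  refine ⟨q₀ + 4 * d + 2, ?_⟩
  intro q hq σ hσ δ hδ1 hδ2 ω A hG r hr Dm hDm
  have hqpos : (0 : ℝ) < q := by
    have : 0 < q := by omega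
    exact_mod_cast this
  have hq4 : (4 * d + 2 : ℝ) ≤ q := by
    have : 4 * d + 2 ≤ q := by omega
    exact_mod_cast this
  have hδ0 : 0 < δ := by
    by_contra hcon
    rw [not_lt] at hcon
    nlinarith
  have hδd : 2 * d * δ ≤ 1 := by
    have h1 : δ * (4 * d + 2) ≤ 2 := (mul_le_mul_of_nonneg_left hq4 hδ0.le).trans hδ2
    nlinarith
  have hδle : δ ≤ 1 := by nlinarith
  obtain ⟨hfa, hfb, hfc⟩ := hq₀ q (by omega) σ hσ δ hδ1 hδ2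
  -- real quantities
  obtain ⟨y, hy⟩ : ∃ y : ℝ, y = (K : ℝ) ^ (((8 : ℕ) : ℝ)⁻¹) := ⟨_, rfl⟩
  have hy0 : 0 ≤ y := by rw [hy]; positivity
  have hy8 : (K : ℝ) = y ^ 8 := by
    rw [hy, Real.rpow_inv_natCast_pow (Nat.cast_nonneg K) (by norm_num)]
  have hs : Real.sqrt K = y ^ 4 := by
    rw [hy8, show y ^ 8 = (y ^ 4) ^ 2 by ring, Real.sqrt_sq (by positivity)]
  have hZ1 : (1 : ℝ) ≤ Z := by exact_mod_cast hZ
  have hh24 : (24 : ℝ) ≤ h := by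
    have : (C : ℝ) ≤ h := by exact_mod_cast hh
    linarith
  have hCh : (C : ℝ) ≤ h := by exact_mod_cast hh
  have hXy : (C : ℝ) * (Z : ℝ) ^ (d + 2) * (h : ℝ) ^ d / η ≤ y := by
    have h1 : ((C : ℝ) * (Z : ℝ) ^ (d + 2) * (h : ℝ) ^ d / η) ^ 8 ≤ y ^ 8 := by rw [← hy8]; exact hKbig
    exact le_of_pow_le_pow_left₀ (by norm_num) hy0 h1
  have hXy' : (C : ℝ) * (Z : ℝ) ^ (d + 2) * (h : ℝ) ^ d ≤ η * y := by
    rw [div_le_iff₀ hη] at hXy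
    linarith
  have hhd : (h : ℝ) ≤ (h : ℝ) ^ d := le_self_pow₀ (by linarith) (by omega)
  have hCh2 : 2 * C * (h : ℝ) ≤ y := by
    have h1 : (C : ℝ) * 1 * h ≤ (C : ℝ) * (Z : ℝ) ^ (d + 2) * (h : ℝ) ^ d := by
      gcongr
      exact one_le_pow₀ hZ1
    have h2 : η * y ≤ 1 / 2 * y := by gcongr
    linarith
  have hhy : (h : ℝ) ≤ y := by nlinarith
  have hy1 : 1 ≤ y := by linarith
  have hy4 : y ≤ y ^ 4 := le_self_pow₀ hy1 (by norm_num)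
  have hy4p : 0 < y ^ 4 := by positivity
  have hKpos : 0 < K := by
    have : (0 : ℝ) < K := by rw [hy8]; positivity
    exact_mod_cast this
  have hh0 : 0 < h := by
    have : (0 : ℝ) < h := by linarith
    exact_mod_cast this
  -- r
  have hKh : h ^ 2 ≤ K := by
    have : ((h ^ 2 : ℕ) : ℝ) ≤ K := by
      push_cast
      rw [hy8]
      calc (h : ℝ) ^ 2 ≤ y ^ 2 := by gcongr
        _ ≤ y ^ 8 := pow_le_pow_right₀ hy1 (by norm_num)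
    exact_mod_cast this
  have hsq : h ≤ Nat.sqrt K := by
    rw [Nat.le_sqrt]
    nlinarith
  have hr1 : 1 ≤ r := by
    rw [hr]
    exact (Nat.one_le_div_iff hh0).2 hsq
  have hsqs : (Nat.sqrt K : ℝ) ≤ Real.sqrt K := Real.nat_sqrt_le_real_sqrt
  have hsL : Real.sqrt K ≤ L := by
    rw [Real.sqrt_le_left (by positivity)]
    exact_mod_cast hKL
  have hrh : (r : ℝ) * h ≤ Real.sqrt K := by
    have : r * h ≤ Nat.sqrt K := by rw [hr]; exact Nat.div_mul_le_self _ _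
    exact le_trans (by exact_mod_cast this) hsqs
  have hr4L : 4 * r ≤ L := by
    have : 4 * (r : ℝ) ≤ L := by
      have hr0 : (0 : ℝ) ≤ r := Nat.cast_nonneg r
      nlinarith
    exact_mod_cast this
  have hr2h : Real.sqrt K ≤ 2 * h * r := by
    have h1 : Real.sqrt K ≤ (Nat.sqrt K : ℝ) + 1 := Real.real_sqrt_le_nat_sqrt_succ
    have h2 : Nat.sqrt K + 1 ≤ h * (r + 1) := by
      rw [hr]
      exact Nat.lt_mul_div_succ _ hh0
    have h3 : (Nat.sqrt K : ℝ) + 1 ≤ h * (r + 1) := by exact_mod_cast h2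
    have hr1' : (1 : ℝ) ≤ r := by exact_mod_cast hr1
    nlinarith
  -- size of Dm
  obtain ⟨D, hD⟩ : ∃ D : ℕ, D = ⌈Cf * y ^ 4 * (Z + Real.log Cf)⌉₊ := ⟨_, rfl⟩
  have hD1 : Cf * y ^ 4 * (Z + Real.log Cf) ≤ D := by rw [hD]; exact Nat.le_ceil _
  have hD2 : (D : ℝ) ≤ Cf * y ^ 4 * (Z + Real.log Cf) + 1 := by
    rw [hD]
    exact (Nat.ceil_lt_add_one (by positivity)).le
  have hR' : ((d * r + D + ρ + 1 : ℕ) : ℝ) ≤ C1 * (y ^ 4 * Z) := by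
    push_cast
    have h1 : (r : ℝ) ≤ y ^ 4 * Z := by
      have hr0 : (0 : ℝ) ≤ r := Nat.cast_nonneg r
      rw [hs] at hrh
      nlinarith
    have h2 : (ρ : ℝ) ≤ Z := by exact_mod_cast hρ
    have h3 : (Z : ℝ) ≤ y ^ 4 * Z := by nlinarith
    have h4 : 1 ≤ y ^ 4 * Z := by nlinarith
    have h5 : Cf * y ^ 4 * (Z + Real.log Cf) ≤ Cf * (1 + Real.log Cf) * (y ^ 4 * Z) := by
      have : (Z : ℝ) + Real.log Cf ≤ (1 + Real.log Cf) * Z := by nlinarith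
      calc Cf * y ^ 4 * (Z + Real.log Cf) ≤ Cf * y ^ 4 * ((1 + Real.log Cf) * Z) := by gcongr
        _ = _ := by ring
    rw [hC1]
    have h6 : (d : ℝ) * r ≤ d * (y ^ 4 * Z) := by gcongr
    calc (d : ℝ) * r + D + ρ + 1 ≤ d * (y ^ 4 * Z) + (Cf * (1 + Real.log Cf) * (y ^ 4 * Z) +
        y ^ 4 * Z) + y ^ 4 * Z + y ^ 4 * Z := by linarith
      _ = _ := by ring
  have hbig' : y ^ 9 ≤ (2 * (r₁ : ℝ)) ^ d := by
    have h1 : (K : ℝ) ^ 9 ≤ (2 * (r₁ : ℝ)) ^ (8 * d) := by exact_mod_cast hbig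
    rw [hy8, show (y ^ 8) ^ 9 = (y ^ 9) ^ 8 by ring, show 8 * d = d * 8 by ring, pow_mul] at h1
    exact le_of_pow_le_pow_left₀ (by norm_num) (by positivity) h1
  have hsm' : (r₁ : ℝ) ≤ y ^ 4 * Z := by
    have h1 : (r₁ : ℝ) ^ 2 ≤ (y ^ 4 * Z) ^ 2 := by
      have h2 : (r₁ : ℝ) ^ 2 ≤ K * (Z : ℝ) ^ 2 := by exact_mod_cast hsm
      rw [hy8] at h2
      calc (r₁ : ℝ) ^ 2 ≤ y ^ 8 * (Z : ℝ) ^ 2 := h2
        _ = _ := by ring
    exact le_of_pow_le_pow_left₀ (by norm_num) (by positivity) h1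
  have hX' : (1 + 48 * d / ε) * (2 * (2 * (4 * d * C1 + 3))) ^ d * (Z : ℝ) ^ (d + 2) *
      (h : ℝ) ^ d ≤ η * y := by
    refine le_trans ?_ hXy'
    gcongr
  have hr2h' : y ^ 4 ≤ 2 * (h : ℝ) * r := by rw [← hs]; exact hr2h
  obtain ⟨hn1, hn2⟩ := num_size d hd C1 ε hC11 hε0 y Z h η lam ρ K r₁ (d * r + D + ρ + 1) r hy1 hZ1
    (by linarith) hη (by exact_mod_cast hlam) (by exact_mod_cast hρ) hy8 hr₁ hbig' hsm' hR' hX' hr2h'
  have hτA : Cf * Real.exp (-(D / (Cf * Real.sqrt K))) * A.card ≤ 1 := by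
    have h1 : Z + Real.log Cf ≤ D / (Cf * Real.sqrt K) := by
      rw [le_div_iff₀ (by rw [hs]; positivity), hs]
      linarith
    have h2 : Real.exp (-(D / (Cf * Real.sqrt K))) ≤ Real.exp (-Z) / Cf := by
      calc Real.exp (-(D / (Cf * Real.sqrt K))) ≤ Real.exp (-(Z + Real.log Cf)) :=
            Real.exp_le_exp.2 (by linarith)
        _ = _ := by
            rw [neg_add, Real.exp_add, Real.exp_neg (Real.log Cf), Real.exp_log hCf0]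
            rfl
    have h3 : (A.card : ℝ) ≤ Real.exp Z := by
      refine le_trans ?_ hexp
      have h4 : A.card ≤ L ^ d := by
        refine (Finset.card_le_univ _).trans ?_
        simp [ZMod.card]
      exact_mod_cast h4
    calc Cf * Real.exp (-(D / (Cf * Real.sqrt K))) * A.card
        ≤ Cf * (Real.exp (-Z) / Cf) * Real.exp Z :=
          mul_le_mul (mul_le_mul_of_nonneg_left h2 hCf0.le) h3 (Nat.cast_nonneg _)
            (mul_nonneg hCf0.le (div_nonneg (Real.exp_pos _).le hCf0.le))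
      _ = Real.exp (-Z) * Real.exp Z := by rw [← mul_div_assoc, mul_div_cancel_left₀ _ hCf0.ne']
      _ = 1 := by rw [← Real.exp_add, neg_add_cancel, Real.exp_zero]
  have hsize : ∀ v, ((Dm ∩ box v r).card : ℝ) ≤ η * (r : ℝ) ^ d := by
    intro v
    have h1 := dmg_card (N := Z * (2 * (4 * d * C1 + 3) * Z) ^ d * y ^ (4 * d - 9)) (B := d * r)
      (D := D) (by omega) hL σ hσ ω A v hδ0 hδd hδ2 (τ := Cf * Real.exp (-(D / (Cf * Real.sqrt K))))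
      (by positivity) hε0 hG hKpos hr₁
      (fun k hk x => hfb K (by omega) le_rfl k hk D x) hτA hn2
    rw [← hDm] at h1
    have h2 : (Dm ∩ box v r).card ≤ (Dm ∩ bal v (d * r)).card :=
      card_le_card (inter_subset_inter_left (box_sub v r))
    calc ((Dm ∩ box v r).card : ℝ) ≤ (Dm ∩ bal v (d * r)).card := by exact_mod_cast h2
      _ ≤ _ := h1
      _ ≤ _ := hn1
  refine ⟨hr1, hr4L, hr2h, hsize, ?_⟩
  intro z w hw1 hw2
  have hhalf : ∀ v, 2 * (Dm ∩ box v r).card ≤ r ^ d := by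
    intro v
    have h1 := hsize v
    have h2 : 2 * ((Dm ∩ box v r).card : ℝ) ≤ (r : ℝ) ^ d := by
      have h3 : 0 ≤ (r : ℝ) ^ d := by positivity
      nlinarith
    exact_mod_cast h2
  have hKr : (0 : ℝ) < K := by exact_mod_cast hKpos
  have hrpos : (0 : ℝ) < r := by exact_mod_cast hr1
  refine (lam_energy hd hCf hCD hε hL (fun L _ => hdya L) hσ hδ0.le hδle
    (fun x y hxy => hfc K (by omega) le_rfl hKL x y hxy) ω A Dm hDm hKpos hsL hr1 hr4L ?_ hhalf z w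
    hw1 hw2).trans ?_
  · refine le_trans ?_ hrh
    rw [mul_comm (r : ℝ)]
    gcongr
    linarith
  · gcongr

end Pool.Agent.J6H44.PL
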