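import Pool.Agent.J6H44.PL.Dev
import Pool.Agent.Y998.LQ.Final
import Pool.Agent.TH268.PD.TopLip

/-! The Poisson-Dirichlet law for stirring at times between a power of `log L` and `L^(3/2)`. -/

set_option autoImplicit false
set_option linter.unusedSectionVars false
set_option linter.unusedVariables false
set_option maxHeartbeats 1600000

namespace Pool.Agent.J6H44.PL

open Finset Equiv Q292.LC
open Pool.Agent.Y998.ST (stirExp nnRate stirLaw)
open Pool.Agent.TH268.PD (Cyc cyOf frac top pdm top_lip top_nonneg top_le_one)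
open Pool.Agent.Y998.LP (bfrac NN tdist)
open Pool.Agent.Q153.LC (mem_cyc self_mem_cyc cyc_eq)

section sexp

variable {V : Type} [Fintype V] [DecidableEq V]

theorem sE_mono {J : V → V → ℝ} (hJ : ∀ x y, 0 ≤ J x y) {t : ℝ} (ht : 0 ≤ t) {F G : Perm V → ℝ}
    (h : ∀ g, F g ≤ G g) : stirExp J t F ≤ stirExp J t G :=
  Finset.sum_le_sum fun g _ =>
    mul_le_mul_of_nonneg_left (h g) (Pool.Agent.Y998.ST.law_nonneg hJ ht g)

theorem sE_add (J : V → V → ℝ) (t : ℝ) (F G : Perm V → ℝ) :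
    stirExp J t (fun g => F g + G g) = stirExp J t F + stirExp J t G := by
  unfold stirExp
  rw [← Finset.sum_add_distrib]
  exact Finset.sum_congr rfl fun g _ => by ring

theorem sE_sub (J : V → V → ℝ) (t : ℝ) (F G : Perm V → ℝ) :
    stirExp J t (fun g => F g - G g) = stirExp J t F - stirExp J t G := by
  unfold stirExp
  rw [← Finset.sum_sub_distrib]
  exact Finset.sum_congr rfl fun g _ => by ring

theorem sE_mul (J : V → V → ℝ) (t c : ℝ) (F : Perm V → ℝ) :
    stirExp J t (fun g => c * F g) = c * stirExp J t F := by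
  unfold stirExp
  rw [Finset.mul_sum]
  exact Finset.sum_congr rfl fun g _ => by ring

theorem sE_const (J : V → V → ℝ) (t c : ℝ) : stirExp J t (fun _ => c) = c := by
  unfold stirExp
  rw [← Finset.sum_mul, Pool.Agent.Y998.CN.law_sum, one_mul]

theorem sE_sum (J : V → V → ℝ) (t : ℝ) {ι : Type} (s : Finset ι) (F : ι → Perm V → ℝ) :
    stirExp J t (fun g => ∑ i ∈ s, F i g) = ∑ i ∈ s, stirExp J t (F i) := by
  unfold stirExp
  rw [Finset.sum_comm]
  exact Finset.sum_congr rfl fun g _ => by rw [Finset.mul_sum]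

theorem sE_abs {J : V → V → ℝ} (hJ : ∀ x y, 0 ≤ J x y) {t : ℝ} (ht : 0 ≤ t) {F G : Perm V → ℝ}
    (h : ∀ g, |F g| ≤ G g) : |stirExp J t F| ≤ stirExp J t G := by
  rw [abs_le]
  constructor
  · have h1 := sE_mono hJ ht (F := fun g => (-1) * G g) (G := F)
      (fun g => by have := (abs_le.1 (h g)).1; linarith)
    rw [sE_mul] at h1
    linarith
  · exact sE_mono hJ ht fun g => (abs_le.1 (h g)).2

end sexp

section torus

variable {d L : ℕ} [NeZero L]

theorem cyc_nat (g : Perm (Fin d → ZMod L)) (B : Finset (Fin d → ZMod L)) (x : Fin d → ZMod L) :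
    Nat.card {v : Fin d → ZMod L // v ∈ B ∧ cyOf g v = cyOf g x} = ((cyc g x) ∩ B).card := by
  classical
  rw [Nat.card_eq_fintype_card, Fintype.card_subtype]
  congr 1
  ext v
  rw [mem_filter, mem_inter, mem_cyc]
  have h1 : cyOf g v = cyOf g x ↔ g.SameCycle v x := Quotient.eq
  rw [h1]
  constructor
  · rintro ⟨_, h2, h3⟩
    exact ⟨h3.symm, h2⟩
  · rintro ⟨h3, h2⟩
    exact ⟨mem_univ _, h2, h3.symm⟩

theorem cyc_nat' (g : Perm (Fin d → ZMod L)) (x : Fin d → ZMod L) :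
    Nat.card {v : Fin d → ZMod L // cyOf g v = cyOf g x} = (cyc g x).card := by
  have h1 := cyc_nat g univ x
  rw [Finset.inter_univ] at h1
  rw [← h1]
  exact Nat.card_congr (Equiv.subtypeEquivRight fun v => by simp)

theorem dev_sq (r : ℕ) (hrL : r ≤ L) (g : Perm (Fin d → ZMod L)) (z : Fin d → ZMod L)
    (γ : Cyc g) : (bfrac (box z r) g γ - frac g γ) ^ 2 ≤ Dvz r g z := by
  obtain ⟨x, rfl⟩ : ∃ x, cyOf g x = γ := Quotient.exists_rep γ
  have e1 : bfrac (box z r) g (cyOf g x) = (((cyc g x) ∩ box z r).card : ℝ) / (r : ℝ) ^ d := by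
    unfold bfrac
    rw [cyc_nat, Pool.Agent.Q187.LC.Nas.card_box z r hrL, Nat.cast_pow]
  have e2 : frac g (cyOf g x) = ((cyc g x).card : ℝ) / (L : ℝ) ^ d := by
    unfold frac
    rw [cyc_nat', Fintype.card_fun, ZMod.card, Fintype.card_fin, Nat.cast_pow]
  rw [e1, e2]
  have hc := cyc_card_pos g x
  calc ((((cyc g x) ∩ box z r).card : ℝ) / (r : ℝ) ^ d - ((cyc g x).card : ℝ) / (L : ℝ) ^ d) ^ 2
      = ∑ x' ∈ cyc g x, ((((cyc g x') ∩ box z r).card : ℝ) / (r : ℝ) ^ d -
          ((cyc g x').card : ℝ) / (L : ℝ) ^ d) ^ 2 / ((cyc g x').card : ℝ) := by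
        have h1 : ∀ x' ∈ cyc g x, ((((cyc g x') ∩ box z r).card : ℝ) / (r : ℝ) ^ d -
          ((cyc g x').card : ℝ) / (L : ℝ) ^ d) ^ 2 / ((cyc g x').card : ℝ) =
          ((((cyc g x) ∩ box z r).card : ℝ) / (r : ℝ) ^ d -
          ((cyc g x).card : ℝ) / (L : ℝ) ^ d) ^ 2 / ((cyc g x).card : ℝ) := by
          intro x' hx'
          rw [cyc_eq g x x' hx']
        rw [Finset.sum_congr rfl h1, Finset.sum_const, nsmul_eq_mul]
        field_simp
    _ ≤ Dvz r g z := by
        unfold Dvz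
        exact Finset.sum_le_sum_of_subset_of_nonneg (Finset.subset_univ _) fun x' _ _ =>
          div_nonneg (sq_nonneg _) (Nat.cast_nonneg _)

theorem bfrac_nonneg {V : Type} (B : Finset V) (g : Perm V) (γ : Cyc g) : 0 ≤ bfrac B g γ := by
  unfold bfrac
  positivity

theorem bfrac_le {V : Type} [Fintype V] [DecidableEq V] (B : Finset V) (g : Perm V) (γ : Cyc g) :
    bfrac B g γ ≤ 1 := by
  unfold bfrac
  refine div_le_one_of_le₀ ?_ (Nat.cast_nonneg _)
  have h1 : Nat.card {v : V // v ∈ B ∧ cyOf g v = γ} ≤ Nat.card {v : V // v ∈ B} := by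
    classical
    exact Nat.card_le_card_of_injective
      (fun v : {v : V // v ∈ B ∧ cyOf g v = γ} => (⟨v.1, v.2.1⟩ : {v : V // v ∈ B}))
      (fun a b hab => Subtype.ext (congrArg (fun t => t.1) hab))
  rw [Nat.card_eq_fintype_card (α := {v : V // v ∈ B}), Fintype.card_coe] at h1
  exact_mod_cast h1

theorem frac_nonneg {V : Type} [Fintype V] (g : Perm V) (γ : Cyc g) : 0 ≤ frac g γ := by
  unfold frac
  positivity

theorem frac_le {V : Type} [Fintype V] (g : Perm V) (γ : Cyc g) : frac g γ ≤ 1 := by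
  unfold frac
  refine div_le_one_of_le₀ ?_ (Nat.cast_nonneg _)
  have h1 : Nat.card {w : V // cyOf g w = γ} ≤ Nat.card V :=
    Nat.card_le_card_of_injective _ Subtype.val_injective
  rw [Nat.card_eq_fintype_card (α := V)] at h1
  exact_mod_cast h1

/-- continuity on the cube -/
theorem unif_cube {m : ℕ} {f : (Fin m → ℝ) → ℝ} (hf : Continuous f) {ε : ℝ} (hε : 0 < ε) :
    ∃ θ : ℝ, 0 < θ ∧ ∀ u v : Fin m → ℝ, (∀ i, 0 ≤ u i ∧ u i ≤ 1) → (∀ i, 0 ≤ v i ∧ v i ≤ 1) →
      (∀ i, |u i - v i| < θ) → |f u - f v| ≤ ε := by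
  have hc : IsCompact (Set.Icc (0 : Fin m → ℝ) 1) := isCompact_Icc
  have h1 := hc.uniformContinuousOn_of_continuous hf.continuousOn
  rw [Metric.uniformContinuousOn_iff] at h1
  obtain ⟨θ, hθ, h⟩ := h1 ε hε
  refine ⟨θ, hθ, fun u v hu hv huv => ?_⟩
  have h2 := h u ⟨fun i => (hu i).1, fun i => (hu i).2⟩ v ⟨fun i => (hv i).1, fun i => (hv i).2⟩
    ((dist_pi_lt_iff hθ).2 fun i => by rw [Real.dist_eq]; exact huv i)
  rw [Real.dist_eq] at h2
  exact h2.le

theorem top_close {m : ℕ} {f : (Fin m → ℝ) → ℝ} {C ε θ : ℝ} (hC : ∀ u, |f u| ≤ C) (hε : 0 ≤ ε)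
    (hθ : 0 < θ)
    (hf : ∀ u v : Fin m → ℝ, (∀ i, 0 ≤ u i ∧ u i ≤ 1) → (∀ i, 0 ≤ v i ∧ v i ≤ 1) →
      (∀ i, |u i - v i| < θ) → |f u - f v| ≤ ε) (r : ℕ) (hrL : r ≤ L)
    (g : Perm (Fin d → ZMod L)) (z : Fin d → ZMod L) :
    |f (fun i : Fin m => top (frac g) i) - f (fun i : Fin m => top (bfrac (box z r) g) i)| ≤
      ε + 2 * C / θ ^ 2 * Dvz r g z := by
  have hC0 : 0 ≤ C := (abs_nonneg _).trans (hC (fun _ => 0))
  have hD0 := Dvz_nonneg r g z
  rcases lt_or_ge (Dvz r g z) (θ ^ 2) with h | h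
  · have h1 : Real.sqrt (Dvz r g z) < θ := by
      rw [Real.sqrt_lt' hθ]
      exact h
    have h2 : ∀ γ, |frac g γ - bfrac (box z r) g γ| ≤ Real.sqrt (Dvz r g z) := by
      intro γ
      rw [abs_sub_comm]
      exact Real.abs_le_sqrt (dev_sq r hrL g z γ)
    have h3 := hf (fun i : Fin m => top (frac g) i) (fun i : Fin m => top (bfrac (box z r) g) i)
      (fun i => ⟨top_nonneg _ (frac_nonneg g) _, top_le_one _ (frac_nonneg g) (frac_le g) _⟩)
      (fun i => ⟨top_nonneg _ (bfrac_nonneg _ g) _,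
        top_le_one _ (bfrac_nonneg _ g) (bfrac_le _ g) _⟩)
      (fun i => lt_of_le_of_lt (top_lip _ _ (frac_nonneg g) (bfrac_nonneg _ g) _
        (Real.sqrt_nonneg _) h2 _) h1)
    have h4 : 0 ≤ 2 * C / θ ^ 2 * Dvz r g z := by positivity
    linarith
  · have h1 : |f (fun i : Fin m => top (frac g) i) -
        f (fun i : Fin m => top (bfrac (box z r) g) i)| ≤ 2 * C := by
      refine (abs_sub _ _).trans ?_
      have h2 := hC (fun i : Fin m => top (frac g) i)
      have h3 := hC (fun i : Fin m => top (bfrac (box z r) g) i)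
      linarith
    have h2 : 2 * C ≤ 2 * C / θ ^ 2 * Dvz r g z := by
      rw [div_mul_eq_mul_div, le_div_iff₀ (by positivity)]
      exact mul_le_mul_of_nonneg_left h (by positivity)
    linarith

end torus

end Pool.Agent.J6H44.PL
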