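import Pool.Agent.J6H9.PL.Stm
import Pool.Agent.J6H45.CoordRestr.Main

/-!
# The radial part of a piecewise linear cone (module PL-RAD)
-/

set_option autoImplicit false

open Filter Topology
open Pool.Agent.J6H45.CoordRestr Pool.Agent.J6H9.PL

namespace Pool.Agent.J6H44.PL.Rad

variable {n : ℕ}

lemma A_zero {A : E n ≃ₜ E n} (hA : Homog A) : A 0 = 0 := by
  have h := hA 0 0 le_rfl
  simpa using h

/-- lower bound -/
lemma lower {A : E n ≃ₜ E n} (hA : Homog A) : ∃ c : ℝ, 0 < c ∧ ∀ x, c * ‖x‖ ≤ ‖A x‖ := by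
  have h0 : A.symm 0 = 0 := by
    rw [← A_zero hA, A.symm_apply_apply, A_zero hA]
  have hc : ContinuousAt A.symm 0 := A.symm.continuous.continuousAt
  obtain ⟨δ, hδ, h⟩ := Metric.continuousAt_iff.1 hc 1 one_pos
  refine ⟨δ, hδ, fun x => ?_⟩
  by_cases hx : x = 0
  · subst hx; simp
  have hx0 : 0 < ‖x‖ := norm_pos_iff.2 hx
  have h1 : A (‖x‖⁻¹ • x) = ‖x‖⁻¹ • A x := hA _ _ (by positivity)
  have h2 : ‖‖x‖⁻¹ • x‖ = 1 := by
    rw [norm_smul, norm_inv, norm_norm]
    exact inv_mul_cancel₀ hx0.ne'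
  have h3 : ¬ dist (A (‖x‖⁻¹ • x)) 0 < δ := by
    intro h3
    have h4 := h h3
    rw [A.symm_apply_apply, h0, dist_zero_right, h2] at h4
    exact lt_irrefl _ h4
  rw [dist_zero_right, h1, norm_smul, norm_inv, norm_norm, not_lt] at h3
  calc δ * ‖x‖ ≤ (‖x‖⁻¹ * ‖A x‖) * ‖x‖ := mul_le_mul_of_nonneg_right h3 hx0.le
    _ = ‖A x‖ := by field_simp

lemma log_div_le {s t : ℝ} (hs : 0 < s) (ht : 0 < t) :
    Real.log s - Real.log t ≤ (s - t) / t := by
  rw [← Real.log_div hs.ne' ht.ne']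
  have := Real.log_le_sub_one_of_pos (div_pos hs ht)
  have e : (s - t) / t = s / t - 1 := by field_simp
  linarith

lemma abs_log_sub_le {s t m : ℝ} (hm : 0 < m) (hs : m ≤ s) (ht : m ≤ t) :
    |Real.log s - Real.log t| ≤ |s - t| / m := by
  have hs0 : 0 < s := hm.trans_le hs
  have ht0 : 0 < t := hm.trans_le ht
  rw [abs_le]
  have key : ∀ a b : ℝ, m ≤ a → m ≤ b → Real.log a - Real.log b ≤ |a - b| / m := by
    intro a b ha hb
    have h1 := log_div_le (hm.trans_le ha) (hm.trans_le hb)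
    refine h1.trans ?_
    calc (a - b) / b ≤ |a - b| / b := by
          exact div_le_div_of_nonneg_right (le_abs_self _) (hm.trans_le hb).le
      _ ≤ |a - b| / m := div_le_div_of_nonneg_left (abs_nonneg _) hm hb
  constructor
  · have := key t s ht hs
    rw [abs_sub_comm] at this
    linarith
  · exact key s t hs ht

lemma exp_sub_exp_le {a b : ℝ} (ha : a ≤ 1) (hb : b ≤ 1) :
    |Real.exp a - Real.exp b| ≤ 3 * |a - b| := by
  have key : ∀ p q : ℝ, p ≤ 1 → q ≤ p → Real.exp p - Real.exp q ≤ 3 * (p - q) := by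
    intro p q hp hq
    have h1 : Real.exp q = Real.exp p * Real.exp (q - p) := by
      rw [← Real.exp_add]; congr 1; ring
    have h2 : (q - p) + 1 ≤ Real.exp (q - p) := Real.add_one_le_exp _
    have h3 : Real.exp p ≤ 3 := by
      have h4 : Real.exp p ≤ Real.exp 1 := Real.exp_le_exp.2 hp
      have h5 := Real.exp_one_lt_d9
      linarith
    have h4 : 0 < Real.exp p := Real.exp_pos p
    nlinarith
  rcases le_total a b with h | h
  · have h1 := key b a hb h
    have h2 : Real.exp a ≤ Real.exp b := Real.exp_le_exp.2 h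
    rw [abs_sub_comm, abs_of_nonneg (by linarith), abs_sub_comm, abs_of_nonneg (by linarith)]
    exact h1
  · have h1 := key a b ha h
    have h2 : Real.exp b ≤ Real.exp a := Real.exp_le_exp.2 h
    rw [abs_of_nonneg (by linarith), abs_of_nonneg (by linarith)]
    exact h1

/-- the logarithm of the radial stretching -/
noncomputable def l (A : E n ≃ₜ E n) (x : E n) : ℝ := Real.log (‖A x‖ / ‖x‖)

lemma A_ne {A : E n ≃ₜ E n} (hA : Homog A) {x : E n} (hx : x ≠ 0) : A x ≠ 0 := by
  intro h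
  apply hx
  apply A.injective
  rw [h, A_zero hA]

lemma l_smul {A : E n ≃ₜ E n} (hA : Homog A) {s : ℝ} (hs : 0 < s) (x : E n) :
    l A (s • x) = l A x := by
  unfold l
  rw [hA s x hs.le, norm_smul, norm_smul, mul_div_mul_left]
  rw [Real.norm_eq_abs, abs_of_pos hs]
  exact hs.ne'

lemma exp_l {A : E n ≃ₜ E n} (hA : Homog A) {x : E n} (hx : x ≠ 0) :
    Real.exp (l A x) = ‖A x‖ / ‖x‖ := by
  unfold l
  exact Real.exp_log (div_pos (norm_pos_iff.2 (A_ne hA hx)) (norm_pos_iff.2 hx))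

theorem main (h : S_Lip) : S_Rad := by
  intro n A hA hS
  obtain ⟨K, hK⟩ := h n A A.continuous hS
  obtain ⟨c, hc, hlow⟩ := lower hA
  have hup : ∀ x, ‖A x‖ ≤ (K + 1 : ℝ) * ‖x‖ := by
    intro x
    have h1 := hK.dist_le_mul x 0
    rw [A_zero hA, dist_zero_right, dist_zero_right] at h1
    have := norm_nonneg x
    linarith
  have hK0 : (0 : ℝ) ≤ K := K.2
  set M : ℝ := |Real.log c| + |Real.log (K + 1)| with hM
  have hM0 : 0 ≤ M := by positivity
  have hlM : ∀ x : E n, x ≠ 0 → |l A x| ≤ M := by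
    intro x hx
    have hx0 : 0 < ‖x‖ := norm_pos_iff.2 hx
    have h1 : c ≤ ‖A x‖ / ‖x‖ := by rw [le_div_iff₀ hx0]; exact hlow x
    have h2 : ‖A x‖ / ‖x‖ ≤ K + 1 := by rw [div_le_iff₀ hx0]; exact hup x
    have h3 : Real.log c ≤ l A x := Real.log_le_log hc h1
    have h4 : l A x ≤ Real.log (K + 1) := Real.log_le_log (hc.trans_le h1) h2
    rw [abs_le]
    have h5 := neg_abs_le (Real.log c)
    have h6 := le_abs_self (Real.log ((K : ℝ) + 1))
    have h7 := abs_nonneg (Real.log c)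
    have h8 := abs_nonneg (Real.log ((K : ℝ) + 1))
    constructor <;> linarith
  -- the difference of the logarithms
  have hdif : ∀ x y : E n, x ≠ 0 → y ≠ 0 → ‖y‖ ≤ ‖x‖ →
      |l A x - l A y| * ‖y‖ ≤ (K / c + 1) * ‖x - y‖ := by
    intro x y hx hy hxy
    have hy0 : 0 < ‖y‖ := norm_pos_iff.2 hy
    have hx0 : 0 < ‖x‖ := norm_pos_iff.2 hx
    have e1 : l A x - l A y = (Real.log ‖A x‖ - Real.log ‖A y‖) - (Real.log ‖x‖ - Real.log ‖y‖) := by
      unfold l
      rw [Real.log_div (norm_pos_iff.2 (A_ne hA hx)).ne' hx0.ne',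
        Real.log_div (norm_pos_iff.2 (A_ne hA hy)).ne' hy0.ne']
      ring
    have h1 : |Real.log ‖x‖ - Real.log ‖y‖| ≤ |‖x‖ - ‖y‖| / ‖y‖ := abs_log_sub_le hy0 hxy le_rfl
    have h2 : |Real.log ‖A x‖ - Real.log ‖A y‖| ≤ |‖A x‖ - ‖A y‖| / (c * ‖y‖) :=
      abs_log_sub_le (by positivity) ((mul_le_mul_of_nonneg_left hxy hc.le).trans (hlow x)) (hlow y)
    have h3 : |‖A x‖ - ‖A y‖| ≤ K * ‖x - y‖ := by
      refine (abs_norm_sub_norm_le _ _).trans ?_
      have := hK.dist_le_mul x y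
      rwa [dist_eq_norm, dist_eq_norm] at this
    have h4 : |‖x‖ - ‖y‖| ≤ ‖x - y‖ := abs_norm_sub_norm_le _ _
    have h5 : |l A x - l A y| ≤ |‖A x‖ - ‖A y‖| / (c * ‖y‖) + |‖x‖ - ‖y‖| / ‖y‖ := by
      rw [e1]
      exact (abs_sub _ _).trans (add_le_add h2 h1)
    calc |l A x - l A y| * ‖y‖
        ≤ (|‖A x‖ - ‖A y‖| / (c * ‖y‖) + |‖x‖ - ‖y‖| / ‖y‖) * ‖y‖ :=
          mul_le_mul_of_nonneg_right h5 hy0.le
      _ = |‖A x‖ - ‖A y‖| / c + |‖x‖ - ‖y‖| := by field_simp
      _ ≤ (K * ‖x - y‖) / c + ‖x - y‖ :=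
          add_le_add (div_le_div_of_nonneg_right h3 hc.le) h4
      _ = (K / c + 1) * ‖x - y‖ := by ring
  set C : ℝ := 3 * M + 3 * (K / c + 1) with hC
  have hKc : 0 ≤ (K : ℝ) / c := by positivity
  obtain ⟨N, hN⟩ := exists_nat_ge (4 * C + 1)
  have hN1 : (1 : ℝ) ≤ N := by
    have : 0 ≤ C := by positivity
    linarith
  have hN0 : (0 : ℝ) < N := by linarith
  have hMN : ∀ x : E n, x ≠ 0 → |l A x / N| ≤ M / N := by
    intro x hx
    rw [abs_div, abs_of_pos hN0]
    exact div_le_div_of_nonneg_right (hlM x hx) hN0.le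
  have hMN1 : M / N ≤ 1 := by
    rw [div_le_one hN0]
    linarith
  set u : E n → E n := fun x => (Real.exp (l A x / N) - 1) • x with hu
  have hexp1 : ∀ x : E n, x ≠ 0 → |Real.exp (l A x / N) - 1| ≤ 3 * (M / N) := by
    intro x hx
    have h1 := exp_sub_exp_le (a := l A x / N) (b := 0)
      ((le_abs_self _).trans ((hMN x hx).trans hMN1)) (by norm_num)
    rw [Real.exp_zero, sub_zero] at h1
    have := hMN x hx
    linarith
  have key : ∀ x y : E n, ‖y‖ ≤ ‖x‖ → ‖u x - u y‖ ≤ 1 / 4 * ‖x - y‖ := by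
    intro x y hxy
    have hCN : C / N ≤ 1 / 4 := by
      rw [div_le_iff₀ hN0]; linarith
    by_cases hx : x = 0
    · subst hx
      have hy : y = 0 := by
        rw [norm_zero] at hxy
        exact norm_le_zero_iff.1 hxy
      subst hy
      simp
    by_cases hy : y = 0
    · subst hy
      have e1 : u x - u 0 = (Real.exp (l A x / N) - 1) • x := by simp [hu]
      rw [e1, norm_smul, sub_zero, Real.norm_eq_abs]
      refine mul_le_mul_of_nonneg_right ((hexp1 x hx).trans ?_) (norm_nonneg x)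
      have : 3 * (M / N) ≤ C / N := by
        rw [hC, ← mul_div_assoc]
        refine div_le_div_of_nonneg_right ?_ hN0.le
        have : 0 ≤ 3 * ((K : ℝ) / c + 1) := by positivity
        linarith
      linarith
    · have e1 : u x - u y = (Real.exp (l A x / N) - 1) • (x - y) +
          (Real.exp (l A x / N) - Real.exp (l A y / N)) • y := by
        simp only [hu]
        module
      have h1 : |Real.exp (l A x / N) - Real.exp (l A y / N)| ≤ 3 * |l A x / N - l A y / N| :=
        exp_sub_exp_le ((le_abs_self _).trans ((hMN x hx).trans hMN1))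
          ((le_abs_self _).trans ((hMN y hy).trans hMN1))
      have h2 : |l A x / N - l A y / N| * ‖y‖ ≤ (K / c + 1) / N * ‖x - y‖ := by
        rw [← sub_div, abs_div, abs_of_pos hN0]
        have := hdif x y hx hy hxy
        calc |l A x - l A y| / N * ‖y‖ = (|l A x - l A y| * ‖y‖) / N := by ring
          _ ≤ ((K / c + 1) * ‖x - y‖) / N := div_le_div_of_nonneg_right this hN0.le
          _ = _ := by ring
      rw [e1]
      calc ‖(Real.exp (l A x / N) - 1) • (x - y) +
            (Real.exp (l A x / N) - Real.exp (l A y / N)) • y‖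
          ≤ |Real.exp (l A x / N) - 1| * ‖x - y‖ +
            |Real.exp (l A x / N) - Real.exp (l A y / N)| * ‖y‖ := by
            refine (norm_add_le _ _).trans (le_of_eq ?_)
            rw [norm_smul, norm_smul, Real.norm_eq_abs, Real.norm_eq_abs]
        _ ≤ 3 * (M / N) * ‖x - y‖ + 3 * |l A x / N - l A y / N| * ‖y‖ :=
            add_le_add (mul_le_mul_of_nonneg_right (hexp1 x hx) (norm_nonneg _))
              (mul_le_mul_of_nonneg_right h1 (norm_nonneg _))
        _ = 3 * (M / N) * ‖x - y‖ + 3 * (|l A x / N - l A y / N| * ‖y‖) := by ring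
        _ ≤ 3 * (M / N) * ‖x - y‖ + 3 * ((K / c + 1) / N * ‖x - y‖) := by linarith
        _ = C / N * ‖x - y‖ := by rw [hC]; ring
        _ ≤ 1 / 4 * ‖x - y‖ := mul_le_mul_of_nonneg_right hCN (norm_nonneg _)
  have hLip : LipschitzWith (1 / 4) u := by
    refine LipschitzWith.of_dist_le_mul fun x y => ?_
    rw [dist_eq_norm, dist_eq_norm]
    have e4 : ((1 / 4 : NNReal) : ℝ) = 1 / 4 := by push_cast; rfl
    rw [e4]
    rcases le_total ‖y‖ ‖x‖ with h1 | h1
    · exact key x y h1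
    · rw [norm_sub_rev, norm_sub_rev x y]
      exact key y x h1
  obtain ⟨k, hk⟩ := exists_homeo_of_lip (c := 1 / 4) (by
    rw [← NNReal.coe_lt_coe]; push_cast; norm_num) hLip
  have hkG : k ∈ GA n := MA_le_GA (small_mem_MA (c := 1 / 4) (by
    rw [← NNReal.coe_lt_coe]; push_cast; norm_num) hLip hk)
  have hkx : ∀ x, k x = Real.exp (l A x / N) • x := by
    intro x
    rw [hk x]
    simp only [hu]
    module
  have hpow : ∀ (j : ℕ) (x : E n), (k ^ j) x = Real.exp (j * (l A x / N)) • x := by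
    intro j
    induction j with
    | zero => intro x; simp
    | succ j ih =>
      intro x
      rw [pow_succ', Homeomorph.mul_apply, ih x, hkx, l_smul hA (Real.exp_pos _), smul_smul,
        ← Real.exp_add]
      congr 2
      push_cast
      ring
  refine ⟨k ^ N, ?_, fun x => ?_⟩
  · exact ((main_A (k ^ N)).out 0 2).1 (Approximable.of_mem (Subgroup.pow_mem _ hkG N))
  · by_cases hx : x = 0
    · subst hx
      rw [hpow]; simp
    · rw [hpow N x, mul_div_cancel₀ _ hN0.ne', exp_l hA hx]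

end Pool.Agent.J6H44.PL.Rad
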