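import Pool.Agent.J6H44.PL.Fin
import Pool.Agent.R134.PB.All

/-! The two point function of stirring at polylogarithmic times. -/

set_option autoImplicit false
set_option linter.unusedSectionVars false
set_option linter.unusedVariables false
set_option maxHeartbeats 1600000

namespace Pool.Agent.J6H44.PL

open Finset Equiv Q292.LC
open Pool.Agent.Y998.ST (stirExp nnRate stirLaw nn_nonneg nn_symm nn_diag qq qq_nonneg qq_row)
open Pool.Agent.R134.PB (con AA)
open Pool.Agent.Y661.PD (tdist)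
open Pool.Agent.Q153.LC (mem_cyc self_mem_cyc cyc_eq)

section gen

variable {V : Type} [Fintype V] [DecidableEq V]

open Classical in
theorem cyc_quad (g : Perm V) (b : V → ℝ) :
    ∑ x, (∑ y ∈ cyc g x, b y) ^ 2 / ((cyc g x).card : ℝ) =
      ∑ x, ∑ y, b x * b y * (if g.SameCycle x y then (1 : ℝ) else 0) := by
  have h1 : ∀ x, (∑ y ∈ cyc g x, b y) ^ 2 / ((cyc g x).card : ℝ) =
      (∑ y ∈ cyc g x, b y * ∑ y' ∈ cyc g y, b y') / ((cyc g x).card : ℝ) := by
    intro x
    congr 1
    rw [sq, Finset.sum_mul]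
    refine Finset.sum_congr rfl fun y hy => ?_
    rw [cyc_eq g x y hy]
  rw [Finset.sum_congr rfl fun x _ => h1 x,
    cyc_exch g univ (fun x _ => Finset.subset_univ _) fun y => b y * ∑ y' ∈ cyc g y, b y']
  refine Finset.sum_congr rfl fun x _ => ?_
  rw [Finset.mul_sum]
  have h2 : cyc g x = univ.filter (fun y => g.SameCycle x y) := by
    ext y
    rw [mem_cyc]
    simp
  rw [h2, Finset.sum_filter]
  refine Finset.sum_congr rfl fun y _ => ?_
  by_cases h : g.SameCycle x y
  · rw [if_pos h, if_pos h, mul_one]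
  · rw [if_neg h, if_neg h, mul_zero]

theorem sE_quad (J : V → V → ℝ) (t : ℝ) (W : V → V → ℝ) :
    stirExp J t (fun g => ∑ x, ∑ y, W x y * (open Classical in
      if g.SameCycle x y then (1 : ℝ) else 0)) = ∑ x, ∑ y, W x y * con J t x y := by
  rw [sE_sum]
  refine Finset.sum_congr rfl fun x _ => ?_
  rw [sE_sum]
  refine Finset.sum_congr rfl fun y _ => ?_
  rw [sE_mul]
  rfl

/-- positive forms -/
theorem con_form_nonneg {J : V → V → ℝ} (hJ : ∀ x y, 0 ≤ J x y) {t : ℝ} (ht : 0 ≤ t)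
    (W : V → V → ℝ) (hW : ∀ f : V → ℝ, 0 ≤ ∑ x, ∑ y, W x y * (f x * f y)) :
    0 ≤ ∑ x, ∑ y, W x y * con J t x y := by
  classical
  rw [← sE_quad]
  refine le_of_eq_of_le (sE_const J t 0).symm ?_
  refine sE_mono hJ ht fun g => ?_
  have h1 : ∑ x, ∑ y, W x y * (open Classical in if g.SameCycle x y then (1 : ℝ) else 0) =
      ∑ z, (∑ w, if g.SameCycle z w then (1 : ℝ) else 0)⁻¹ *
        ∑ x, ∑ y, W x y * ((if g.SameCycle z x then (1 : ℝ) else 0) *
          (if g.SameCycle z y then (1 : ℝ) else 0)) := by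
    calc ∑ x, ∑ y, W x y * (open Classical in if g.SameCycle x y then (1 : ℝ) else 0)
        = ∑ x, ∑ y, ∑ z, (∑ w, if g.SameCycle z w then (1 : ℝ) else 0)⁻¹ *
              (W x y * ((if g.SameCycle z x then (1 : ℝ) else 0) *
              (if g.SameCycle z y then (1 : ℝ) else 0))) := by
            refine sum_congr rfl fun x _ => sum_congr rfl fun y _ => ?_
            have h2 := Pool.Agent.R134.PB.Mono.same_sum g x y
            have h3 : (open Classical in if g.SameCycle x y then (1 : ℝ) else 0) =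
              ∑ z, (∑ w, if g.SameCycle z w then (1 : ℝ) else 0)⁻¹ *
                ((if g.SameCycle z x then (1 : ℝ) else 0) *
                  (if g.SameCycle z y then (1 : ℝ) else 0)) := by
              rw [h2]
            rw [h3, mul_sum]
            exact sum_congr rfl fun z _ => by ring
      _ = ∑ x, ∑ z, ∑ y, (∑ w, if g.SameCycle z w then (1 : ℝ) else 0)⁻¹ *
              (W x y * ((if g.SameCycle z x then (1 : ℝ) else 0) *
              (if g.SameCycle z y then (1 : ℝ) else 0))) :=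
            sum_congr rfl fun x _ => sum_comm
      _ = ∑ z, ∑ x, ∑ y, (∑ w, if g.SameCycle z w then (1 : ℝ) else 0)⁻¹ *
              (W x y * ((if g.SameCycle z x then (1 : ℝ) else 0) *
              (if g.SameCycle z y then (1 : ℝ) else 0))) := sum_comm
      _ = _ := by
          refine sum_congr rfl fun z _ => ?_
          rw [mul_sum]
          exact sum_congr rfl fun x _ => by rw [mul_sum]
  rw [h1]
  exact sum_nonneg fun z _ => mul_nonneg
    (inv_nonneg.mpr (sum_nonneg fun w _ => by split_ifs <;> norm_num)) (hW _)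

/-- the averaged two point function is at least its mean over all pairs -/
theorem AA_low [Nonempty V] {J : V → V → ℝ} (hJ : ∀ x y, 0 ≤ J x y) (hs : ∀ x y, J x y = J y x)
    (h0 : ∀ x, J x x = 0) {t : ℝ} (ht : 0 ≤ t) (s : ℝ) :
    (∑ x, ∑ y, con J t x y) / (Fintype.card V : ℝ) ^ 2 ≤ AA J t s := by
  have hN : (0 : ℝ) < Fintype.card V := by exact_mod_cast Fintype.card_pos
  have h1 := con_form_nonneg hJ ht (fun x y => qq J s x y - 1 / (Fintype.card V : ℝ)) (by
    intro f
    have e1 : ∑ x, ∑ y, (qq J s x y - 1 / (Fintype.card V : ℝ)) * (f x * f y) =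
        ∑ x, ∑ y, qq J s x y * (f x * f y) - (∑ x, f x) ^ 2 / (Fintype.card V : ℝ) := by
      simp only [sub_mul, Finset.sum_sub_distrib]
      congr 1
      rw [sq, Finset.sum_mul_sum, Finset.sum_div]
      refine Finset.sum_congr rfl fun x _ => ?_
      rw [Finset.sum_div]
      exact Finset.sum_congr rfl fun y _ => by ring
    rw [e1, Pool.Agent.R134.PB.Mono.quad hs h0 s f, sub_nonneg, div_le_iff₀ hN]
    have e2 : ∑ x, f x = ∑ z, ∑ y, qq J (s / 2) z y * f y := by
      rw [Finset.sum_comm]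
      refine Finset.sum_congr rfl fun y _ => ?_
      rw [← Finset.sum_mul, Pool.Agent.Y799.PD.PR2.qq_col, one_mul]
    rw [e2]
    have h3 := sq_sum_le_card_mul_sum_sq (s := (Finset.univ : Finset V))
      (f := fun z => ∑ y, qq J (s / 2) z y * f y)
    rw [Finset.card_univ] at h3
    linarith)
  unfold AA
  rw [div_le_div_iff₀ (by positivity) hN]
  have e3 : ∑ x, ∑ y, (qq J s x y - 1 / (Fintype.card V : ℝ)) * con J t x y =
      ∑ x, ∑ y, qq J s x y * con J t x y - (∑ x, ∑ y, con J t x y) / (Fintype.card V : ℝ) := by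
    simp only [sub_mul, Finset.sum_sub_distrib]
    congr 1
    rw [Finset.sum_div]
    refine Finset.sum_congr rfl fun x _ => ?_
    rw [Finset.sum_div]
    exact Finset.sum_congr rfl fun y _ => by ring
  rw [e3] at h1
  obtain ⟨S, hS⟩ : ∃ S : ℝ, S = ∑ x, ∑ y, con J t x y := ⟨_, rfl⟩
  obtain ⟨Q, hQ⟩ : ∃ Q : ℝ, Q = ∑ x, ∑ y, qq J s x y * con J t x y := ⟨_, rfl⟩
  rw [← hS, ← hQ] at h1 ⊢
  have h4 : S ≤ Q * Fintype.card V := by
    rw [sub_nonneg, div_le_iff₀ hN] at h1
    exact h1
  nlinarith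

end gen

section torus

variable {d L : ℕ} [NeZero L]

theorem Dvz_exp (t : ℝ) (r : ℕ) (z : Fin d → ZMod L) :
    stirExp (nnRate d L) t (fun g => Dvz r g z) =
      ∑ x, ∑ y, (ew r z x - 1 / (L : ℝ) ^ d) * (ew r z y - 1 / (L : ℝ) ^ d) *
        con (nnRate d L) t x y := by
  classical
  rw [← sE_quad]
  congr 1
  funext g
  unfold Dvz
  simp only [diff_eq]
  rw [cyc_quad g (fun y => ew r z y - 1 / (L : ℝ) ^ d)]

/-- the mean of the two point function over all pairs -/
noncomputable def QQ (d L : ℕ) [NeZero L] (t : ℝ) : ℝ :=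
  (∑ x : Fin d → ZMod L, ∑ y : Fin d → ZMod L, con (nnRate d L) t x y) / ((L : ℝ) ^ d) ^ 2

theorem Dv_exp (t : ℝ) (r : ℕ) (hr : 1 ≤ r) (hrL : r ≤ L) :
    stirExp (nnRate d L) t (fun g => Dv r g) =
      (∑ z : Fin d → ZMod L, ∑ x, ∑ y, ew r z x * ew r z y * con (nnRate d L) t x y) /
        (L : ℝ) ^ d - QQ d L t := by
  have hL0 : (0 : ℝ) < (L : ℝ) ^ d := by
    have : (0 : ℝ) < L := by exact_mod_cast Nat.pos_of_ne_zero (NeZero.ne L)
    positivity
  obtain ⟨N, hN⟩ : ∃ N : ℝ, N = (L : ℝ) ^ d := ⟨_, rfl⟩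
  have e1 : stirExp (nnRate d L) t (fun g => Dv r g) =
      1 / (L : ℝ) ^ d * ∑ z : Fin d → ZMod L, stirExp (nnRate d L) t (fun g => Dvz r g z) := by
    rw [← sE_sum (nnRate d L) t univ (fun z g => Dvz r g z), ← sE_mul]
    congr 1
    funext g
    unfold Dv
    ring
  have e2 : ∀ z : Fin d → ZMod L, stirExp (nnRate d L) t (fun g => Dvz r g z) =
      (∑ x, ∑ y, ew r z x * ew r z y * con (nnRate d L) t x y) -
      1 / N * (∑ x, ∑ y, ew r z x * con (nnRate d L) t x y) -
      1 / N * (∑ x, ∑ y, ew r z y * con (nnRate d L) t x y) +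
      1 / N ^ 2 * (∑ x : Fin d → ZMod L, ∑ y : Fin d → ZMod L, con (nnRate d L) t x y) := by
    intro z
    rw [Dvz_exp, ← hN]
    simp only [Finset.mul_sum, ← Finset.sum_sub_distrib, ← Finset.sum_add_distrib]
    refine Finset.sum_congr rfl fun x _ => Finset.sum_congr rfl fun y _ => ?_
    ring
  have e3 : ∑ z : Fin d → ZMod L, ∑ x, ∑ y, ew r z x * con (nnRate d L) t x y =
      ∑ x : Fin d → ZMod L, ∑ y : Fin d → ZMod L, con (nnRate d L) t x y := by
    rw [Finset.sum_comm]
    refine Finset.sum_congr rfl fun x _ => ?_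
    rw [Finset.sum_comm]
    refine Finset.sum_congr rfl fun y _ => ?_
    rw [← Finset.sum_mul, ew_col r hr hrL, one_mul]
  have e4 : ∑ z : Fin d → ZMod L, ∑ x, ∑ y, ew r z y * con (nnRate d L) t x y =
      ∑ x : Fin d → ZMod L, ∑ y : Fin d → ZMod L, con (nnRate d L) t x y := by
    rw [Finset.sum_comm]
    refine Finset.sum_congr rfl fun x _ => ?_
    rw [Finset.sum_comm]
    refine Finset.sum_congr rfl fun y _ => ?_
    rw [← Finset.sum_mul, ew_col r hr hrL, one_mul]
  rw [e1, Finset.sum_congr rfl fun z _ => e2 z, Finset.sum_add_distrib, Finset.sum_sub_distrib,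
    Finset.sum_sub_distrib, ← Finset.mul_sum, ← Finset.mul_sum, e3, e4, Finset.sum_const,
    nsmul_eq_mul, cardV, ← hN]
  unfold QQ
  rw [← hN]
  have hN0 : N ≠ 0 := by rw [hN]; exact hL0.ne'
  field_simp
  ring

end torus

end Pool.Agent.J6H44.PL
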